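import Pool.Agent.MP_7a2e76_pr.Fill
import Pool.Agent.MP_7a2e76_pr.Disc2
import Pool.Agent.MP_7a2e76_pr.Star

-- part MP_7a2e76_pr.Tutte
section

/-! Solving Tutte's equation from the single inequality `α + 2 F(1) ≤ 1`. -/

namespace Pool.Agent.MP_7a2e76_pr

open scoped ENNReal
open Filter Topology Set

namespace Fill

theorem quad_enn (a b x : ℝ≥0∞) :
    x * (∑' A, bw a b A * x ^ len A) + a * x * (∑' A, if len A = 1 then bw a b A else 0) =
      b * x ^ 2 + a * (∑' A, bw a b A * x ^ len A) +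
        x * ((∑' A, bw a b A * x ^ len A) * ∑' A, bw a b A * x ^ len A) := by
  have e1 : (∑' A, ∑' B, bw a b (split A B) * x ^ len (split A B)) =
      (∑' A, bw a b A * x ^ len A) * ∑' A, bw a b A * x ^ len A := by
    rw [← ENNReal.tsum_mul_right]
    refine tsum_congr fun A => ?_
    rw [← ENNReal.tsum_mul_left]
    refine tsum_congr fun B => ?_
    rw [bw_split]
    simp only [len, pow_add]
    ring
  have e2 : x * (∑' A, bw a b (new A) * x ^ len (new A)) +
      a * x * (∑' A, if len A = 1 then bw a b A else 0) = a * ∑' A, bw a b A * x ^ len A := by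
    rw [← ENNReal.tsum_mul_left, ← ENNReal.tsum_mul_left, ← ENNReal.tsum_mul_left,
      ← ENNReal.tsum_add]
    refine tsum_congr fun A => ?_
    by_cases hA : ok A
    · obtain ⟨k, hk⟩ : ∃ k, len A = k + 1 := ⟨len A - 1, by have := len_pos hA; omega⟩
      rw [bw_new]
      simp only [len, hk, Nat.add_sub_cancel]
      rcases Nat.eq_zero_or_pos k with rfl | hk0
      · simp; ring
      · rw [if_pos (by omega), if_neg (by omega)]; ring
    · simp [bw_new, bw_of_not_ok hA]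
  conv_lhs => rw [tsum_fill (fun A => bw a b A * x ^ len A), e1]
  rw [← e2]
  simp only [bw_nil, len]
  ring

theorem tutte (α : ℝ) (h1 : 2 / 3 < α) (h2 : α < 1)
    (h : ENNReal.ofReal α + 2 * ∑' A, bw (ENNReal.ofReal α)
      (ENNReal.ofReal (α * (1 - α) / 2)) A ≤ 1) :
    ∑' A, bw (ENNReal.ofReal α) (ENNReal.ofReal (α * (1 - α) / 2)) A
      = ENNReal.ofReal ((1 - α) / 2) ∧
    ∑' A, bw (ENNReal.ofReal α) (ENNReal.ofReal (α * (1 - α) / 2)) A * len A
      = ENNReal.ofReal ((α - √(α * (3 * α - 2))) / 2) := by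
  set a := ENNReal.ofReal α with ha
  set b := ENNReal.ofReal (α * (1 - α) / 2) with hb
  have hα : 0 < α := by linarith
  have hβ : 0 ≤ α * (1 - α) / 2 := by have := sub_pos.2 h2; positivity
  have hF : ∑' A, bw a b A ≠ ∞ := by
    intro hh
    rw [hh] at h
    simp at h
  have hbw : ∀ A, bw a b A ≠ ∞ := fun A => ne_top_of_le_ne_top hF (ENNReal.le_tsum A)
  let c : Fill → ℝ := fun A => (bw a b A).toReal
  have hc0 : ∀ A, 0 ≤ c A := fun A => ENNReal.toReal_nonneg
  have hcs : Summable c := ENNReal.summable_toReal hF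
  have hc1 : ∀ A, len A = 0 → c A = 0 := by
    intro A hA
    have : ¬ ok A := fun h => by have := len_pos h; omega
    simp [c, bw_of_not_ok this]
  let f : ℝ → ℝ := fun x => ∑' A, c A * x ^ len A
  let b1 : ℝ := (∑' A, if len A = 1 then bw a b A else 0).toReal
  have hS : ∀ x ∈ Icc (0 : ℝ) 1, (∑' A, bw a b A * (ENNReal.ofReal x) ^ len A) ≠ ∞ := by
    intro x hx
    refine ne_top_of_le_ne_top hF (ENNReal.tsum_le_tsum fun A => ?_)
    have : (ENNReal.ofReal x) ^ len A ≤ 1 :=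
      pow_le_one₀ (by simp) (ENNReal.ofReal_le_one.2 hx.2)
    calc _ ≤ bw a b A * 1 := by gcongr
      _ = _ := mul_one _
  have hSf : ∀ x ∈ Icc (0 : ℝ) 1,
      (∑' A, bw a b A * (ENNReal.ofReal x) ^ len A).toReal = f x := by
    intro x hx
    rw [ENNReal.tsum_toReal_eq (fun A => ENNReal.mul_ne_top (hbw A) (by simp))]
    refine tsum_congr fun A => ?_
    simp [c, ENNReal.toReal_ofReal hx.1]
  have hb1 : (∑' A, if len A = 1 then bw a b A else 0) ≠ ∞ := by
    refine ne_top_of_le_ne_top hF (ENNReal.tsum_le_tsum fun A => ?_)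
    split_ifs <;> simp
  have hq : ∀ x ∈ Icc (0 : ℝ) 1, x * f x + α * x * b1 =
      α * (1 - α) / 2 * x ^ 2 + α * f x + x * (f x * f x) := by
    intro x hx
    have e := congrArg ENNReal.toReal (quad_enn a b (ENNReal.ofReal x))
    have hs := hS x hx
    rw [ENNReal.toReal_add (by finiteness) (by finiteness),
      ENNReal.toReal_add (by finiteness) (by finiteness),
      ENNReal.toReal_add (by finiteness) (by finiteness)] at e
    have ea : a.toReal = α := ENNReal.toReal_ofReal hα.le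
    have eb : b.toReal = α * (1 - α) / 2 := ENNReal.toReal_ofReal hβ
    simp only [ENNReal.toReal_mul, ENNReal.toReal_pow, hSf x hx, ea, eb,
      ENNReal.toReal_ofReal hx.1] at e
    exact e
  have hcont : ContinuousOn f (Icc 0 1) := by
    refine continuousOn_tsum (u := c) (fun A => by fun_prop) hcs ?_
    intro A x hx
    rw [Real.norm_eq_abs, abs_of_nonneg (mul_nonneg (hc0 A) (pow_nonneg hx.1 _))]
    exact mul_le_of_le_one_right (hc0 A) (pow_le_one₀ hx.1 hx.2)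
  have hf1 : f 1 = (∑' A, bw a b A).toReal := by
    rw [← hSf 1 ⟨zero_le_one, le_rfl⟩]; simp
  have hf1le : 2 * f 1 ≤ 1 - α := by
    have e := ENNReal.toReal_mono ENNReal.one_ne_top h
    rw [ENNReal.toReal_add (by finiteness) (by finiteness)] at e
    simp only [ENNReal.toReal_mul, ha, ENNReal.toReal_ofReal hα.le, ENNReal.toReal_one,
      ENNReal.toReal_ofNat] at e
    rw [hf1]; linarith
  let u : ℝ → ℝ := fun x => α - x + 2 * x * f x
  have hucont : ContinuousOn u (Icc 0 1) := by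
    simp only [u]
    fun_prop
  have hu2 : ∀ x ∈ Icc (0 : ℝ) 1, u x ^ 2 = (1 - x) ^ 2 * (α * (α - 2 * (1 - α) * x)) +
      (4 * α * b1 - (1 - α) * (3 * α - 1)) * x ^ 2 := by
    intro x hx
    have := hq x hx
    simp only [u]
    linear_combination (-4 * x) * this
  have hb1ge : 0 ≤ 4 * α * b1 - (1 - α) * (3 * α - 1) := by
    have := hu2 1 ⟨zero_le_one, le_rfl⟩
    nlinarith [sq_nonneg (u 1)]
  have hD : ∀ x ∈ Icc (0 : ℝ) 1, 0 < α * (α - 2 * (1 - α) * x) := by
    intro x hx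
    apply mul_pos hα
    nlinarith [hx.1, hx.2]
  have hupos : ∀ x ∈ Ico (0 : ℝ) 1, 0 < u x := by
    intro x hx
    by_contra hneg
    have hu0 : u 0 = α := by simp [u]
    have hmem : (0 : ℝ) ∈ Icc (u x) (u 0) := ⟨not_lt.1 hneg, by rw [hu0]; exact hα.le⟩
    obtain ⟨y, hy, hy0⟩ := intermediate_value_Icc' hx.1
      (hucont.mono (Icc_subset_Icc le_rfl hx.2.le)) hmem
    have hy1 : y < 1 := lt_of_le_of_lt hy.2 hx.2
    have e := hu2 y ⟨hy.1, hy1.le⟩
    have e2 := hD y ⟨hy.1, hy1.le⟩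
    have e3 : 0 < (1 - y) ^ 2 := by have := sub_pos.2 hy1; positivity
    rw [hy0] at e
    nlinarith [mul_pos e3 e2, mul_nonneg hb1ge (sq_nonneg y)]
  have hnb : (𝓝[Ico (0 : ℝ) 1] (1 : ℝ)).NeBot := by
    rw [← mem_closure_iff_nhdsWithin_neBot, closure_Ico (by norm_num)]
    exact ⟨zero_le_one, le_rfl⟩
  have hu1 : u 1 = 0 := by
    refine le_antisymm (by simp only [u]; linarith) ?_
    have ht : Tendsto u (𝓝[Ico (0 : ℝ) 1] 1) (𝓝 (u 1)) :=
      (hucont 1 ⟨zero_le_one, le_rfl⟩).mono Ico_subset_Icc_self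
    exact ge_of_tendsto ht (eventually_nhdsWithin_of_forall fun x hx => (hupos x hx).le)
  have hf1eq : f 1 = (1 - α) / 2 := by simp only [u] at hu1; linarith
  have hb1eq : 4 * α * b1 - (1 - α) * (3 * α - 1) = 0 := by
    have := hu2 1 ⟨zero_le_one, le_rfl⟩
    rw [hu1] at this
    nlinarith
  have hform : ∀ x ∈ Ico (0 : ℝ) 1, u x = (1 - x) * √(α * (α - 2 * (1 - α) * x)) := by
    intro x hx
    have hx' : x ∈ Icc (0 : ℝ) 1 := Ico_subset_Icc_self hx
    have e := hu2 x hx'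
    rw [hb1eq, zero_mul, add_zero] at e
    have e2 : (1 - x) * √(α * (α - 2 * (1 - α) * x)) = √(u x ^ 2) := by
      rw [e, Real.sqrt_mul (sq_nonneg _), Real.sqrt_sq (sub_pos.2 hx.2).le]
    rw [e2, Real.sqrt_sq (hupos x hx).le]
  have hA : ∑' A, bw a b A = ENNReal.ofReal ((1 - α) / 2) := by
    rw [← hf1eq, hf1, ENNReal.ofReal_toReal hF]
  refine ⟨hA, ?_⟩
  let G : ℝ → ℝ := fun x => (1 - √(α * (α - 2 * (1 - α) * x))) / 2
  have hGc : Tendsto G (𝓝[Ico (0 : ℝ) 1] 1) (𝓝 (G 1)) := by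
    have : Continuous G := by simp only [G]; fun_prop
    exact this.continuousAt.tendsto.mono_left nhdsWithin_le_nhds
  have hG : ∀ x ∈ Ico (0 : ℝ) 1,
      HasSum (fun A => c A * ∑ i ∈ Finset.range (len A + 1), x ^ i) (G x) := by
    intro x hx
    have hx1 : 0 < 1 - x := sub_pos.2 hx.2
    have s1 : HasSum c (f 1) := by simpa [f] using hcs.hasSum
    have s2 : HasSum (fun A => c A * x ^ len A) (f x) := by
      refine Summable.hasSum (Summable.of_nonneg_of_le
        (fun A => mul_nonneg (hc0 A) (pow_nonneg hx.1 _)) (fun A => ?_) hcs)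
      exact mul_le_of_le_one_right (hc0 A) (pow_le_one₀ hx.1 hx.2.le)
    have s3 := (s1.sub (s2.mul_left x)).div_const (1 - x)
    have e1 : (fun A => c A * ∑ i ∈ Finset.range (len A + 1), x ^ i) =
        fun A => (c A - x * (c A * x ^ len A)) / (1 - x) := by
      funext A
      rw [eq_div_iff hx1.ne', mul_assoc, geom_sum_mul_neg]
      ring
    have e2 : G x = (f 1 - x * f x) / (1 - x) := by
      have e := hform x hx
      simp only [u] at e
      simp only [G]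
      rw [eq_div_iff hx1.ne', hf1eq]
      linarith
    rw [e1, e2]
    exact s3
  have hup : ∀ s : Finset Fill, ∑ A ∈ s, c A * (len A + 1) ≤ G 1 := by
    intro s
    have hc : Continuous fun x : ℝ =>
        ∑ A ∈ s, c A * ∑ i ∈ Finset.range (len A + 1), x ^ i := by fun_prop
    have ht := hc.continuousAt.tendsto.mono_left
      (nhdsWithin_le_nhds (s := Ico (0 : ℝ) 1) (a := 1))
    have := le_of_tendsto_of_tendsto ht hGc (eventually_nhdsWithin_of_forall fun x hx =>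
      sum_le_hasSum s (fun A _ => mul_nonneg (hc0 A)
        (Finset.sum_nonneg fun i _ => pow_nonneg hx.1 _)) (hG x hx))
    simpa using this
  have hsum : Summable fun A => c A * ((len A : ℝ) + 1) :=
    summable_of_sum_le (fun A => mul_nonneg (hc0 A) (by positivity)) hup
  have htot : ∑' A, c A * ((len A : ℝ) + 1) = G 1 := by
    refine le_antisymm (hsum.tsum_le_of_sum_le hup) ?_
    refine le_of_tendsto hGc (eventually_nhdsWithin_of_forall fun x hx => ?_)
    refine hasSum_le (fun A => ?_) (hG x hx) hsum.hasSum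
    refine mul_le_mul_of_nonneg_left ?_ (hc0 A)
    calc ∑ i ∈ Finset.range (len A + 1), x ^ i ≤ ∑ i ∈ Finset.range (len A + 1), (1 : ℝ) :=
          Finset.sum_le_sum fun i _ => pow_le_one₀ hx.1 hx.2.le
      _ = _ := by simp
  have s4 : HasSum (fun A => c A * (len A : ℝ)) (G 1 - f 1) := by
    have s1 : HasSum c (f 1) := by simpa [f] using hcs.hasSum
    have := (htot ▸ hsum.hasSum).sub s1
    have e1 : (fun A => c A * (len A : ℝ)) = fun A => c A * ((len A : ℝ) + 1) - c A := by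
      funext A; ring
    rw [e1]
    exact this
  have e5 : G 1 - f 1 = (α - √(α * (3 * α - 2))) / 2 := by
    simp only [G, hf1eq]
    rw [show α - 2 * (1 - α) * 1 = 3 * α - 2 by ring]
    ring
  rw [← e5, ← s4.tsum_eq, ENNReal.ofReal_tsum_of_nonneg
    (fun A => mul_nonneg (hc0 A) (by positivity)) s4.summable]
  refine tsum_congr fun A => ?_
  rw [ENNReal.ofReal_mul (hc0 A), ENNReal.ofReal_toReal (hbw A), ENNReal.ofReal_natCast]

end Fill

end Pool.Agent.MP_7a2e76_pr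

end

-- part MP_7a2e76_pr.Law
section

/-! The peeling law: probabilities of explored states, derived from the formula for discs. -/

namespace Pool.Agent.MP_7a2e76_pr

open Set MeasureTheory Filter Topology
open scoped ENNReal
open St

noncomputable def pa (α : ℝ) : ℝ≥0∞ := ENNReal.ofReal α
noncomputable def pb (α : ℝ) : ℝ≥0∞ := ENNReal.ofReal (α * (1 - α) / 2)

structure Ctx (α : ℝ) (μ : Measure HalfPlane) : Prop where
  h1 : 2 / 3 < α
  h2 : α < 1
  prob : IsProbabilityMeasure μ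
  law : IsLaw α μ

variable {α : ℝ} {μ : Measure HalfPlane} {s : St}

theorem Ctx.disc_lower (c : Ctx α μ) (hs : Reach s) {p q : ℤ} (h : DL s p q) :
    s.w (pa α) (pb α) ≤ μ s.R := by
  obtain ⟨a0, b0, k, m, bb, hb⟩ := exists_bdy hs.inv h
  have e := c.law _ _ (QT hs h) m bb k a0 (hb.isDisc hs) hb.km.1 hb.km.2
  rw [hb.vcard hs, faces_card] at e
  refine le_trans (le_of_eq ?_) (measure_mono (s := {H | IsSub (QT hs h) bb k a0 H})
    fun H hH => hb.rl hs hH)
  have hα : 0 ≤ α := by linarith [c.h1]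
  have hβ : 0 ≤ α * (1 - α) / 2 := by have := sub_pos.2 c.h2; positivity
  rw [e, show ((s.A.card + s.B.card : ℕ) : ℤ) - (s.A.card : ℕ) = (s.B.card : ℕ) by
    push_cast; ring, zpow_natCast, ENNReal.ofReal_mul (by positivity),
    ENNReal.ofReal_pow hα, ENNReal.ofReal_pow hβ]
  rfl

open Classical in
noncomputable def St.TS (s : St) (j : ℤ) (σ : Step) : Set HalfPlane :=
  if σ.ok then (s.stp j σ).R else ∅

theorem meas_TS (s : St) (j : ℤ) (σ : Step) : MeasurableSet (s.TS j σ) := by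
  unfold St.TS
  split_ifs
  exacts [meas_R _, MeasurableSet.empty]

theorem mem_TS {j : ℤ} {σ : Step} {H : HalfPlane} :
    H ∈ s.TS j σ ↔ σ.ok ∧ Rl (s.stp j σ) H := by
  unfold St.TS
  split_ifs with h <;> simp [h, St.R]

theorem disj_TS (hs : Reach s) (j : ℤ) : Pairwise (Function.onFun Disjoint (s.TS j)) := by
  intro σ σ' hne
  rw [Function.onFun, disjoint_left]
  intro H h h'
  rw [mem_TS] at h h'
  exact hne (step_unique hs j h.1 h'.1 h.2 h'.2)

theorem TS_sub (hs : Reach s) (j : ℤ) : ⋃ σ, s.TS j σ ⊆ s.R := by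
  intro H hH
  obtain ⟨σ, h⟩ := mem_iUnion.1 hH
  rw [mem_TS] at h
  exact h.2.mono (ext_stp hs j h.1)

theorem sum_TS_le (hs : Reach s) (j : ℤ) : ∑' σ, μ (s.TS j σ) ≤ μ s.R := by
  rw [← measure_iUnion (disj_TS hs j) (meas_TS s j)]
  exact measure_mono (TS_sub hs j)

theorem lower_of_steps (hs : Reach s) (j : ℤ) (a b : ℝ≥0∞) (c : Step → ℝ≥0∞)
    (h : ∀ σ, σ.ok → (s.stp j σ).w a b * c σ ≤ μ (s.stp j σ).R) :
    s.w a b * ∑' σ, σ.w a b * c σ ≤ μ s.R := by
  refine le_trans ?_ (sum_TS_le hs j)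
  rw [← ENNReal.tsum_mul_left]
  refine ENNReal.tsum_le_tsum fun σ => ?_
  by_cases hσ : σ.ok
  · have := h σ hσ
    rw [w_stp a b hs j hσ] at this
    simpa [St.TS, hσ, mul_assoc] using this
  · simp [Step.w_of_not_ok hσ]

def PW (s : St) (p q : ℤ) : Prop := ∀ j, (j < p ∨ q ≤ j) → (s.es j).isO

def cset (s : St) (p q : ℤ) : Set ℤ := {i | p < i ∧ i < q ∧ (s.vs i).isO}

theorem cset_fin (s : St) (p q : ℤ) : (cset s p q).Finite :=
  (finite_Ioo p q).subset fun _ h => ⟨h.1, h.2.1⟩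

theorem dl_of_cnt (hi : Inv s) {p q : ℤ} (h : PW s p q) (hn : ∃ j, ¬ (s.es j).isO)
    (hc : (cset s p q).ncard = 0) : DL s p q := by
  rw [ncard_eq_zero (cset_fin s p q)] at hc
  have hv : ∀ j, p < j → j < q → ¬ (s.vs j).isO := fun j h1 h2 h3 => by
    have : j ∈ cset s p q := ⟨h1, h2, h3⟩
    rw [hc] at this; exact this
  obtain ⟨j0, hj0⟩ := hn
  have hj : ¬ (j0 < p ∨ q ≤ j0) := fun k => hj0 (h j0 k)
  refine ⟨by omega, fun j => ⟨fun hO => ?_, h j⟩, hv⟩
  by_contra hh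
  by_cases h1 : p < j
  · exact lft_nO (hv j h1 (by omega)) hO
  · by_cases h2 : j + 1 < q
    · exact hi.rgt_nO (by rw [hi.rgtes]; exact hv _ (by omega) h2) hO
    · exact hj0 (by rw [show j0 = j by omega]; exact hO)

theorem win_sw {s' : St} {p q j p0 : ℤ} {k a b : ℕ} (h : PW s p q) (hp : p ≤ j) (hq : j < q)
    (w : Sw s s' p0 k a b) (h1 : p0 ≤ j) (h2 : j ≤ p0 + k) :
    ∃ p' q', PW s' p' q' ∧ (∃ j, ¬ (s'.es j).isO) ∧
      (cset s' p' q').ncard ≤ (cset s p q \ Ioc p0 (p0 + k)).ncard := by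
  refine ⟨min p p0, max (p0 + 1) (q - k), ?_, ⟨p0, w.top⟩, ?_⟩
  · intro i hi
    rcases hi with hi | hi
    · rw [w.lo i (by omega)]; exact h i (by omega)
    · rw [w.hi i (by omega)]; exact h _ (by omega)
  · refine ncard_le_ncard_of_injOn (fun i => if i ≤ p0 then i else i + k) ?_ ?_
      ((cset_fin s p q).subset sdiff_subset)
    · rintro i ⟨a1, a2, a3⟩
      rw [w.vs] at a3
      split_ifs at a3 ⊢ with h3
      · exact ⟨⟨by omega, by omega, a3⟩, fun k => by have := k.1; omega⟩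
      · exact ⟨⟨by omega, by omega, a3⟩, fun k => by have := k.2; omega⟩
    · intro i _ i' _ hh
      simp only at hh
      split_ifs at hh <;> omega

theorem win_step (hs : Reach s) {p q j : ℤ} (h : PW s p q) (hp : p ≤ j) (hq : j < q)
    {σ : Step} (hσ : σ.ok) :
    ∃ p' q', PW (s.stp j σ) p' q' ∧ (∃ i, ¬ ((s.stp j σ).es i).isO) ∧
      (cset (s.stp j σ) p' q').ncard ≤ (cset s p q).ncard ∧
      (σ.isL → j ∈ cset s p q → (cset (s.stp j σ) p' q').ncard < (cset s p q).ncard) := by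
  cases σ with
  | new =>
    refine ⟨p, q + 1, ?_, ⟨j, ?_⟩, ?_, fun k => absurd k id⟩
    · intro i hi
      change ((s.mvA j).es i).isO
      rw [mvA_es]
      split_ifs <;> first | omega | exact h _ (by omega)
    · change ¬ ((s.mvA j).es j).isO
      rw [mvA_es, if_neg (lt_irrefl _), if_pos rfl]; exact id
    · refine ncard_le_ncard_of_injOn (fun i => if i ≤ j then i else i - 1) ?_ ?_
        (cset_fin s p q)
      · rintro i ⟨a1, a2, a3⟩
        change ((s.mvA j).vs i).isO at a3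
        rw [mvA_vs] at a3
        split_ifs at a3 ⊢ with h3 h4
        · exact ⟨by omega, by omega, a3⟩
        · exact absurd a3 id
        · exact ⟨by omega, by omega, a3⟩
      · rintro i ⟨_, _, a3⟩ i' ⟨_, _, a3'⟩ hh
        change ((s.mvA j).vs i).isO at a3
        change ((s.mvA j).vs i').isO at a3'
        rw [mvA_vs] at a3 a3'
        simp only at hh
        split_ifs at hh a3 a3' <;> first | omega | exact absurd a3 id | exact absurd a3' id
  | right A =>
    obtain ⟨p', q', a1, a2, a3⟩ := win_sw h hp hq (sw_right hs j hσ) le_rfl (by omega)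
    exact ⟨p', q', a1, a2, a3.trans (ncard_le_ncard sdiff_subset (cset_fin s p q)),
      fun k => absurd k id⟩
  | left A =>
    obtain ⟨p', q', a1, a2, a3⟩ := win_sw h hp hq (sw_left hs j hσ) (by omega) (by omega)
    refine ⟨p', q', a1, a2, a3.trans (ncard_le_ncard sdiff_subset (cset_fin s p q)),
      fun _ hj => a3.trans_lt (ncard_lt_ncard ⟨sdiff_subset, fun k => (k hj).2 ?_⟩
        (cset_fin s p q))⟩
    have := Fill.len_pos hσ
    exact ⟨by omega, by omega⟩

theorem w_init (a b : ℝ≥0∞) : St.init.w a b = 1 := by simp [St.w, St.init]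

theorem Ctx.tutte (c : Ctx α μ) :
    ∑' A, Fill.bw (pa α) (pb α) A = ENNReal.ofReal ((1 - α) / 2) ∧
    ∑' A, Fill.bw (pa α) (pb α) A * A.len
      = ENNReal.ofReal ((α - √(α * (3 * α - 2))) / 2) := by
  refine Fill.tutte α c.h1 c.h2 ?_
  have := c.prob
  have h := lower_of_steps (μ := μ) Reach.init 0 (pa α) (pb α) (fun _ => 1) (by
    intro σ hσ
    rw [mul_one]
    obtain ⟨p', q', a1, a2, a3, _⟩ := win_step (p := 0) (q := 1) (j := 0) Reach.init
      (fun _ _ => trivial) le_rfl (by omega) hσ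
    have e : cset St.init 0 1 = ∅ := by
      ext i; simp only [cset, mem_ofPred_eq, mem_empty_iff_false, iff_false]; omega
    rw [e, ncard_empty] at a3
    exact c.disc_lower (reach_stp Reach.init 0 hσ)
      (dl_of_cnt (reach_stp Reach.init 0 hσ).inv a1 a2 (by omega)))
  rw [w_init, one_mul, Step.tsum_step] at h
  simp only [Step.w, mul_one] at h
  refine le_trans (le_of_eq ?_) (h.trans prob_le_one)
  rw [two_mul, add_assoc]; rfl

/-- probability of a left swallow -/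
noncomputable def ph (α : ℝ) : ℝ≥0∞ := ENNReal.ofReal ((1 - α) / 2)

theorem Ctx.sum_one (c : Ctx α μ) : pa α + ph α + ph α = 1 := by
  have h1 := c.h1
  have h2 := c.h2
  rw [pa, ph, ← ENNReal.ofReal_add (by linarith) (by linarith),
    ← ENNReal.ofReal_add (by linarith) (by linarith), ← ENNReal.ofReal_one]
  congr 1; ring

theorem Ctx.ph_pos (c : Ctx α μ) : 0 < ph α := by
  have h2 := c.h2
  rw [ph, ENNReal.ofReal_pos]; linarith

def Step.cas {X : Type} (x : X) (y z : Fill → X) : Step → X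
  | .new => x
  | .right A => y A
  | .left A => z A

theorem tsum_cas (a b x : ℝ≥0∞) (y z : Fill → ℝ≥0∞) :
    ∑' σ : Step, σ.w a b * Step.cas x y z σ =
      a * x + ∑' A, A.bw a b * y A + ∑' A, A.bw a b * z A := by
  rw [Step.tsum_step]; rfl

theorem Ctx.tsum_cases (c : Ctx α μ) (x y z : ℝ≥0∞) :
    ∑' σ : Step, σ.w (pa α) (pb α) * Step.cas x (fun _ => y) (fun _ => z) σ
      = pa α * x + ph α * y + ph α * z := by
  rw [tsum_cas]
  simp only [ENNReal.tsum_mul_right, c.tutte.1, ph]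

theorem Ctx.tsum_w (c : Ctx α μ) : ∑' σ : Step, σ.w (pa α) (pb α) = 1 := by
  rw [Step.tsum_step]
  simp only [Step.w, c.tutte.1]
  exact c.sum_one

theorem Ctx.geom (c : Ctx α μ) : Tendsto (fun n : ℕ => (pa α + ph α) ^ n) atTop (𝓝 0) := by
  refine ENNReal.tendsto_pow_atTop_nhds_zero_of_lt_one ?_
  rw [← c.sum_one]
  refine ENNReal.lt_add_right ?_ c.ph_pos.ne'
  exact ne_top_of_le_ne_top ENNReal.one_ne_top (c.sum_one ▸ le_self_add)

theorem Ctx.lower_win (c : Ctx α μ) (r : ℕ) : ∀ (s : St) (p q : ℤ), Reach s → PW s p q →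
    (∃ i, ¬ (s.es i).isO) → (cset s p q).ncard ≤ r → s.w (pa α) (pb α) ≤ μ s.R := by
  induction r with
  | zero =>
    intro s p q hs h1 h2 h3
    exact c.disc_lower hs (dl_of_cnt hs.inv h1 h2 (by omega))
  | succ r ih =>
    have key : ∀ T : ℕ, ∀ (s : St) (p q : ℤ), Reach s → PW s p q →
        (∃ i, ¬ (s.es i).isO) → (cset s p q).ncard ≤ r + 1 →
        s.w (pa α) (pb α) * (1 - (pa α + ph α) ^ T) ≤ μ s.R := by
      intro T
      induction T with
      | zero => intro s p q _ _ _ _; simp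
      | succ T ihT =>
        intro s p q hs h1 h2 h3
        by_cases h4 : (cset s p q).ncard ≤ r
        · exact le_trans (mul_le_of_le_one_right' tsub_le_self) (ih s p q hs h1 h2 h4)
        · obtain ⟨j, hj⟩ := nonempty_of_ncard_ne_zero (s := cset s p q) (by omega)
          refine le_trans ?_ (lower_of_steps hs j (pa α) (pb α) (Step.cas (1 - (pa α + ph α) ^ T)
            (fun _ => 1 - (pa α + ph α) ^ T) (fun _ => 1)) ?_)
          · rw [c.tsum_cases]
            refine mul_le_mul_right ?_ _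
            rw [tsub_le_iff_right, ← add_mul, pow_succ', mul_one, add_right_comm, ← mul_add]
            refine le_trans (le_of_eq c.sum_one.symm) (add_le_add ?_ le_rfl)
            exact le_mul_of_one_le_right' le_tsub_add
          · intro σ hσ
            obtain ⟨p', q', a1, a2, a3, a4⟩ := win_step hs h1 hj.1.le hj.2.1 hσ
            have hr := reach_stp hs j hσ
            cases σ with
            | new => exact ihT _ p' q' hr a1 a2 (by omega)
            | right A => exact ihT _ p' q' hr a1 a2 (by omega)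
            | left A =>
              have := a4 trivial hj
              simpa [Step.cas] using ih _ p' q' hr a1 a2 (by omega)
    intro s p q hs h1 h2 h3
    have hw : s.w (pa α) (pb α) ≠ ∞ := by
      simp only [St.w, pa, pb]; finiteness
    have ht : Tendsto (fun T : ℕ => s.w (pa α) (pb α) * (1 - (pa α + ph α) ^ T)) atTop
        (𝓝 (s.w (pa α) (pb α) * (1 - 0))) :=
      ENNReal.Tendsto.const_mul (ENNReal.Tendsto.sub tendsto_const_nhds c.geom
        (Or.inl ENNReal.one_ne_top)) (Or.inr hw)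
    simpa using le_of_tendsto' ht fun T => key T s p q hs h1 h2 h3

theorem Ctx.lower (c : Ctx α μ) (hs : Reach s) : s.w (pa α) (pb α) ≤ μ s.R := by
  obtain ⟨p, q, hpq⟩ := hs.inv.fin
  have h := lower_of_steps (μ := μ) hs p (pa α) (pb α) (fun _ => 1) (by
    intro σ hσ
    rw [mul_one]
    obtain ⟨p', q', a1, a2, _⟩ := win_step (p := p) (q := max q (p + 1)) (j := p) hs
      (fun j hj => hpq j (by omega)) le_rfl (by omega) hσ
    exact c.lower_win _ _ p' q' (reach_stp hs p hσ) a1 a2 le_rfl)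
  simpa [c.tsum_w] using h

/-- states whose probability is exactly the weight -/
structure Good (α : ℝ) (μ : Measure HalfPlane) (s : St) : Prop where
  reach : Reach s
  le : μ s.R ≤ s.w (pa α) (pb α)

theorem Ctx.good_init (c : Ctx α μ) : Good α μ St.init :=
  ⟨Reach.init, by have := c.prob; rw [w_init]; exact prob_le_one⟩

theorem Ctx.TS_lower (c : Ctx α μ) (hs : Reach s) (j : ℤ) (σ : Step) :
    s.w (pa α) (pb α) * σ.w (pa α) (pb α) ≤ μ (s.TS j σ) := by
  by_cases hσ : σ.ok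
  · rw [← w_stp _ _ hs j hσ]
    simpa [St.TS, hσ] using c.lower (reach_stp hs j hσ)
  · simp [Step.w_of_not_ok hσ]

theorem Ctx.good_step (c : Ctx α μ) (g : Good α μ s) (j : ℤ) {σ : Step} (hσ : σ.ok) :
    Good α μ (s.stp j σ) := by
  classical
  have := c.prob
  refine ⟨reach_stp g.reach j hσ, ?_⟩
  rw [w_stp _ _ g.reach j hσ]
  have h1 : ∑' σ, μ (s.TS j σ) ≤ ∑' σ : Step, s.w (pa α) (pb α) * σ.w (pa α) (pb α) := by
    rw [ENNReal.tsum_mul_left, c.tsum_w, mul_one]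
    exact (sum_TS_le g.reach j).trans g.le
  rw [ENNReal.tsum_eq_add_tsum_ite σ, ENNReal.tsum_eq_add_tsum_ite (f := fun σ =>
    s.w (pa α) (pb α) * σ.w (pa α) (pb α)) σ] at h1
  have h2 : (∑' σ' : Step, if σ' = σ then 0 else s.w (pa α) (pb α) * σ'.w (pa α) (pb α)) ≤
      ∑' σ' : Step, if σ' = σ then 0 else μ (s.TS j σ') := by
    refine ENNReal.tsum_le_tsum fun σ' => ?_
    split_ifs
    exacts [le_rfl, c.TS_lower g.reach j σ']
  have h3 : (∑' σ' : Step, if σ' = σ then 0 else μ (s.TS j σ')) ≠ ∞ := by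
    refine ne_top_of_le_ne_top (measure_ne_top μ s.R) (le_trans ?_ (sum_TS_le g.reach j))
    refine ENNReal.tsum_le_tsum fun σ' => ?_
    split_ifs <;> simp
  have h4 := (ENNReal.add_le_add_iff_right h3).1 (h1.trans (add_le_add le_rfl h2))
  simpa [St.TS, hσ] using h4

theorem Ctx.cover (c : Ctx α μ) (g : Good α μ s) (j : ℤ) :
    μ (s.R \ ⋃ σ, s.TS j σ) = 0 := by
  have := c.prob
  rw [measure_sdiff (TS_sub g.reach j)
    (MeasurableSet.iUnion (meas_TS s j)).nullMeasurableSet (measure_ne_top _ _),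
    tsub_eq_zero_iff_le, measure_iUnion (disj_TS g.reach j) (meas_TS s j)]
  refine g.le.trans (le_trans ?_ (ENNReal.tsum_le_tsum (c.TS_lower g.reach j)))
  rw [ENNReal.tsum_mul_left, c.tsum_w, mul_one]

end Pool.Agent.MP_7a2e76_pr

end

-- part MP_7a2e76_pr.Bd
section

/-! Conditional upper expectations given an explored state, and the loop rule. -/

namespace Pool.Agent.MP_7a2e76_pr

open Set MeasureTheory Filter Topology
open scoped ENNReal
open St

def Bd (α : ℝ) (μ : Measure HalfPlane) (s : St) (F : HalfPlane → ℝ≥0∞) (b : ℝ≥0∞) : Prop :=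
  ∃ G : HalfPlane → ℝ≥0∞, Measurable G ∧ (∀ H, Rl s H → F H ≤ G H) ∧
    ∫⁻ H in s.R, G H ∂μ ≤ s.w (pa α) (pb α) * b

variable {α : ℝ} {μ : Measure HalfPlane} {s : St} {F F' : HalfPlane → ℝ≥0∞} {b b' : ℝ≥0∞}

theorem w_ne_top (s : St) : s.w (pa α) (pb α) ≠ ∞ := by
  simp only [St.w, pa, pb]; finiteness

theorem Bd.mono (h : Bd α μ s F b) (hF : ∀ H, Rl s H → F' H ≤ F H) (hb : b ≤ b') :
    Bd α μ s F' b' := by
  obtain ⟨G, h1, h2, h3⟩ := h
  exact ⟨G, h1, fun H hH => (hF H hH).trans (h2 H hH), h3.trans (by gcongr)⟩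

theorem Bd.le (h : Bd α μ s F b) (hb : b ≤ b') : Bd α μ s F b' :=
  h.mono (fun _ _ => le_rfl) hb

theorem Bd.const (g : Good α μ s) (h : ∀ H, Rl s H → F H ≤ b) : Bd α μ s F b := by
  refine ⟨fun _ => b, measurable_const, h, ?_⟩
  rw [setLIntegral_const, mul_comm]
  exact mul_le_mul_left g.le b

theorem Bd.add (h : Bd α μ s F b) (h' : Bd α μ s F' b') :
    Bd α μ s (fun H => F H + F' H) (b + b') := by
  obtain ⟨G, h1, h2, h3⟩ := h
  obtain ⟨G', h1', h2', h3'⟩ := h'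
  refine ⟨fun H => G H + G' H, h1.add h1', fun H hH => add_le_add (h2 H hH) (h2' H hH), ?_⟩
  rw [lintegral_add_left h1, mul_add]
  exact add_le_add h3 h3'

theorem Bd.smul (c : ℝ≥0∞) (h : Bd α μ s F b) : Bd α μ s (fun H => c * F H) (c * b) := by
  obtain ⟨G, h1, h2, h3⟩ := h
  refine ⟨fun H => c * G H, h1.const_mul c, fun H hH => mul_le_mul_right (h2 H hH) c, ?_⟩
  rw [lintegral_const_mul c h1, mul_left_comm]
  gcongr

theorem Bd.sum {ι : Type} (g : Good α μ s) (t : Finset ι) (F : ι → HalfPlane → ℝ≥0∞)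
    (b : ι → ℝ≥0∞) (h : ∀ i ∈ t, Bd α μ s (F i) (b i)) :
    Bd α μ s (fun H => ∑ i ∈ t, F i H) (∑ i ∈ t, b i) := by
  classical
  induction t using Finset.induction_on with
  | empty => exact Bd.const g fun H _ => by simp
  | insert i t hi ih =>
    simp only [Finset.sum_insert hi]
    exact (h i (Finset.mem_insert_self _ _)).add
      (ih fun j hj => h j (Finset.mem_insert_of_mem hj))

theorem Bd.step (c : Ctx α μ) (g : Good α μ s) (j : ℤ) (b : Step → ℝ≥0∞)
    (h : ∀ σ, σ.ok → Bd α μ (s.stp j σ) F (b σ)) :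
    Bd α μ s F (∑' σ, σ.w (pa α) (pb α) * b σ) := by
  classical
  have h' : ∀ σ : Step, ∃ G : HalfPlane → ℝ≥0∞, Measurable G ∧
      (∀ H ∈ s.TS j σ, F H ≤ G H) ∧
      ∫⁻ H in s.TS j σ, G H ∂μ ≤ s.w (pa α) (pb α) * (σ.w (pa α) (pb α) * b σ) := by
    intro σ
    by_cases hσ : σ.ok
    · obtain ⟨G, h1, h2, h3⟩ := h σ hσ
      refine ⟨G, h1, fun H hH => h2 H (mem_TS.1 hH).2, ?_⟩
      rw [w_stp _ _ g.reach j hσ, mul_assoc] at h3
      simpa [St.TS, hσ] using h3
    · exact ⟨fun _ => 0, measurable_const, fun H hH => absurd (mem_TS.1 hH).1 hσ, by simp⟩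
  choose G h1 h2 h3 using h'
  have hU : MeasurableSet (⋃ σ, s.TS j σ) := MeasurableSet.iUnion (meas_TS s j)
  refine ⟨fun H => (∑' σ, (s.TS j σ).indicator (G σ) H) +
    (⋃ σ, s.TS j σ)ᶜ.indicator (fun _ => ∞) H, ?_, ?_, ?_⟩
  · exact (Measurable.tsum fun σ => (h1 σ).indicator (meas_TS s j σ)).add
      (measurable_const.indicator hU.compl)
  · intro H _
    by_cases hH : H ∈ ⋃ σ, s.TS j σ
    · obtain ⟨σ, hσ⟩ := mem_iUnion.1 hH
      refine le_trans ?_ le_self_add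
      refine le_trans ?_ (ENNReal.le_tsum σ)
      rw [indicator_of_mem hσ]; exact h2 σ H hσ
    · simp only
      rw [indicator_of_mem (show H ∈ (⋃ σ, s.TS j σ)ᶜ from hH)]; simp
  · rw [lintegral_add_right _ (measurable_const.indicator hU.compl),
      lintegral_indicator hU.compl, Measure.restrict_restrict hU.compl,
      setLIntegral_measure_zero ((⋃ σ, s.TS j σ)ᶜ ∩ s.R) _
        (by rw [inter_comm]; exact c.cover g j), add_zero,
      lintegral_tsum fun σ => ((h1 σ).indicator (meas_TS s j σ)).aemeasurable,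
      ← ENNReal.tsum_mul_left]
    refine ENNReal.tsum_le_tsum fun σ => le_trans ?_ (h3 σ)
    rw [lintegral_indicator (meas_TS s j σ), Measure.restrict_restrict (meas_TS s j σ)]
    exact lintegral_mono_set inter_subset_left

theorem Bd.lim {c : ℕ → ℝ≥0∞} (h : ∀ n, Bd α μ s F (c n)) (hc : Tendsto c atTop (𝓝 b)) :
    Bd α μ s F b := by
  choose G h1 h2 h3 using h
  refine ⟨fun H => ⨅ n, G n H, Measurable.iInf h1, fun H hH => le_iInf fun n => h2 n H hH, ?_⟩
  refine ge_of_tendsto' (ENNReal.Tendsto.const_mul hc (Or.inr (w_ne_top s))) fun n => ?_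
  exact le_trans (lintegral_mono fun H => iInf_le _ n) (h3 n)

theorem Bd.sup (h : ∀ n : ℕ, Bd α μ s (fun H => min (F H) n) b) : Bd α μ s F b := by
  choose G h1 h2 h3 using h
  refine ⟨fun H => liminf (fun n => G n H) atTop, Measurable.liminf h1, fun H hH => ?_, ?_⟩
  · have ht : Tendsto (fun n : ℕ => min (F H) (n : ℝ≥0∞)) atTop (𝓝 (min (F H) ∞)) :=
      tendsto_const_nhds.min ENNReal.tendsto_nat_nhds_top
    rw [min_eq_left le_top] at ht
    rw [← ht.liminf_eq]
    exact liminf_le_liminf (Eventually.of_forall fun n => h2 n H hH)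
  · refine le_trans (lintegral_liminf_le h1) ?_
    exact liminf_le_of_frequently_le' (Frequently.of_forall h3)

theorem Bd.loop0 (c : Ctx α μ) {X : Type} (st : X → St) (rk : X → ℕ) (Ψ : X → ℝ≥0∞)
    (P : X → Prop) (hP : ∀ x, P x → Good α μ (st x)) (C : ℕ) (hC : ∀ H, F H ≤ C)
    (h : ∀ x, P x → Bd α μ (st x) F (Ψ x) ∨ ∃ (j : ℤ) (Φ : Step → ℝ≥0∞),
      (∀ σ, σ.ok → Bd α μ ((st x).stp j σ) F (Φ σ) ∨ ∃ x', P x' ∧ st x' = (st x).stp j σ ∧
        rk x' ≤ rk x ∧ (σ.isL → rk x' < rk x) ∧ Ψ x' ≤ Φ σ) ∧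
      ∑' σ, σ.w (pa α) (pb α) * Φ σ ≤ Ψ x) :
    ∀ x, P x → Bd α μ (st x) F (Ψ x) := by
  have main : ∀ r, ∀ x, rk x < r → P x → Bd α μ (st x) F (Ψ x) := by
    intro r
    induction r with
    | zero => intro x hx; omega
    | succ r ih =>
      have key : ∀ T : ℕ, ∀ x, rk x < r + 1 → P x →
          Bd α μ (st x) F (Ψ x + C * (pa α + ph α) ^ T) := by
        intro T
        induction T with
        | zero =>
          intro x _ hx
          exact Bd.const (hP x hx) fun H _ => (hC H).trans (by simp)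
        | succ T ihT =>
          intro x hr hx
          rcases h x hx with h0 | ⟨j, Φ, h1, h2⟩
          · exact h0.le le_self_add
          · refine (Bd.step c (hP x hx) j (fun σ => Φ σ + Step.cas (C * (pa α + ph α) ^ T)
              (fun _ => C * (pa α + ph α) ^ T) (fun _ => 0) σ) ?_).le ?_
            · intro σ hσ
              rcases h1 σ hσ with h3 | ⟨x', a1, a2, a3, a4, a5⟩
              · exact h3.le le_self_add
              · rw [← a2]
                cases σ with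
                | new => exact (ihT x' (by omega) a1).le (add_le_add a5 le_rfl)
                | right A => exact (ihT x' (by omega) a1).le (add_le_add a5 le_rfl)
                | left A =>
                  have := a4 trivial
                  exact (ih x' (by omega) a1).le (a5.trans le_self_add)
            · simp only [mul_add]
              rw [ENNReal.tsum_add, c.tsum_cases]
              refine add_le_add h2 (le_of_eq ?_)
              ring
      intro x hr hx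
      refine Bd.lim (fun T => key T x hr hx) ?_
      have := (ENNReal.Tendsto.const_mul (a := (C : ℝ≥0∞)) c.geom (Or.inr (by simp))).const_add
        (Ψ x)
      simpa using this
  exact fun x hx => main (rk x + 1) x (by omega) hx

theorem Bd.loop (c : Ctx α μ) {X : Type} (st : X → St) (rk : X → ℕ) (Ψ : X → ℝ≥0∞)
    (P : X → Prop) (hP : ∀ x, P x → Good α μ (st x))
    (h : ∀ x, P x → Bd α μ (st x) F (Ψ x) ∨ ∃ (j : ℤ) (Φ : Step → ℝ≥0∞),
      (∀ σ, σ.ok → Bd α μ ((st x).stp j σ) F (Φ σ) ∨ ∃ x', P x' ∧ st x' = (st x).stp j σ ∧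
        rk x' ≤ rk x ∧ (σ.isL → rk x' < rk x) ∧ Ψ x' ≤ Φ σ) ∧
      ∑' σ, σ.w (pa α) (pb α) * Φ σ ≤ Ψ x) :
    ∀ x, P x → Bd α μ (st x) F (Ψ x) := by
  intro x hx
  refine Bd.sup fun n => Bd.loop0 c st rk Ψ P hP n (fun H => min_le_right _ _) ?_ x hx
  intro x hx
  rcases h x hx with h0 | ⟨j, Φ, h1, h2⟩
  · exact Or.inl (h0.mono (fun _ _ => min_le_left _ _) le_rfl)
  · exact Or.inr ⟨j, Φ, fun σ hσ => (h1 σ hσ).imp
      (fun k => k.mono (fun _ _ => min_le_left _ _) le_rfl) id, h2⟩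

theorem Bd.init (h : Bd α μ St.init F b) : ∫⁻ H, F H ∂μ ≤ b := by
  obtain ⟨G, _, h2, h3⟩ := h
  rw [R_init, Measure.restrict_univ, w_init, one_mul] at h3
  exact le_trans (lintegral_mono fun H => h2 H (rl_init H)) h3

end Pool.Agent.MP_7a2e76_pr

end

-- part MP_7a2e76_pr.Loc
section

/-! A uniform description of the local effect of one peeling step. -/

namespace Pool.Agent.MP_7a2e76_pr

open Set

namespace St

/-- the closed segment `[p,q]` of `s` is replaced by the segment `[p,q']` of `s'` -/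
structure Loc (s s' : St) (p q q' : ℤ) : Prop where
  inv : Inv s
  inv' : Inv s'
  ext : Ext s s'
  pq : p < q
  pq' : p < q'
  lo : ∀ i < p, s'.es i = s.es i
  hi : ∀ i, q' ≤ i → s'.es i = s.es (i + q - q')
  vp : s'.vs p = s.vs p
  mid : ∀ i, p < i → i < q' → ¬ s.isV (s'.vs i)
  new : NewIn s s' (s.vs '' Icc p q)

variable {s s' : St} {p q q' : ℤ}

theorem Loc.vlo (h : Loc s s' p q q') {i : ℤ} (hi : i ≤ p) : s'.vs i = s.vs i := by
  rcases hi.lt_or_eq with hi | rfl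
  · simp only [vs, h.lo i hi]
  · exact h.vp

theorem Loc.vhi (h : Loc s s' p q q') {i : ℤ} (hi : q' ≤ i) : s'.vs i = s.vs (i + q - q') := by
  simp only [vs, h.hi i hi]

theorem loc_new (hs : Reach s) (j : ℤ) : Loc s (s.stp j .new) j (j + 1) (j + 2) := by
  refine ⟨hs.inv, hs.inv.mvA j, ext_mvA hs.inv j, by omega, by omega, ?_, ?_, ?_, ?_,
    newIn_mvA hs.inv j⟩
  · intro i hi; exact (mvA_es j i).trans (if_pos hi)
  · intro i hi
    refine (mvA_es j i).trans ?_
    rw [if_neg (by omega), if_neg (by omega), if_neg (by omega)]; congr 1; ring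
  · exact (mvA_vs j j).trans (if_pos le_rfl)
  · intro i h1 h2
    change ¬ s.isV ((s.mvA j).vs i)
    rw [mvA_vs, if_neg (by omega), if_pos (by omega)]; exact hs.inv.nV j

theorem Sw.loc {k a b : ℕ} (hs : Reach s) (w : Sw s s' p k a b) :
    Loc s s' p (p + k + 1) (p + 1) :=
  ⟨hs.inv, w.reach.inv, w.ext, by omega, by omega, w.lo,
    fun i hi => (w.hi i (by omega)).trans (by congr 1; ring), w.vp, fun i _ _ => by omega, w.new⟩

theorem loc_right (hs : Reach s) (j : ℤ) {A : Fill} (hA : A.ok) :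
    Loc s (s.stp j (.right A)) j (j + A.len + 1) (j + 1) := (sw_right hs j hA).loc hs

theorem loc_left (hs : Reach s) (j : ℤ) {A : Fill} (hA : A.ok) :
    Loc s (s.stp j (.left A)) (j - A.len) (j + 1) (j - A.len + 1) := by
  have := (sw_left hs j hA).loc hs
  rwa [show j - A.len + A.len + 1 = j + 1 by ring] at this

theorem n_new (hs : Reach s) (j : ℤ) : (s.stp j .new).n = s.n + 1 := by
  simp only [n, stp, card_mvA hs.inv]
  rw [show (s.mvA j).B = s.B from rfl]; ring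

theorem n_right (hs : Reach s) (j : ℤ) {A : Fill} (hA : A.ok) :
    (s.stp j (.right A)).n = s.n + (A.sz + 1) := by
  have w := sw_right hs j hA
  simp only [n, w.cA, w.cB, Fill.sz]; ring

theorem n_left (hs : Reach s) (j : ℤ) {A : Fill} (hA : A.ok) :
    (s.stp j (.left A)).n = s.n + (A.sz + 1) := by
  have w := sw_left hs j hA
  simp only [n, w.cA, w.cB, Fill.sz]; ring

theorem NewIn.ends {S : Set Vx} (h : NewIn s s' S) {x : Eid × Bool} (h1 : s'.isE x.1)
    (h2 : ¬ s.isE x.1) :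
    (s'.hs x ∈ S ∨ ¬ s.isV (s'.hs x)) ∧ (s'.ht x ∈ S ∨ ¬ s.isV (s'.ht x)) := by
  obtain ⟨a, b⟩ := h _ h1 h2
  unfold hs ht
  split_ifs
  exacts [⟨a, b⟩, ⟨b, a⟩]

theorem Loc.old_edge (h : Loc s s' p q q') {x : Eid × Bool} (hx : s'.isE x.1) {v : Vx}
    (hv : s.isV v) (hn : v ∉ s.vs '' Icc p q) (e : s'.hs x = v ∨ s'.ht x = v) : s.isE x.1 := by
  by_contra k
  obtain ⟨a, b⟩ := h.new.ends hx k
  rcases e with e | e
  · rw [e] at a; exact a.elim hn (fun k => k hv)
  · rw [e] at b; exact b.elim hn (fun k => k hv)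

theorem Inv.not_mem_seg (hi : Inv s) {i : ℤ} (h : i < p ∨ q < i) : s.vs i ∉ s.vs '' Icc p q := by
  rintro ⟨j, ⟨h1, h2⟩, e⟩
  have := hi.vinj e
  omega

theorem Loc.pos (h : Loc s s' p q q') {i : ℤ} (hv : s.isV (s'.vs i)) :
    (i ≤ p ∧ s'.vs i = s.vs i) ∨ (q' ≤ i ∧ s'.vs i = s.vs (i + q - q')) := by
  by_cases h1 : i ≤ p
  · exact Or.inl ⟨h1, h.vlo h1⟩
  · by_cases h2 : q' ≤ i
    · exact Or.inr ⟨h2, h.vhi h2⟩
    · exact absurd hv (h.mid i (by omega) (by omega))

theorem Loc.expo (h : Loc s s' p q q') {v : Vx} (hv : s.isV v) (hx : s'.expo v) : s.expo v := by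
  obtain ⟨i, rfl⟩ := hx
  rcases h.pos hv with ⟨_, e⟩ | ⟨_, e⟩
  exacts [⟨_, e.symm⟩, ⟨_, e.symm⟩]

theorem Loc.sub (h : Loc s s' p q q') {T : Set Vx} (hT : ∀ v ∈ T, s.isV v)
    (hf : {i | s.vs i ∈ T}.Finite) :
    {i | s'.vs i ∈ T}.Finite ∧
      {i | s'.vs i ∈ T}.ncard ≤ ({i | s.vs i ∈ T} \ Ioo p q).ncard := by
  have h1 : ∀ i ∈ {i | s'.vs i ∈ T},
      (if i ≤ p then i else i + q - q') ∈ {i | s.vs i ∈ T} \ Ioo p q := by
    intro i hi
    have := h.pq'
    rcases h.pos (hT _ hi) with ⟨a, e⟩ | ⟨a, e⟩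
    · rw [if_pos a]; exact ⟨by rw [mem_ofPred_eq, ← e]; exact hi, fun k => by have := k.1; omega⟩
    · rw [if_neg (by omega)]
      exact ⟨by rw [mem_ofPred_eq, ← e]; exact hi, fun k => by have := k.2; omega⟩
  have h2 : InjOn (fun i => if i ≤ p then i else i + q - q') {i | s'.vs i ∈ T} := by
    intro i hi i' hi' e
    have := h.pq
    have := h.pq'
    simp only at e
    rcases h.pos (hT _ hi) with ⟨a, _⟩ | ⟨a, _⟩ <;>
      rcases h.pos (hT _ hi') with ⟨a', _⟩ | ⟨a', _⟩ <;> split_ifs at e <;> omega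
  exact ⟨Finite.of_injOn h1 h2 (hf.subset sdiff_subset),
    ncard_le_ncard_of_injOn _ h1 h2 (hf.subset sdiff_subset)⟩

theorem Loc.rank_le (h : Loc s s' p q q') {T : Set Vx} (hT : ∀ v ∈ T, s.isV v)
    (hf : {i | s.vs i ∈ T}.Finite) : {i | s'.vs i ∈ T}.ncard ≤ {i | s.vs i ∈ T}.ncard :=
  (h.sub hT hf).2.trans (ncard_le_ncard sdiff_subset hf)

theorem Loc.rank_lt (h : Loc s s' p q q') {T : Set Vx} (hT : ∀ v ∈ T, s.isV v)
    (hf : {i | s.vs i ∈ T}.Finite) {j : ℤ} (hj : s.vs j ∈ T) (h1 : p < j) (h2 : j < q) :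
    {i | s'.vs i ∈ T}.ncard < {i | s.vs i ∈ T}.ncard :=
  (h.sub hT hf).2.trans_lt (ncard_lt_ncard ⟨sdiff_subset, fun k => (k hj).2 ⟨h1, h2⟩⟩ hf)

theorem Inv.hs_es (hi : Inv s) (j : ℤ) : s.hs (s.es j, true) = s.vs j ∧
    s.ht (s.es j, true) = s.vs (j + 1) ∧ s.hs (s.es j, false) = s.vs (j + 1) ∧
    s.ht (s.es j, false) = s.vs j :=
  ⟨rfl, hi.rgtes j, hi.rgtes j, rfl⟩

theorem hs_not (x : Eid × Bool) : s.hs (x.1, !x.2) = s.ht x ∧ s.ht (x.1, !x.2) = s.hs x := by
  obtain ⟨e, b⟩ := x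
  cases b <;> exact ⟨rfl, rfl⟩

end St

end Pool.Agent.MP_7a2e76_pr

end

-- part MP_7a2e76_pr.Growth
section

/-! Volume growth of balls through peeling by layers. -/

namespace Pool.Agent.MP_7a2e76_pr

open Set MeasureTheory Filter Topology
open scoped ENNReal
open St Fill

open Classical in
noncomputable def vol (R : ℕ) (H : HalfPlane) : ℝ≥0∞ :=
  ∑' o, if H.Near R (H.mg.src o) then 1 else 0

structure GI (s : St) (T : Set Vx) (a b : ℤ) : Prop where
  ab : a < b
  TV : ∀ v ∈ T, s.isV v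
  w1 : ∀ j, s.vs j ∈ T → a ≤ j ∧ j < b
  w1' : ∀ j x, s.isE x.1 → s.hs x ∈ T → s.ht x = s.vs j → a ≤ j ∧ j < b
  w2 : ∀ j, (j < a ∨ b ≤ j) → ∀ x : Eid × Bool, s.isE x.1 → s.hs x = s.vs j →
    x.1 = s.es j ∨ x.1 = s.es (j - 1)

variable {α : ℝ} {μ : Measure HalfPlane} {s s' : St} {T : Set Vx} {a b : ℤ}

theorem GI.fin (h : GI s T a b) : {i | s.vs i ∈ T}.Finite :=
  (finite_Ico a b).subset fun i hi => h.w1 i hi

theorem GI.step (h : GI s T a b) {p q q' a' b' : ℤ} (l : Loc s s' p q q') (h1 : a' ≤ a)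
    (h2 : a' ≤ p) (h3 : q' + 1 ≤ b') (h4 : b + q' - q ≤ b') :
    GI s' T a' b' := by
  have := l.pq
  have := l.pq'
  refine ⟨by omega, fun v hv => l.ext.isV (h.TV v hv), ?_, ?_, ?_⟩
  · intro j hj
    rcases l.pos (h.TV _ hj) with ⟨c, e⟩ | ⟨c, e⟩
    · have := h.w1 j (e ▸ hj); omega
    · have := h.w1 _ (e ▸ hj); omega
  · intro j x h7 h8 h9
    by_cases c1 : j < p
    · rw [l.vlo c1.le] at h9
      have o := l.old_edge h7 (l.inv.vsV j) (l.inv.not_mem_seg (Or.inl c1)) (Or.inr h9)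
      rw [l.ext.hs o] at h8
      rw [l.ext.ht o] at h9
      have := h.w1' j x o h8 h9
      omega
    · by_cases c2 : q' < j
      · rw [l.vhi c2.le] at h9
        have o := l.old_edge h7 (l.inv.vsV _) (l.inv.not_mem_seg (Or.inr (by omega)))
          (Or.inr h9)
        rw [l.ext.hs o] at h8
        rw [l.ext.ht o] at h9
        have := h.w1' _ x o h8 h9
        omega
      · omega
  · intro j hj x h7 h8
    rcases hj with hj | hj
    · rw [l.vlo (by omega)] at h8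
      have o := l.old_edge h7 (l.inv.vsV j) (l.inv.not_mem_seg (Or.inl (by omega))) (Or.inl h8)
      rw [l.ext.hs o] at h8
      rw [l.lo j (by omega), l.lo _ (by omega)]
      exact h.w2 j (by omega) x o h8
    · rw [l.vhi (by omega)] at h8
      have o := l.old_edge h7 (l.inv.vsV _) (l.inv.not_mem_seg (Or.inr (by omega))) (Or.inl h8)
      rw [l.ext.hs o] at h8
      rw [l.hi j (by omega), l.hi _ (by omega), show j - 1 + q - q' = j + q - q' - 1 by ring]
      exact h.w2 _ (by omega) x o h8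

theorem exists_far {J : Set ℤ} {M : ℕ} (hJ : J ⊆ Ico a b) (h : 2 * M < J.ncard) :
    ∃ j ∈ J, a + M ≤ j ∧ j + M < b := by
  by_contra hh
  push Not at hh
  have h1 : J ⊆ Ico a (a + M) ∪ Ico (b - M) b := by
    intro j hj
    have := hJ hj
    by_cases c : a + M ≤ j
    · exact Or.inr ⟨by have := hh j hj c; omega, this.2⟩
    · exact Or.inl ⟨this.1, by omega⟩
  have h2 := ncard_le_ncard h1 ((finite_Ico _ _).union (finite_Ico _ _))
  have h3 := ncard_union_le (Ico a (a + M)) (Ico (b - M) b)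
  rw [← Finset.coe_Ico, ← Finset.coe_Ico, ncard_coe_finset, ncard_coe_finset, Int.card_Ico,
    Int.card_Ico, Finset.coe_Ico, Finset.coe_Ico] at h3
  omega

def Cov (r : ℕ) (T : Set Vx) (s : St) : Prop :=
  ∀ H, Rl s H → ∀ y, H.Near r y → ∃ v ∈ T, H.psi v = y

theorem Cov.ext {r : ℕ} (h : Cov r T s) (e : s.Ext s') : Cov r T s' :=
  fun H hH => h H (hH.mono e)

theorem grow_alg (c : Ctx α μ) (n P M : ℕ) (hM : M ≤ P + 1) (X Y Y' Z u ν δ L τ : ℝ≥0∞)
    (hX : X ≠ ∞) (hu : u ≠ ∞) (hL : ∑' A, bw (pa α) (pb α) A * A.len = L) (hLf : L ≠ ∞)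
    (hδ : pa α ≤ 2 * L + δ) (hν : pa α + 2 * ∑' A, bw (pa α) (pb α) A * (A.sz + 1 : ℕ) ≤ ν)
    (hτ : ∑' A, bw (pa α) (pb α) A * (A.len + 1 - M : ℕ) ≤ τ)
    (hy : 4 * ν + X * (δ + 2 * τ) ≤ ph α * u) (hY : Y' + u ≤ Y) :
    ∑' σ : Step, σ.w (pa α) (pb α) * Step.cas
      (4 * (n + 1 : ℕ) + X * (P + 1 : ℕ) + Y + Z)
      (fun A => 4 * (n + (A.sz + 1) : ℕ) + X * (P + (A.len + 1 - M) - A.len : ℕ) + Y + Z)
      (fun A => 4 * (n + (A.sz + 1) : ℕ) + X * (P + (A.len + 1 - M) - A.len : ℕ) + Y' + Z) σ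
      ≤ 4 * n + X * P + Y + Z := by
  rw [tsum_cas]
  set S := ∑' A, bw (pa α) (pb α) A * (A.sz + 1 : ℕ) with hS
  set Q := ∑' A, bw (pa α) (pb α) A * (P + (A.len + 1 - M) - A.len : ℕ) with hQ
  have e : ∀ Y : ℝ≥0∞, ∑' A, bw (pa α) (pb α) A *
      (4 * (n + (A.sz + 1) : ℕ) + X * (P + (A.len + 1 - M) - A.len : ℕ) + Y + Z) =
      ph α * (4 * n + Y + Z) + 4 * S + X * Q := by
    intro Y
    rw [hS, hQ, ph, ← c.tutte.1, ← ENNReal.tsum_mul_right, ← ENNReal.tsum_mul_left,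
      ← ENNReal.tsum_mul_left, ← ENNReal.tsum_add, ← ENNReal.tsum_add]
    refine tsum_congr fun A => ?_
    rw [Nat.cast_add n]; ring
  have hQL : Q + L ≤ ph α * P + τ := by
    refine le_trans ?_ (add_le_add le_rfl hτ)
    rw [hQ, ← hL, ph, ← c.tutte.1, ← ENNReal.tsum_mul_right, ← ENNReal.tsum_add,
      ← ENNReal.tsum_add]
    refine ENNReal.tsum_le_tsum fun A => ?_
    rw [← mul_add, ← mul_add, ← Nat.cast_add, ← Nat.cast_add]
    exact mul_le_mul_right (Nat.cast_le.2 (by omega)) _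
  rw [e, e]
  have hf : 2 * (X * L) + ph α * u ≠ ∞ := by
    have : ph α ≠ ∞ := ENNReal.ofReal_ne_top
    finiteness
  rw [← ENNReal.add_le_add_iff_right hf]
  push_cast
  calc _ = pa α * (4 * n + X * P + Y + Z) + ph α * (4 * n + Y + Z) +
        ph α * (4 * n + (Y' + u) + Z) + 4 * (pa α + 2 * S) + X * pa α + 2 * X * (Q + L) := by
        ring
    _ ≤ pa α * (4 * n + X * P + Y + Z) + ph α * (4 * n + Y + Z) +
        ph α * (4 * n + Y + Z) + 4 * ν + X * (2 * L + δ) + 2 * X * (ph α * P + τ) := by gcongr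
    _ = (pa α + ph α + ph α) * (4 * n + X * P + Y + Z) + 2 * (X * L) +
        (4 * ν + X * (δ + 2 * τ)) := by ring
    _ ≤ _ := by
        rw [c.sum_one, one_mul, add_assoc]; gcongr

theorem grow_stage (c : Ctx α μ) (F : HalfPlane → ℝ≥0∞) (T : Set Vx) (r0 M : ℕ) (hM : 1 ≤ M)
    (X y y' Z ν δ L τ : ℝ≥0∞) (hX : X ≠ ∞) (hyf : y ≠ ∞) (hyf' : y' ≠ ∞)
    (hL : ∑' A, bw (pa α) (pb α) A * A.len = L) (hLf : L ≠ ∞)
    (hδ : pa α ≤ 2 * L + δ) (hν : pa α + 2 * ∑' A, bw (pa α) (pb α) A * (A.sz + 1 : ℕ) ≤ ν)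
    (hτ : ∑' A, bw (pa α) (pb α) A * (A.len + 1 - M : ℕ) ≤ τ)
    (hy : 4 * ν + X * (δ + 2 * τ) ≤ ph α * y) (hy' : X * (2 * L) ≤ ph α * y')
    (fin : ∀ s a b, Good α μ s → GI s T a b → Cov r0 T s → (∀ j, s.vs j ∉ T) →
      Bd α μ s F (4 * s.n + X * (b - a).toNat + Z)) :
    ∀ s a b, Good α μ s → GI s T a b → Cov r0 T s →
      Bd α μ s F (4 * s.n + X * (b - a).toNat + (y * {i | s.vs i ∈ T}.ncard +
        y' * (min {i | s.vs i ∈ T}.ncard (2 * M) : ℕ)) + Z) := by
  intro s a b g h cv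
  let Y : ℕ → ℝ≥0∞ := fun r => y * r + y' * (min r (2 * M) : ℕ)
  have hY : ∀ r r', r ≤ r' → Y r ≤ Y r' := fun r r' k => by
    simp only [Y]; gcongr
  refine Bd.loop c (X := St × ℤ × ℤ) (fun x => x.1) (fun x => {i | x.1.vs i ∈ T}.ncard)
    (fun x => 4 * x.1.n + X * (x.2.2 - x.2.1).toNat + Y {i | x.1.vs i ∈ T}.ncard + Z)
    (fun x => Good α μ x.1 ∧ GI x.1 T x.2.1 x.2.2 ∧ Cov r0 T x.1) (fun x hx => hx.1) ?_
    (s, a, b) ⟨g, h, cv⟩
  clear g h cv s a b
  rintro ⟨s, a, b⟩ ⟨g, h, cv⟩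
  simp only at g h cv ⊢
  by_cases h0 : ∀ j, s.vs j ∉ T
  · exact Or.inl ((fin s a b g h cv h0).le (add_le_add le_self_add le_rfl))
  right
  push Not at h0
  have hr := g.reach
  have hpos : 0 < {i | s.vs i ∈ T}.ncard := (ncard_pos h.fin).2 h0
  obtain ⟨j, M', u, τ', hj, m0, m1, m2, m3, m4, m5, m6⟩ : ∃ (j : ℤ) (M' : ℕ) (u τ' : ℝ≥0∞),
      s.vs j ∈ T ∧ 1 ≤ M' ∧ a + M' ≤ j + 1 ∧ j + M' < b ∧ u ≠ ∞ ∧
      ∑' A, bw (pa α) (pb α) A * (A.len + 1 - M' : ℕ) ≤ τ' ∧
      4 * ν + X * (δ + 2 * τ') ≤ ph α * u ∧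
      Y ({i | s.vs i ∈ T}.ncard - 1) + u ≤ Y {i | s.vs i ∈ T}.ncard := by
    by_cases hfar : 2 * M < {i | s.vs i ∈ T}.ncard
    · obtain ⟨j, j1, j2, j3⟩ := exists_far (fun i hi => h.w1 i hi) hfar
      refine ⟨j, M, y, τ, j1, hM, by omega, j3, hyf, hτ, hy, ?_⟩
      obtain ⟨r, e⟩ : ∃ r, {i | s.vs i ∈ T}.ncard = r + 1 := ⟨_, (Nat.succ_pred_eq_of_pos hpos).symm⟩
      rw [e] at hfar ⊢
      simp only [Y, Nat.add_sub_cancel]
      rw [min_eq_right (by omega), min_eq_right (by omega)]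
      push_cast
      exact le_of_eq (by ring)
    · obtain ⟨j, hj⟩ := h0
      have a1 := h.w1 j hj
      have a2 := h.w1' (j + 1) (s.es j, true) (hr.inv.esE j) hj (hr.inv.hs_es j).2.1
      refine ⟨j, 1, y + y', L, hj, le_rfl, by omega, by omega, by finiteness,
        by simpa using hL.le, ?_, ?_⟩
      · calc 4 * ν + X * (δ + 2 * L) ≤ 4 * ν + X * (δ + 2 * τ) + X * (2 * L) := by
              rw [add_assoc, ← mul_add]; gcongr; exact le_self_add
          _ ≤ ph α * y + ph α * y' := add_le_add hy hy'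
          _ = _ := by ring
      · obtain ⟨r, e⟩ : ∃ r, {i | s.vs i ∈ T}.ncard = r + 1 :=
          ⟨_, (Nat.succ_pred_eq_of_pos hpos).symm⟩
        rw [e] at hfar ⊢
        simp only [Y, Nat.add_sub_cancel]
        rw [min_eq_left (by omega), min_eq_left (by omega)]
        push_cast
        exact le_of_eq (by ring)
  have a1 := h.w1 j hj
  have a2 := h.w1' (j + 1) (s.es j, true) (hr.inv.esE j) hj (hr.inv.hs_es j).2.1
  refine ⟨j, _, ?_, grow_alg c s.n (b - a).toNat M' (by omega) X _ _ Z u ν δ L τ' hX m3 hL hLf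
    hδ hν m4 m5 m6⟩
  intro σ hσ
  right
  cases σ with
  | new =>
    have l := loc_new hr j
    have k := l.rank_le h.TV h.fin
    have gi : GI (s.stp j .new) T a (b + 1) := h.step l le_rfl (by omega) (by omega) (by omega)
    refine ⟨(s.stp j .new, a, b + 1), ⟨c.good_step g j hσ, gi, cv.ext l.ext⟩, rfl, k,
      fun k => absurd k id, ?_⟩
    simp only [Step.cas, n_new hr]
    gcongr
    · omega
    · exact hY _ _ k
  | right A =>
    have l := loc_right hr j hσ
    have k := l.rank_le h.TV h.fin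
    have gi : GI (s.stp j (.right A)) T a (max (b - A.len) (j + 2)) :=
      h.step l le_rfl (by omega) (by omega) (by omega)
    refine ⟨(s.stp j (.right A), a, max (b - A.len) (j + 2)), ⟨c.good_step g j hσ, gi,
      cv.ext l.ext⟩, rfl, k, fun k => absurd k id, ?_⟩
    simp only [Step.cas, n_right hr j hσ]
    gcongr
    · omega
    · exact hY _ _ k
  | left A =>
    have l := loc_left hr j hσ
    have := Fill.len_pos hσ
    have k := l.rank_lt h.TV h.fin hj (by omega) (by omega)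
    have gi : GI (s.stp j (.left A)) T (min a (j - A.len)) (b - A.len) :=
      h.step l (by omega) (by omega) (by omega) (by omega)
    refine ⟨(s.stp j (.left A), min a (j - A.len), b - A.len), ⟨c.good_step g j hσ, gi,
      cv.ext l.ext⟩, rfl, k.le, fun _ => k, ?_⟩
    simp only [Step.cas, n_left hr j hσ]
    gcongr
    · omega
    · exact hY _ _ (by omega)

theorem GI.next (hi : Inv s) (h : GI s T a b) :
    GI s {v | s.isV v ∧ (¬ s.expo v ∨ ∃ j, a ≤ j ∧ j < b ∧ s.vs j = v)} (a - 1) (b + 1) := by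
  have w : ∀ j, s.vs j ∈ {v | s.isV v ∧ (¬ s.expo v ∨ ∃ j, a ≤ j ∧ j < b ∧ s.vs j = v)} →
      a ≤ j ∧ j < b := by
    rintro j ⟨_, k | ⟨j', k1, k2, k3⟩⟩
    · exact absurd ⟨j, rfl⟩ k
    · rw [← hi.vinj k3]; exact ⟨k1, k2⟩
  refine ⟨by have := h.ab; omega, fun v hv => hv.1, fun j hj => by have := w j hj; omega, ?_,
    fun j hj => h.w2 j (by omega)⟩
  intro j x h1 h2 h3
  by_contra hh
  have k := h.w2 j (by omega) (x.1, !x.2) h1 ((hs_not x).1.trans h3)
  obtain ⟨e, bb⟩ := x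
  simp only at k
  rcases k with rfl | rfl <;> cases bb
  · rw [(hi.hs_es j).2.2.1] at h2; have := w _ h2; omega
  · rw [(hi.hs_es j).2.1] at h3; have := hi.vinj h3; omega
  · rw [(hi.hs_es _).2.2.2] at h3; have := hi.vinj h3; omega
  · rw [(hi.hs_es _).1] at h2; have := w _ h2; omega

theorem Cov.next (hi : Inv s) (h : GI s T a b) {r : ℕ} (cv : Cov r T s) (h0 : ∀ j, s.vs j ∉ T) :
    Cov (r + 1) {v | s.isV v ∧ (¬ s.expo v ∨ ∃ j, a ≤ j ∧ j < b ∧ s.vs j = v)} s := by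
  have ne : ∀ v ∈ T, ¬ s.expo v := by rintro v hv ⟨j, rfl⟩; exact h0 j hv
  rintro H hH y (k | ⟨w, k, ha⟩)
  · obtain ⟨v, h1, h2⟩ := cv H hH y k
    exact ⟨v, ⟨h.TV v h1, Or.inl (ne v h1)⟩, h2⟩
  · obtain ⟨v, h1, rfl⟩ := cv H hH w k
    obtain ⟨x, x1, x2, x3⟩ := hH.adj hi (h.TV v h1) (ne v h1) ha
    refine ⟨s.ht x, ⟨hi.htV x1, ?_⟩, x3⟩
    by_cases c : s.expo (s.ht x)
    · obtain ⟨j, hj⟩ := c
      have := h.w1' j x x1 (x2 ▸ h1) hj.symm
      exact Or.inr ⟨j, this.1, this.2, hj⟩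
    · exact Or.inl c

theorem grow_layers (c : Ctx α μ) (R M : ℕ) (hM : 1 ≤ M)
    (K K' g y y' ν δ L τ : ℝ≥0∞) (hK : K ≠ ∞) (hg : g ≠ ∞) (hg1 : 1 ≤ g) (hyf : y ≠ ∞)
    (hyf' : y' ≠ ∞) (hL : ∑' A, bw (pa α) (pb α) A * A.len = L) (hLf : L ≠ ∞)
    (hδ : pa α ≤ 2 * L + δ) (hν : pa α + 2 * ∑' A, bw (pa α) (pb α) A * (A.sz + 1 : ℕ) ≤ ν)
    (hτ : ∑' A, bw (pa α) (pb α) A * (A.len + 1 - M : ℕ) ≤ τ)
    (hy : 4 * ν + K * (δ + 2 * τ) ≤ ph α * y) (hy' : K * (2 * L) ≤ ph α * y')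
    (h1 : K + y ≤ K * g) (h2 : K' + 2 * K + y' * (2 * M : ℕ) ≤ K' * g) (i : ℕ) :
    ∀ r0 T s a b, r0 + i = R → Good α μ s → GI s T a b → Cov r0 T s →
      Bd α μ s (vol R) (4 * s.n + K * g ^ i * (b - a).toNat + (y * g ^ i * {i | s.vs i ∈ T}.ncard +
        y' * g ^ i * (min {i | s.vs i ∈ T}.ncard (2 * M) : ℕ)) + K' * g ^ i) := by
  have st : ∀ (i r0 : ℕ) (T : Set Vx), (∀ s a b, Good α μ s → GI s T a b → Cov r0 T s →
      (∀ j, s.vs j ∉ T) → Bd α μ s (vol R) (4 * s.n + K * g ^ i * (b - a).toNat + K' * g ^ i)) →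
      ∀ s a b, Good α μ s → GI s T a b → Cov r0 T s →
      Bd α μ s (vol R) (4 * s.n + K * g ^ i * (b - a).toNat + (y * g ^ i * {i | s.vs i ∈ T}.ncard +
        y' * g ^ i * (min {i | s.vs i ∈ T}.ncard (2 * M) : ℕ)) + K' * g ^ i) := by
    intro i r0 T fin
    have gi : 1 ≤ g ^ i := one_le_pow₀ hg1
    refine grow_stage c (vol R) T r0 M hM _ _ _ _ ν δ L τ (by finiteness) (by finiteness)
      (by finiteness) hL hLf hδ hν hτ ?_ ?_ fin
    · calc _ ≤ 4 * ν * g ^ i + K * g ^ i * (δ + 2 * τ) :=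
            add_le_add (le_mul_of_one_le_right' gi) le_rfl
        _ = (4 * ν + K * (δ + 2 * τ)) * g ^ i := by ring
        _ ≤ ph α * y * g ^ i := by gcongr
        _ = _ := by ring
    · calc _ = K * (2 * L) * g ^ i := by ring
        _ ≤ ph α * y' * g ^ i := by gcongr
        _ = _ := by ring
  induction i with
  | zero =>
    intro r0 T s a b e
    refine st 0 r0 T ?_ s a b
    intro s a b g h cv h0
    refine Bd.const g fun H hH => le_trans ?_ (le_self_add.trans le_self_add)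
    refine hH.volume g.reach.inv _ fun y hy => ?_
    obtain ⟨v, h1, h2⟩ := cv H hH y (by rwa [show r0 = R by omega])
    exact ⟨v, h.TV v h1, by rintro ⟨j, rfl⟩; exact h0 j h1, h2⟩
  | succ i ih =>
    intro r0 T s a b e
    refine st (i + 1) r0 T ?_ s a b
    intro s a b gd h cv h0
    have hi := gd.reach.inv
    refine (ih (r0 + 1) _ s (a - 1) (b + 1) (by omega) gd (h.next hi) (cv.next hi h h0)).le ?_
    have hab := h.ab
    have hr : {i | s.vs i ∈ {v | s.isV v ∧ (¬ s.expo v ∨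
        ∃ j, a ≤ j ∧ j < b ∧ s.vs j = v)}}.ncard ≤ (b - a).toNat := by
      rw [← Int.card_Ico, ← ncard_coe_finset, Finset.coe_Ico]
      refine ncard_le_ncard ?_ (finite_Ico _ _)
      rintro j ⟨_, k | ⟨j', k1, k2, k3⟩⟩
      · exact absurd ⟨j, rfl⟩ k
      · rw [← hi.vinj k3]; exact ⟨k1, k2⟩
    rw [show (b + 1 - (a - 1)).toNat = (b - a).toNat + 2 by omega]
    calc _ ≤ 4 * s.n + K * g ^ i * ((b - a).toNat + 2 : ℕ) + (y * g ^ i * (b - a).toNat +
          y' * g ^ i * (2 * M : ℕ)) + K' * g ^ i := by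
          gcongr; exact min_le_right _ _
      _ = 4 * s.n + (K + y) * g ^ i * (b - a).toNat +
          (K' + 2 * K + y' * (2 * M : ℕ)) * g ^ i := by push_cast; ring
      _ ≤ 4 * s.n + (K * g) * g ^ i * (b - a).toNat + (K' * g) * g ^ i := by gcongr
      _ = _ := by ring

theorem exists_tail {L γ : ℝ≥0∞} (hL : ∑' A, bw (pa α) (pb α) A * A.len = L) (hLf : L ≠ ∞)
    (hγ : 0 < γ) : ∃ M, 1 ≤ M ∧ ∑' A, bw (pa α) (pb α) A * (A.len + 1 - M : ℕ) ≤ γ := by
  classical
  obtain ⟨t, ht⟩ := ((tendsto_order.1 (ENNReal.tendsto_tsum_compl_atTop_zero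
    (f := fun A => bw (pa α) (pb α) A * A.len) (hL ▸ hLf))).2 _ hγ).exists
  refine ⟨t.sup len + 1, by omega, le_trans ?_ ht.le⟩
  rw [show (∑' b : { x // x ∉ t }, bw (pa α) (pb α) b * (b : Fill).len) =
    ∑' A, ({x | x ∉ t} : Set Fill).indicator (fun A => bw (pa α) (pb α) A * A.len) A from
    tsum_subtype {x | x ∉ t} (fun A => bw (pa α) (pb α) A * A.len)]
  refine ENNReal.tsum_le_tsum fun A => ?_
  by_cases hA : A ∈ t
  · have := Finset.le_sup (f := len) hA
    rw [show A.len + 1 - (t.sup len + 1) = 0 by omega]; simp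
  · rw [indicator_of_mem (show A ∈ {x | x ∉ t} from hA)]
    gcongr; omega

theorem gi_init : GI St.init {Vx.orig 0} (-1) 2 := by
  have hE : ∀ e, St.init.isE e → ∃ i, e = .orig i := by
    intro e he
    cases e with
    | orig i => exact ⟨i, rfl⟩
    | s1 e => simp [St.isE, St.init] at he
    | s2 e => simp [St.isE, St.init] at he
  have hv : ∀ j, St.init.vs j = .orig j := fun _ => rfl
  refine ⟨by omega, by rintro v rfl; trivial, ?_, ?_, ?_⟩
  · intro j hj; rw [hv] at hj; simp at hj; omega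
  · rintro j ⟨e, b⟩ h1 h2 h3
    obtain ⟨i, rfl⟩ := hE e h1
    cases b <;> simp [hs, ht, St.init, Eid.lft, vs] at h2 h3 <;> omega
  · rintro j _ ⟨e, b⟩ h1 h2
    obtain ⟨i, rfl⟩ := hE e h1
    cases b <;> simp [hs, St.init, Eid.lft, vs] at h2 ⊢ <;> omega

theorem growth (c : Ctx α μ) (e : ℝ≥0∞) (he : e ≠ ∞)
    (hgap : ENNReal.ofReal √(α * (3 * α - 2)) < ph α * e) :
    ∃ C : ℝ≥0∞, C ≠ ∞ ∧ ∀ R, Bd α μ St.init (vol R) (C * (1 + e) ^ R) := by
  have h1 := c.h1
  have h2 := c.h2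
  set δ := ENNReal.ofReal √(α * (3 * α - 2)) with hδ
  have hs0 : 0 < √(α * (3 * α - 2)) := Real.sqrt_pos.2 (by nlinarith)
  have hs1 : √(α * (3 * α - 2)) ≤ α := by
    rw [Real.sqrt_le_left (by linarith)]; nlinarith
  set L := ENNReal.ofReal ((α - √(α * (3 * α - 2))) / 2) with hL
  have hLδ : 2 * L + δ = pa α := by
    rw [hL, hδ, pa, ← ENNReal.ofReal_ofNat 2, ← ENNReal.ofReal_mul (by norm_num),
      ← ENNReal.ofReal_add (by linarith) hs0.le]
    congr 1; ring
  have hLf : L ≠ ∞ := ENNReal.ofReal_ne_top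
  have hδ0 : δ ≠ 0 := by simpa [hδ] using hs0
  have hS := size_bound (a := pa α) (b := pb α) L δ ENNReal.ofReal_ne_top hLf hδ0
    (by rw [c.tutte.1, two_mul, ← add_assoc]; exact c.sum_one.le) c.tutte.2.le hLδ.le
  have he0 : e ≠ 0 := by rintro rfl; simp at hgap
  have hph : ph α ≠ ∞ := ENNReal.ofReal_ne_top
  obtain ⟨γ, hγ0, hγ⟩ : ∃ γ : ℝ≥0∞, 0 < γ ∧ δ + 3 * γ ≤ ph α * e := by
    refine ⟨(ph α * e - δ) / 3, ENNReal.div_pos (tsub_pos_of_lt hgap).ne' (by simp), ?_⟩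
    rw [ENNReal.mul_div_cancel (by simp) (by simp), add_tsub_cancel_of_le hgap.le]
  have hγf : γ ≠ ∞ := by
    rintro rfl
    simp only [ENNReal.mul_top (show (3 : ℝ≥0∞) ≠ 0 by simp), add_top, top_le_iff] at hγ
    exact ENNReal.mul_ne_top hph he hγ
  obtain ⟨M, hM, hτ⟩ := exists_tail c.tutte.2 hLf hγ0
  set ν := pa α + 2 * ∑' A, bw (pa α) (pb α) A * (A.sz + 1 : ℕ) with hν
  have hνf : ν ≠ ∞ := by
    have : pa α ≠ ∞ := ENNReal.ofReal_ne_top
    finiteness
  set K := 4 * ν / γ with hK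
  have hKf : K ≠ ∞ := ENNReal.div_ne_top (by finiteness) hγ0.ne'
  set y' := K * (2 * L) / ph α with hy'
  have hyf : y' ≠ ∞ := ENNReal.div_ne_top (by finiteness) c.ph_pos.ne'
  set K' := (2 * K + y' * (2 * M : ℕ)) / e with hK'
  have hKf' : K' ≠ ∞ := ENNReal.div_ne_top (by finiteness) he0
  refine ⟨K * 3 + (K * e + y') + K', by finiteness, fun R => ?_⟩
  refine (grow_layers c R M hM K K' (1 + e) (K * e) y' ν δ L γ hKf (by finiteness) le_self_add
    (by finiteness) hyf c.tutte.2 hLf hLδ.ge le_rfl hτ ?_ ?_ ?_ ?_ R 0 {Vx.orig 0} St.init (-1) 2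
    (by omega) c.good_init gi_init ?_).le ?_
  · calc 4 * ν + K * (δ + 2 * γ) = K * γ + K * (δ + 2 * γ) := by
          rw [hK, ENNReal.div_mul_cancel hγ0.ne' hγf]
      _ = K * (δ + 3 * γ) := by ring
      _ ≤ K * (ph α * e) := by gcongr
      _ = _ := by ring
  · rw [hy', ENNReal.mul_div_cancel c.ph_pos.ne' hph]
  · exact le_of_eq (by ring)
  · rw [mul_add K', mul_one, add_assoc, hK', ENNReal.div_mul_cancel he0 he]
  · rintro H _ y rfl
    exact ⟨_, rfl, rfl⟩
  · have e1 : {i | St.init.vs i ∈ ({Vx.orig 0} : Set Vx)} = {0} := by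
      ext i; simp [vs, St.init, Eid.lft]
    rw [e1, ncard_singleton, min_eq_left (by omega)]
    simp only [St.n, St.init, Finset.card_empty]
    refine le_of_eq ?_
    rw [show ((2 : ℤ) - -1).toNat = 3 by rfl]
    push_cast; ring

end Pool.Agent.MP_7a2e76_pr

end

-- part MP_7a2e76_pr.Layer
section

/-! Peeling by layers loses few levels of a unimodal Lipschitz level function. -/

namespace Pool.Agent.MP_7a2e76_pr

open Set MeasureTheory Filter Topology
open scoped ENNReal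
open St Fill

variable {α : ℝ} {μ : Measure HalfPlane} {s s' : St} {T : Set Vx} {f : Vx → ℕ} {D D' : ℕ}

theorem tsum_le_of_injOn {X Y : Type} (S : Set X) (g : X → Y) (hg : InjOn g S)
    (F : X → ℝ≥0∞) (G : Y → ℝ≥0∞) (h0 : ∀ x ∉ S, F x = 0) (h : ∀ x ∈ S, F x ≤ G (g x)) :
    ∑' x, F x ≤ ∑' y, G y := by
  rw [← tsum_subtype_eq_of_support_subset (s := S) (fun x hx => by
    by_contra k; exact hx (h0 x k))]
  exact le_trans (ENNReal.tsum_le_tsum fun x => h x x.2)
    (ENNReal.tsum_comp_le_tsum_of_injective (f := fun x : S => g x) hg.injective G)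

structure PI (s : St) (f : Vx → ℕ) (D : ℕ) : Prop where
  f0 : ∀ v, ¬ s.isV v → f v = 0
  lip : ∀ x : Eid × Bool, s.isE x.1 → f (s.ht x) ≤ max (f (s.hs x)) D + 1
  qc : ∀ i i' i'', i < i' → i' < i'' → min (f (s.vs i)) (f (s.vs i'')) ≤ max (f (s.vs i')) D

structure LI (s : St) (f : Vx → ℕ) (T : Set Vx) (D : ℕ) : Prop where
  pi : PI s f D
  TV : ∀ v ∈ T, s.isV v
  Tf : ∀ v ∈ T, f v ≤ D
  nb : ∀ x : Eid × Bool, s.isE x.1 → s.hs x ∈ T → f (s.ht x) ≤ D

theorem PI.up (hi : Inv s) (h : PI s f D) (i : ℤ) (h0 : f (s.vs i) ≤ D) (t : ℕ) :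
    f (s.vs (i + t)) ≤ D + t := by
  induction t with
  | zero => simpa using h0
  | succ t ih =>
    have := h.lip (s.es (i + t), true) (hi.esE _)
    rw [(hi.hs_es _).1, (hi.hs_es _).2.1] at this
    rw [Nat.cast_succ, ← add_assoc]
    omega

theorem PI.down (hi : Inv s) (h : PI s f D) (i : ℤ) (h0 : f (s.vs i) ≤ D) (t : ℕ) :
    f (s.vs (i - t)) ≤ D + t := by
  induction t with
  | zero => simpa using h0
  | succ t ih =>
    have := h.lip (s.es (i - (t + 1 : ℕ)), false) (hi.esE _)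
    rw [(hi.hs_es _).2.2.1, (hi.hs_es _).2.2.2,
      show i - (t + 1 : ℕ) + 1 = i - t by push_cast; ring] at this
    omega

theorem LI.step (h : LI s f T D) {p q q' : ℤ} (l : Loc s s' p q q') (hD : D ≤ D')
    (hseg : ∀ i, p ≤ i → i ≤ q → f (s.vs i) ≤ D') : LI s' f T D' := by
  have hnew : ∀ x : Eid × Bool, s'.isE x.1 → ¬ s.isE x.1 → f (s'.ht x) ≤ D' := by
    intro x h1 h2
    rcases (l.new.ends h1 h2).2 with ⟨i, ⟨a, b⟩, e⟩ | k
    · rw [← e]; exact hseg i a b
    · rw [h.pi.f0 _ k]; omega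
  have := l.pq
  have := l.pq'
  refine ⟨⟨fun v hv => h.pi.f0 v fun k => hv (l.ext.isV k), ?_, ?_⟩,
    fun v hv => l.ext.isV (h.TV v hv), fun v hv => (h.Tf v hv).trans hD, ?_⟩
  · intro x hx
    by_cases o : s.isE x.1
    · rw [l.ext.hs o, l.ext.ht o]
      have := h.pi.lip x o
      omega
    · have := hnew x hx o; omega
  · intro i i' i'' h1 h2
    by_cases c : s.isV (s'.vs i)
    swap
    · rw [h.pi.f0 _ c]; omega
    by_cases c'' : s.isV (s'.vs i'')
    swap
    · rw [h.pi.f0 _ c'']; omega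
    by_cases c' : p < i' ∧ i' < q'
    · have a1 : i ≤ p := by
        by_contra k; exact l.mid i (by omega) (by omega) c
      have a2 : q' ≤ i'' := by
        by_contra k; exact l.mid i'' (by omega) (by omega) c''
      rw [l.vlo a1, l.vhi a2]
      have a3 := hseg p le_rfl (by omega)
      rcases a1.lt_or_eq with a1 | rfl
      · have := h.pi.qc i p (i'' + q - q') a1 (by omega)
        omega
      · omega
    · have k : ∀ a b c, a < b → b < c → min (f (s.vs a)) (f (s.vs c)) ≤ max (f (s.vs b)) D' :=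
        fun a b c h1 h2 => by have := h.pi.qc a b c h1 h2; omega
      rcases l.pos c with ⟨a1, e1⟩ | ⟨a1, e1⟩ <;> rcases l.pos c'' with ⟨a2, e2⟩ | ⟨a2, e2⟩ <;>
        rw [e1, e2]
      · rw [l.vlo (by omega)]; exact k _ _ _ h1 h2
      · by_cases c3 : i' ≤ p
        · rw [l.vlo c3]; exact k _ _ _ h1 (by omega)
        · rw [l.vhi (by omega)]; exact k _ _ _ (by omega) (by omega)
      · omega
      · rw [l.vhi (by omega)]; exact k _ _ _ (by omega) (by omega)
  · intro x hx h1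
    by_cases o : s.isE x.1
    · rw [l.ext.hs o] at h1
      rw [l.ext.ht o]
      exact (h.nb x o h1).trans hD
    · exact hnew x hx o

open Classical in
noncomputable def term (s : St) (T : Set Vx) (f : Vx → ℕ) (D : ℕ) (p : ℤ × ℤ) : ℝ≥0∞ :=
  if s.vs p.1 ∈ T ∧ D < f (s.vs p.2) then 2⁻¹ ^ (p.1 - p.2).natAbs else 0

def sep (j : ℤ) (p : ℤ × ℤ) : Prop := (p.1 ≤ j ∧ j < p.2) ∨ (p.2 ≤ j ∧ j < p.1)

open Classical in
theorem pot_step (h : LI s f T D) {p q q' j : ℤ} (l : Loc s s' p q q') (hD : D ≤ D')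
    (hp : p ≤ j) (hq : j < q) (c : ℝ≥0∞)
    (hc : ∀ d d' : ℕ, (d : ℤ) = d' + (q - q') → (2⁻¹ : ℝ≥0∞) ^ d' ≤ c * 2⁻¹ ^ d) :
    ∑' x, term s' T f D' x ≤ c * (∑' x, if sep j x then term s T f D x else 0) +
      ∑' x, if ¬ sep j x ∧ ¬ (p < x.1 ∧ x.1 < q) then term s T f D x else 0 := by
  have := l.pq
  have := l.pq'
  rw [← ENNReal.tsum_mul_left, ← ENNReal.tsum_add]
  let g : ℤ → ℤ := fun i => if i ≤ p then i else i + q - q'
  have hV : ∀ v, D' < f v → s.isV v := fun v hv => by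
    by_contra k; rw [h.pi.f0 v k] at hv; omega
  refine tsum_le_of_injOn {x : ℤ × ℤ | s'.vs x.1 ∈ T ∧ D' < f (s'.vs x.2)}
    (fun x => (g x.1, g x.2)) ?_ _ _ (fun x hx => if_neg hx) ?_
  · rintro ⟨a, b⟩ ⟨h1, h2⟩ ⟨a', b'⟩ ⟨h1', h2'⟩ e
    simp only [Prod.mk.injEq, g] at e ⊢
    obtain ⟨e1, e2⟩ := e
    constructor
    · rcases l.pos (h.TV _ h1) with ⟨a1, _⟩ | ⟨a1, _⟩ <;>
        rcases l.pos (h.TV _ h1') with ⟨a2, _⟩ | ⟨a2, _⟩ <;> split_ifs at e1 <;> omega
    · rcases l.pos (hV _ h2) with ⟨a1, _⟩ | ⟨a1, _⟩ <;>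
        rcases l.pos (hV _ h2') with ⟨a2, _⟩ | ⟨a2, _⟩ <;> split_ifs at e2 <;> omega
  · rintro ⟨a, b⟩ ⟨h1, h2⟩
    simp only at h1 h2
    rw [term, if_pos ⟨h1, h2⟩]
    simp only [g]
    rcases l.pos (h.TV _ h1) with ⟨a1, e1⟩ | ⟨a1, e1⟩ <;>
      rcases l.pos (hV _ h2) with ⟨a2, e2⟩ | ⟨a2, e2⟩ <;> rw [e1] at h1 <;> rw [e2] at h2
    · rw [if_pos a1, if_pos a2, if_neg (by simp only [sep]; omega), if_pos (by
        simp only [sep]; omega), term, if_pos ⟨h1, lt_of_le_of_lt hD h2⟩]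
      simp
    · rw [if_pos a1, if_neg (show ¬ b ≤ p by omega), if_pos (by simp only [sep]; omega), term,
        if_pos ⟨h1, lt_of_le_of_lt hD h2⟩]
      exact le_trans (hc _ _ (by simp only; omega)) le_self_add
    · rw [if_neg (show ¬ a ≤ p by omega), if_pos a2, if_pos (by simp only [sep]; omega), term,
        if_pos ⟨h1, lt_of_le_of_lt hD h2⟩]
      exact le_trans (hc _ _ (by simp only; omega)) le_self_add
    · rw [if_neg (show ¬ a ≤ p by omega), if_neg (show ¬ b ≤ p by omega),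
        if_neg (by simp only [sep]; omega), if_pos (by simp only [sep]; omega), term,
        if_pos ⟨h1, lt_of_le_of_lt hD h2⟩]
      simp only [mul_zero, zero_add]
      exact le_of_eq (by congr 2; ring)

theorem half_pow (k : ℕ) : (2 : ℝ≥0∞) ^ k * 2⁻¹ ^ k = 1 := by
  rw [← mul_pow, ENNReal.mul_inv_cancel (by simp) (by simp), one_pow]

open Classical in
theorem half_side (M : Set ℤ) (hM : ∀ a b c, a < b → b < c → a ∈ M → c ∈ M → b ∈ M) :
    ∑' x : ℤ × ℤ, (if x.1 < x.2 ∧ x.1 ∉ M ∧ x.2 ∈ M then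
      (2⁻¹ : ℝ≥0∞) ^ (x.1 - x.2).natAbs else 0) ≤ 2 := by
  by_cases hex : ∃ x : ℤ × ℤ, x.1 < x.2 ∧ x.1 ∉ M ∧ x.2 ∈ M
  swap
  · push Not at hex
    rw [ENNReal.tsum_eq_zero.2 fun x => if_neg fun k => hex x k.1 k.2.1 k.2.2]; simp
  obtain ⟨⟨i0, i1⟩, h1, h2, h3⟩ := hex
  obtain ⟨a, ⟨ha1, ha2⟩, ha3⟩ := Int.exists_least_of_bdd (P := fun z => z ∈ M ∧ i0 < z)
    ⟨i0, fun z hz => hz.2.le⟩ ⟨i1, h3, h1⟩
  have ha4 : a - 1 ∉ M := by
    intro k
    by_cases c : a - 1 = i0
    · exact h2 (c ▸ k)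
    · have := ha3 (a - 1) ⟨k, by omega⟩; omega
  have key : ∀ x : ℤ × ℤ, x.1 < x.2 ∧ x.1 ∉ M ∧ x.2 ∈ M → x.1 < a ∧ a ≤ x.2 := by
    rintro ⟨i, i'⟩ ⟨b1, b2, b3⟩
    simp only at b1 b2 b3 ⊢
    constructor
    · by_contra k
      rcases (not_lt.1 k).lt_or_eq with k | k
      · exact b2 (hM a i i' k b1 ha1 b3)
      · exact b2 (k ▸ ha1)
    · by_contra k
      by_cases c : i' = a - 1
      · exact ha4 (c ▸ b3)
      · exact ha4 (hM i' (a - 1) a (by omega) (by omega) b3 ha1)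
  refine (tsum_le_of_injOn {x : ℤ × ℤ | x.1 < x.2 ∧ x.1 ∉ M ∧ x.2 ∈ M}
    (fun x => ((a - 1 - x.1).toNat, (x.2 - a).toNat)) ?_ _
    (fun y : ℕ × ℕ => 2⁻¹ * (2⁻¹ ^ y.1 * 2⁻¹ ^ y.2)) (fun x hx => if_neg hx) ?_).trans ?_
  · intro x hx x' hx' e
    have := key x hx
    have := key x' hx'
    simp only [Prod.mk.injEq] at e
    exact Prod.ext (by omega) (by omega)
  · intro x hx
    have := key x hx
    rw [if_pos hx, ← pow_add, ← pow_succ']
    exact le_of_eq (by congr 1; simp only; omega)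
  · rw [ENNReal.tsum_mul_left, ENNReal.tsum_prod']
    simp only [ENNReal.tsum_mul_left, ENNReal.tsum_mul_right, ENNReal.tsum_geometric,
      ENNReal.one_sub_inv_two, inv_inv]
    rw [← mul_assoc, ENNReal.inv_mul_cancel (by simp) (by simp), one_mul]

open Classical in
theorem pot_le (h : LI s f T D) : ∑' x, term s T f D x ≤ 4 := by
  let M : Set ℤ := {i | D < f (s.vs i)}
  have hM : ∀ a b c, a < b → b < c → a ∈ M → c ∈ M → b ∈ M := by
    intro a b c h1 h2 h3 h4
    have := h.pi.qc a b c h1 h2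
    simp only [M, mem_ofPred_eq] at h3 h4 ⊢
    omega
  have h1 := half_side M hM
  have h2 := half_side {i | -i ∈ M} fun a b c h1 h2 h3 h4 =>
    hM (-c) (-b) (-a) (by omega) (by omega) h4 h3
  rw [← ((Equiv.neg ℤ).prodCongr (Equiv.neg ℤ)).tsum_eq] at h2
  refine le_trans ?_ ((add_le_add h1 h2).trans (le_of_eq (by norm_num)))
  rw [← ENNReal.tsum_add]
  refine ENNReal.tsum_le_tsum ?_
  rintro ⟨a, b⟩
  rw [term]
  split_ifs with c1 c2 c3 c4
  · exact le_self_add
  · exact le_self_add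
  · simp only [Equiv.prodCongr_apply, Prod.map, Equiv.neg_apply, zero_add]
    exact le_of_eq (by congr 1; omega)
  · exfalso
    have a1 : a ∉ M := by
      exact not_lt.2 (h.Tf _ c1.1)
    have a2 : b ∈ M := c1.2
    rcases lt_trichotomy a b with k | rfl | k
    · exact c2 ⟨k, a1, a2⟩
    · exact a1 a2
    · exact c4 ⟨by simpa using k, by simpa using a1, by simpa using a2⟩
  all_goals simp

theorem pow_aux1 (k : ℕ) : k * 2 ^ (k + 1) ≤ 8 ^ k := by
  induction k with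
  | zero => simp
  | succ k ih =>
    have : 2 ^ k ≤ 8 ^ k := Nat.pow_le_pow_left (by norm_num) k
    rw [pow_succ 2 k] at ih
    rw [pow_succ 8, pow_succ 2, pow_succ 2]
    have e : (k + 1) * (2 ^ k * 2 * 2) = 2 * (k * (2 ^ k * 2)) + 4 * 2 ^ k := by ring
    omega

open Classical in
theorem layer_alg (c : Ctx α μ) (t A S V R B : ℝ≥0∞)
    (h1 : ∑' a, bw (pa α) (pb α) a * 8 ^ a.len ≤ t)
    (h2 : ∑' a, (if 2 ≤ a.len then bw (pa α) (pb α) a * 8 ^ a.len else 0) ≤ ph α * A)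
    (h3 : 2⁻¹ * A + t + 2 * t * A ≤ A) :
    ∑' σ : Step, σ.w (pa α) (pb α) * Step.cas
      (B + A * (2⁻¹ * S + (V + R)))
      (fun a => B + a.len * 2 ^ (a.len + 1) * S + A * (2 ^ a.len * S + (V + R)))
      (fun a => B + (a.len - 1 : ℕ) * 2 ^ a.len * V + A * (2 ^ a.len * S + R)) σ
      ≤ B + A * (S + (V + R)) := by
  rw [tsum_cas]
  have e1 : ∑' a, bw (pa α) (pb α) a *
      (B + a.len * 2 ^ (a.len + 1) * S + A * (2 ^ a.len * S + (V + R))) ≤
      ph α * (B + A * (V + R)) + t * (S + A * S) := by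
    refine le_trans ?_ (add_le_add le_rfl (mul_le_mul_left h1 _))
    rw [ph, ← c.tutte.1, ← ENNReal.tsum_mul_right, ← ENNReal.tsum_mul_right, ← ENNReal.tsum_add]
    refine ENNReal.tsum_le_tsum fun a => ?_
    have k1 : (a.len : ℝ≥0∞) * 2 ^ (a.len + 1) ≤ 8 ^ a.len := by exact_mod_cast pow_aux1 a.len
    calc _ ≤ bw (pa α) (pb α) a * (B + 8 ^ a.len * S + A * (8 ^ a.len * S + (V + R))) := by
          gcongr; norm_num
      _ = _ := by ring
  have e2 : ∑' a, bw (pa α) (pb α) a *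
      (B + (a.len - 1 : ℕ) * 2 ^ a.len * V + A * (2 ^ a.len * S + R)) ≤
      ph α * (B + A * R) + t * (A * S) + ph α * A * V := by
    refine le_trans ?_ (add_le_add (add_le_add le_rfl (mul_le_mul_left h1 _))
      (mul_le_mul_left h2 _))
    rw [ph, ← c.tutte.1, ← ENNReal.tsum_mul_right, ← ENNReal.tsum_mul_right,
      ← ENNReal.tsum_mul_right, ← ENNReal.tsum_add, ← ENNReal.tsum_add]
    refine ENNReal.tsum_le_tsum fun a => ?_
    have k1 : bw (pa α) (pb α) a * ((a.len - 1 : ℕ) * 2 ^ a.len) ≤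
        if 2 ≤ a.len then bw (pa α) (pb α) a * 8 ^ a.len else 0 := by
      split_ifs with k
      · refine mul_le_mul_right ?_ _
        have := pow_aux1 a.len
        have k2 : (a.len - 1) * 2 ^ a.len ≤ 8 ^ a.len :=
          le_trans (Nat.mul_le_mul (by omega) (Nat.pow_le_pow_right (by norm_num) (by omega))) this
        exact_mod_cast k2
      · rw [show a.len - 1 = 0 by omega]; simp
    calc _ = bw (pa α) (pb α) a * (B + A * R) + bw (pa α) (pb α) a * 2 ^ a.len * (A * S) +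
          bw (pa α) (pb α) a * ((a.len - 1 : ℕ) * 2 ^ a.len) * V := by ring
      _ ≤ _ := by gcongr; norm_num
  have hpa : pa α ≤ 1 := c.sum_one ▸ (le_self_add.trans le_self_add)
  calc _ ≤ pa α * (B + A * (V + R)) + 1 * (A * (2⁻¹ * S)) +
        (ph α * (B + A * (V + R)) + t * (S + A * S)) +
        (ph α * (B + A * R) + t * (A * S) + ph α * A * V) := by
        refine add_le_add (add_le_add ?_ e1) e2
        calc _ = pa α * (B + A * (V + R)) + pa α * (A * (2⁻¹ * S)) := by ring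
          _ ≤ _ := by gcongr
    _ = (pa α + ph α + ph α) * (B + A * (V + R)) + (2⁻¹ * A + t + 2 * t * A) * S := by ring
    _ ≤ 1 * (B + A * (V + R)) + A * S := by rw [c.sum_one]; gcongr
    _ = _ := by ring

open Classical in
theorem layer_stage (c : Ctx α μ) (F : HalfPlane → ℝ≥0∞) (hT : T.Finite) (r : ℕ)
    (Q : St → Prop) (hQ : ∀ {s s'}, Q s → s.Ext s' → Q s')
    (t A u B : ℝ≥0∞) (h1 : ∑' a, bw (pa α) (pb α) a * 8 ^ a.len ≤ t)
    (h2 : ∑' a, (if 2 ≤ a.len then bw (pa α) (pb α) a * 8 ^ a.len else 0) ≤ ph α * A)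
    (h3 : 2⁻¹ * A + t + 2 * t * A ≤ A)
    (fin : ∀ s D, Good α μ s → LI s f T D → Q s → r ≤ D → (∀ j, s.vs j ∉ T) →
      Bd α μ s F (u * (B + (D - r : ℕ)))) :
    ∀ s D, Good α μ s → LI s f T D → Q s → r ≤ D →
      Bd α μ s F (u * (B + (D - r : ℕ) + A * ∑' x, term s T f D x)) := by
  intro s D g h cv hr
  refine Bd.loop c (X := St × ℕ) (fun x => x.1) (fun x => {i | x.1.vs i ∈ T}.ncard)
    (fun x => u * (B + (x.2 - r : ℕ) + A * ∑' y, term x.1 T f x.2 y))
    (fun x => Good α μ x.1 ∧ LI x.1 f T x.2 ∧ Q x.1 ∧ r ≤ x.2) (fun x hx => hx.1) ?_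
    (s, D) ⟨g, h, cv, hr⟩
  clear g h cv hr s D
  rintro ⟨s, D⟩ ⟨g, h, cv, hrD⟩
  simp only at g h cv hrD ⊢
  by_cases h0 : ∀ j, s.vs j ∉ T
  · exact Or.inl ((fin s D g h cv hrD h0).le (mul_le_mul_right le_self_add u))
  right
  push Not at h0
  obtain ⟨j, hj⟩ := h0
  have hr := g.reach
  have hi := hr.inv
  have hfin : {i | s.vs i ∈ T}.Finite := hT.preimage hi.vinj.injOn
  set S := ∑' x, if sep j x then term s T f D x else 0 with hS
  set V := ∑' x, if ¬ sep j x ∧ x.1 = j then term s T f D x else 0 with hV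
  set R := ∑' x, if ¬ sep j x ∧ x.1 ≠ j then term s T f D x else 0 with hR
  have eP : ∑' x, term s T f D x = S + (V + R) := by
    rw [hS, hV, hR, ← ENNReal.tsum_add, ← ENNReal.tsum_add]
    refine tsum_congr fun x => ?_
    by_cases c1 : sep j x <;> by_cases c2 : x.1 = j <;> simp [c1, c2]
  have eN : ∀ p q, (∑' x, if ¬ sep j x ∧ ¬ (p < x.1 ∧ x.1 < q) then term s T f D x else 0)
      ≤ V + R := by
    intro p q
    rw [hV, hR, ← ENNReal.tsum_add]
    refine ENNReal.tsum_le_tsum fun x => ?_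
    by_cases c1 : sep j x <;> by_cases c2 : x.1 = j <;> simp [c1, c2] <;> split_ifs <;> simp
  have f0 := h.Tf _ hj
  have f1 : f (s.vs (j + 1)) ≤ D := by
    have := h.nb (s.es j, true) (hi.esE j) hj
    rwa [(hi.hs_es j).2.1] at this
  have f2 : f (s.vs (j - 1)) ≤ D := by
    have := h.nb (s.es (j - 1), false) (hi.esE _) (by
      rw [(hi.hs_es _).2.2.1, sub_add_cancel]; exact hj)
    rwa [(hi.hs_es _).2.2.2] at this
  have hpow : ∀ k d d' : ℕ, d = d' + k → (2⁻¹ : ℝ≥0∞) ^ d' ≤ 2 ^ k * 2⁻¹ ^ d := by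
    rintro k d d' rfl
    rw [pow_add, mul_left_comm, half_pow, mul_one]
  refine ⟨j, fun σ => u * Step.cas
      (B + (D - r : ℕ) + A * (2⁻¹ * S + (V + R)))
      (fun a => B + (D - r : ℕ) + a.len * 2 ^ (a.len + 1) * S + A * (2 ^ a.len * S + (V + R)))
      (fun a => B + (D - r : ℕ) + (a.len - 1 : ℕ) * 2 ^ a.len * V + A * (2 ^ a.len * S + R)) σ,
    ?_, ?_⟩
  swap
  · simp only [mul_left_comm _ u]
    rw [ENNReal.tsum_mul_left, eP]
    exact mul_le_mul_right (layer_alg c t A S V R _ h1 h2 h3) u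
  intro σ hσ
  right
  cases σ with
  | new =>
    have l := loc_new hr j
    have li : LI (s.stp j .new) f T D := h.step l le_rfl fun i a b => by
      rcases a.lt_or_eq with a | rfl
      · rw [show i = j + 1 by omega]; exact f1
      · exact f0
    refine ⟨(s.stp j .new, D), ⟨c.good_step g j hσ, li, hQ cv l.ext, hrD⟩, rfl,
      l.rank_le h.TV hfin, fun k => absurd k id, ?_⟩
    simp only [Step.cas]
    gcongr
    refine (pot_step h l le_rfl le_rfl (by omega) 2⁻¹ fun d d' e => ?_).trans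
      (add_le_add le_rfl (eN _ _))
    rw [show d' = d + 1 by omega, pow_succ']
  | right a =>
    have l := loc_right hr j hσ
    obtain ⟨D', d1, d2, d3⟩ : ∃ D', D ≤ D' ∧
        (∀ i, j ≤ i → i ≤ j + a.len + 1 → f (s.vs i) ≤ D') ∧
        ((D' - r : ℕ) : ℝ≥0∞) ≤ (D - r : ℕ) + a.len * 2 ^ (a.len + 1) * S := by
      by_cases cc : ∀ i, j ≤ i → i ≤ j + a.len + 1 → f (s.vs i) ≤ D
      · exact ⟨D, le_rfl, cc, le_self_add⟩
      · push Not at cc
        obtain ⟨i0, b1, b2, b3⟩ := cc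
        refine ⟨D + a.len, by omega, fun i a1 a2 => ?_, ?_⟩
        · rcases a1.lt_or_eq with a1 | rfl
          · have := h.pi.up hi (j + 1) f1 (i - (j + 1)).toNat
            rw [show j + 1 + ((i - (j + 1)).toNat : ℤ) = i by omega] at this
            omega
          · omega
        · have b4 : j < i0 := by
            rcases b1.lt_or_eq with b1 | rfl
            · exact b1
            · omega
          have b5 : (2⁻¹ : ℝ≥0∞) ^ (j - i0).natAbs ≤ S := by
            refine le_trans ?_ (ENNReal.le_tsum (j, i0))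
            rw [if_pos (show sep j (j, i0) from Or.inl ⟨le_rfl, b4⟩), term, if_pos ⟨hj, b3⟩]
          have b6 : (1 : ℝ≥0∞) ≤ 2 ^ (a.len + 1) * S := by
            refine le_trans ?_ (mul_le_mul_right b5 _)
            rw [← half_pow (j - i0).natAbs]
            exact mul_le_mul_left (pow_le_pow_right₀ (by norm_num) (by omega)) _
          rw [show D + a.len - r = D - r + a.len by omega, Nat.cast_add, mul_assoc]
          exact add_le_add le_rfl (le_mul_of_one_le_right' b6)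
    refine ⟨(s.stp j (.right a), D'), ⟨c.good_step g j hσ, h.step l d1 d2, hQ cv l.ext,
      hrD.trans d1⟩, rfl, l.rank_le h.TV hfin, fun k => absurd k id, ?_⟩
    simp only [Step.cas]
    refine mul_le_mul_right (add_le_add (by rw [add_assoc]; exact add_le_add le_rfl d3)
      (mul_le_mul_right ?_ A)) u
    exact (pot_step h l d1 le_rfl (by omega) _ fun d d' e => hpow _ d d' (by omega)).trans
      (add_le_add le_rfl (eN _ _))
  | left a =>
    have l := loc_left hr j hσ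
    have hl := Fill.len_pos hσ
    obtain ⟨D', d1, d2, d3⟩ : ∃ D', D ≤ D' ∧
        (∀ i, j - a.len ≤ i → i ≤ j + 1 → f (s.vs i) ≤ D') ∧
        ((D' - r : ℕ) : ℝ≥0∞) ≤ (D - r : ℕ) + (a.len - 1 : ℕ) * 2 ^ a.len * V := by
      by_cases cc : ∀ i, j - a.len ≤ i → i ≤ j + 1 → f (s.vs i) ≤ D
      · exact ⟨D, le_rfl, cc, le_self_add⟩
      · push Not at cc
        obtain ⟨i0, b1, b2, b3⟩ := cc
        have b4 : i0 < j := by
          by_contra k
          rcases (not_lt.1 k).lt_or_eq with k | rfl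
          · rw [show i0 = j + 1 by omega] at b3; omega
          · omega
        refine ⟨D + (a.len - 1), by omega, fun i a1 a2 => ?_, ?_⟩
        · by_cases k : i < j
          · have := h.pi.down hi (j - 1) f2 (j - 1 - i).toNat
            rw [show j - 1 - ((j - 1 - i).toNat : ℤ) = i by omega] at this
            omega
          · rcases (not_lt.1 k).lt_or_eq with k | rfl
            · rw [show i = j + 1 by omega]; omega
            · omega
        · have b5 : (2⁻¹ : ℝ≥0∞) ^ (j - i0).natAbs ≤ V := by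
            refine le_trans ?_ (ENNReal.le_tsum (j, i0))
            rw [if_pos ⟨by simp only [sep]; omega, rfl⟩, term, if_pos ⟨hj, b3⟩]
          have b6 : (1 : ℝ≥0∞) ≤ 2 ^ a.len * V := by
            refine le_trans ?_ (mul_le_mul_right b5 _)
            rw [← half_pow (j - i0).natAbs]
            exact mul_le_mul_left (pow_le_pow_right₀ (by norm_num) (by omega)) _
          rw [show D + (a.len - 1) - r = D - r + (a.len - 1) by omega, Nat.cast_add, mul_assoc]
          exact add_le_add le_rfl (le_mul_of_one_le_right' b6)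
    have k := l.rank_lt h.TV hfin hj (by omega) (by omega)
    refine ⟨(s.stp j (.left a), D'), ⟨c.good_step g j hσ, h.step l d1 d2, hQ cv l.ext,
      hrD.trans d1⟩, rfl, k.le, fun _ => k, ?_⟩
    simp only [Step.cas]
    refine mul_le_mul_right (add_le_add (by rw [add_assoc]; exact add_le_add le_rfl d3)
      (mul_le_mul_right ?_ A)) u
    refine (pot_step h l d1 (by omega) (by omega) _ fun d d' e => hpow _ d d' (by omega)).trans
      (add_le_add le_rfl (ENNReal.tsum_le_tsum fun x => ?_))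
    split_ifs with c1 c2
    · exact le_rfl
    · exact absurd ⟨c1.1, fun k => c1.2 (by omega)⟩ c2
    · simp
    · simp

open Classical in
theorem layer_ind (c : Ctx α μ) (t A u : ℝ≥0∞) (h1 : ∑' a, bw (pa α) (pb α) a * 8 ^ a.len ≤ t)
    (h2 : ∑' a, (if 2 ≤ a.len then bw (pa α) (pb α) a * 8 ^ a.len else 0) ≤ ph α * A)
    (h3 : 2⁻¹ * A + t + 2 * t * A ≤ A) (n J : ℕ) (hu : 1 ≤ u * (n - J : ℕ)) (x0 : Vx) (i : ℕ) :
    ∀ r T s D, r + i = J → Good α μ s → PI s f D → T.Finite → (∀ v ∈ T, s.isV v) →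
      (∀ v ∈ T, f v ≤ D) → Cov r T s → r ≤ D → s.isV x0 →
      Bd α μ s (fun H => if H.Near J (H.psi x0) then 1 else 0)
        (u * ((n - f x0 : ℕ) + 4 * A * i + (D - r : ℕ))) := by
  induction i with
  | zero =>
    intro r T s D e g h hT TV Tf cv hr hx
    refine Bd.const g fun H hH => ?_
    split_ifs with k
    · obtain ⟨v, v1, v2⟩ := cv H hH _ (by rwa [show r = J by omega])
      have := Tf _ (hH.v _ (TV v v1) _ hx v2 ▸ v1)
      refine hu.trans (mul_le_mul_right ?_ u)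
      rw [Nat.cast_zero, mul_zero, add_zero, ← Nat.cast_add]
      exact Nat.cast_le.2 (by omega)
    · simp
  | succ i ih =>
    intro r T s D e g h hT TV Tf cv hr hx
    have li : LI s f T (D + 1) := by
      refine ⟨⟨h.f0, fun x hx => by have := h.lip x hx; omega,
        fun a b c h1 h2 => by have := h.qc a b c h1 h2; omega⟩, TV,
        fun v hv => by have := Tf v hv; omega, fun x hx k => ?_⟩
      have := h.lip x hx
      have := Tf _ k
      omega
    refine (layer_stage (f := f) c _ hT (r + 1) (fun s => Cov r T s ∧ s.isV x0)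
      (fun h e => ⟨h.1.ext e, e.isV h.2⟩) t A u
      ((n - f x0 : ℕ) + 4 * A * i) h1 h2 h3 ?_ s (D + 1) g li ⟨cv, hx⟩ (by omega)).le ?_
    · rintro s' D' g' h' ⟨cv', hx2⟩ hr' h0
      have hi := g'.reach.inv
      have ne : ∀ v ∈ T, ¬ s'.expo v := by rintro v hv ⟨j, rfl⟩; exact h0 j hv
      refine ih (r + 1) (T ∪ ⋃ v ∈ T, s'.ht '' (s'.mst v)) s' D' (by omega) g' h'.pi
        (hT.union (hT.biUnion fun v _ => (s'.mst v).finite_toSet.image _)) ?_ ?_ ?_ hr' hx2
      · rintro v (hv | hv)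
        · exact h'.TV v hv
        · simp only [mem_iUnion, mem_image, Finset.mem_coe, hi.mem_mst] at hv
          obtain ⟨w, _, x, x1, rfl⟩ := hv
          exact hi.htV x1.1
      · rintro v (hv | hv)
        · exact h'.Tf v hv
        · simp only [mem_iUnion, mem_image, Finset.mem_coe, hi.mem_mst] at hv
          obtain ⟨w, hw, x, x1, rfl⟩ := hv
          exact h'.nb x x1.1 (x1.2 ▸ hw)
      · rintro H hH y (k | ⟨w, k, ha⟩)
        · obtain ⟨v, v1, v2⟩ := cv' H hH y k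
          exact ⟨v, Or.inl v1, v2⟩
        · obtain ⟨v, v1, rfl⟩ := cv' H hH w k
          obtain ⟨x, x1, x2, x3⟩ := hH.adj hi (h'.TV v v1) (ne v v1) ha
          refine ⟨s'.ht x, Or.inr ?_, x3⟩
          simp only [mem_iUnion, mem_image, Finset.mem_coe, hi.mem_mst]
          exact ⟨v, v1, x, ⟨x1, x2⟩, rfl⟩
    · refine mul_le_mul_right ?_ u
      rw [show D + 1 - (r + 1) = D - r by omega]
      calc _ ≤ (n - f x0 : ℕ) + 4 * A * i + (D - r : ℕ) + A * 4 := by gcongr; exact pot_le li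
        _ = _ := by push_cast; ring

open Classical in
theorem layer (c : Ctx α μ) (t A u : ℝ≥0∞) (h1 : ∑' a, bw (pa α) (pb α) a * 8 ^ a.len ≤ t)
    (h2 : ∑' a, (if 2 ≤ a.len then bw (pa α) (pb α) a * 8 ^ a.len else 0) ≤ ph α * A)
    (h3 : 2⁻¹ * A + t + 2 * t * A ≤ A) (n J : ℕ) (hu : 1 ≤ u * (n - J : ℕ)) (x0 : Vx)
    (g : Good α μ s) (h : PI s f 0) (h0 : f (.orig 0) = 0) (hx : s.isV x0) :
    Bd α μ s (fun H => if H.Near J (H.psi x0) then 1 else 0)
      (u * ((n - f x0 : ℕ) + 4 * A * J)) := by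
  have := layer_ind c t A u h1 h2 h3 n J hu x0 J 0 {.orig 0} s 0 (by omega) g h
    (finite_singleton _) (by rintro v rfl; trivial) (by rintro v rfl; omega)
    (by rintro H _ y rfl; exact ⟨_, rfl, rfl⟩) le_rfl hx
  simpa using this

end Pool.Agent.MP_7a2e76_pr

end

-- part MP_7a2e76_pr.Credit
section

/-! Composition of local moves, degree credits and level updates. -/

namespace Pool.Agent.MP_7a2e76_pr

open Set
open scoped ENNReal
open St

variable {s s' s'' : St} {p q q' : ℤ} {f : Vx → ℕ}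

theorem St.Loc.comp {P Q Q' : ℤ} (l : Loc s s' p q q') (l2 : Loc s' s'' P Q Q')
    (h1 : P ≤ p) (h2 : p < Q) {a b : ℤ} (ha : a = q + max 0 (Q - q'))
    (hb : b = Q' + max 0 (q' - Q)) : Loc s s'' P a b := by
  have := l.pq
  have := l.pq'
  have := l2.pq
  have := l2.pq'
  refine ⟨l.inv, l2.inv', l.ext.trans l2.ext, by omega, by omega, ?_, ?_, ?_, ?_, ?_⟩
  · intro i hi; rw [l2.lo i hi, l.lo i (by omega)]
  · intro i hi; rw [l2.hi i (by omega), l.hi _ (by omega)]; congr 1; omega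
  · rw [l2.vp, l.vlo h1]
  · intro i a1 a2
    by_cases c : i < Q'
    · exact fun k => l2.mid i a1 c (l.ext.isV k)
    · rw [l2.vhi (by omega)]; exact l.mid _ (by omega) (by omega)
  · refine NewIn.trans (l.new.mono (image_mono (Icc_subset_Icc h1 (by omega)))) l2.new l.ext
      l2.ext ?_
    rintro v ⟨i, ⟨a1, a2⟩, rfl⟩
    by_cases c : s.isV (s'.vs i)
    · left
      rcases l.pos c with ⟨b1, e⟩ | ⟨b1, e⟩
      · exact ⟨i, ⟨a1, by omega⟩, e.symm⟩
      · exact ⟨_, ⟨by omega, by omega⟩, e.symm⟩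
    · exact Or.inr c

theorem loc_refl (hi : Inv s) (j : ℤ) : Loc s s j (j + 1) (j + 1) :=
  ⟨hi, hi, Ext.refl s, by omega, by omega, fun _ _ => rfl, fun i _ => by congr 1; ring, rfl,
    fun i _ _ => by omega, fun e h1 h2 => absurd h1 h2⟩

theorem tsum_fiber {ι : Type} (t : Finset ι) (g : ι → Vx) :
    ∑' v, ((t.filter fun i => g i = v).card : ℝ≥0∞) = t.card := by
  simp only [Finset.card_filter, Nat.cast_sum, Nat.cast_ite, Nat.cast_one, Nat.cast_zero]
  rw [Summable.tsum_finsetSum fun _ _ => ENNReal.summable]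
  simp only [eq_comm (a := g _), tsum_ite_eq]
  simp

theorem card_mst_le (hi : Inv s) (hi' : Inv s') (e : s.Ext s') (NH : Finset (Eid × Bool))
    (h : ∀ x : Eid × Bool, s'.isE x.1 → ¬ s.isE x.1 → x ∈ NH) (v : Vx) :
    (s'.mst v).card ≤ (s.mst v).card + (NH.filter fun x => s'.hs x = v).card := by
  refine le_trans (Finset.card_le_card fun x hx => ?_) (Finset.card_union_le _ _)
  rw [hi'.mem_mst] at hx
  by_cases c : s.isE x.1
  · exact Finset.mem_union_left _ (hi.mem_mst.2 ⟨c, (e.hs c).symm.trans hx.2⟩)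
  · exact Finset.mem_union_right _ (Finset.mem_filter.2 ⟨h x hx.1 c, hx.2⟩)

theorem St.Ext.credit (hi : Inv s) (hi' : Inv s') (e : s.Ext s') (d : ℕ) (hd : s'.n ≤ s.n + d) :
    ∃ δ : Vx → ℕ, ∑' v, (δ v : ℝ≥0∞) ≤ 4 * d ∧
      ∀ v, (s'.mst v).card ≤ (s.mst v).card + δ v := by
  let NE := (s'.A \ s.A).image Eid.s1 ∪ ((s'.A \ s.A) ∪ (s'.B \ s.B)).image Eid.s2
  refine ⟨_, ?_, card_mst_le hi hi' e (NE ×ˢ Finset.univ) ?_⟩
  · rw [tsum_fiber, Finset.card_product]
    have h1 := Finset.card_union_le ((s'.A \ s.A).image Eid.s1)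
      (((s'.A \ s.A) ∪ (s'.B \ s.B)).image Eid.s2)
    have h2 := Finset.card_image_le (s := s'.A \ s.A) (f := Eid.s1)
    have h3 := Finset.card_image_le (s := (s'.A \ s.A) ∪ (s'.B \ s.B)) (f := Eid.s2)
    have h4 := Finset.card_union_le (s'.A \ s.A) (s'.B \ s.B)
    have h5 := Finset.card_sdiff_add_card_eq_card e.A
    have h6 := Finset.card_sdiff_add_card_eq_card e.B
    have : NE.card * (Finset.univ : Finset Bool).card ≤ 4 * d := by
      simp only [Finset.card_univ, Fintype.card_bool, St.n, NE] at hd ⊢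
      omega
    exact_mod_cast this
  · rintro ⟨x, b⟩ h1 h2
    refine Finset.mem_product.2 ⟨?_, Finset.mem_univ _⟩
    cases x with
    | orig i => exact absurd trivial h2
    | s1 x =>
      exact Finset.mem_union_left _ (Finset.mem_image_of_mem _ (Finset.mem_sdiff.2 ⟨h1, h2⟩))
    | s2 x =>
      refine Finset.mem_union_right _ (Finset.mem_image_of_mem _ ?_)
      rcases h1 with h1 | h1
      · exact Finset.mem_union_left _ (Finset.mem_sdiff.2 ⟨h1, fun k => h2 (Or.inl k)⟩)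
      · exact Finset.mem_union_right _ (Finset.mem_sdiff.2 ⟨h1, fun k => h2 (Or.inr k)⟩)

theorem mst_new (hi : Inv s) (j : ℤ) (v : Vx) :
    ((s.mvA j).mst v).card ≤ (s.mst v).card + (if s.vs j = v then 1 else 0) +
      (if s.vs (j + 1) = v then 1 else 0) + (if Vx.apex (s.es j) = v then 2 else 0) := by
  refine (card_mst_le hi (hi.mvA j) (ext_mvA hi j) {(.s1 (s.es j), true), (.s1 (s.es j), false),
    (.s2 (s.es j), true), (.s2 (s.es j), false)} ?_ v).trans ?_
  · rintro ⟨x, b⟩ h1 h2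
    rcases (mvA_isE j x).1 h1 with h | rfl | rfl
    · exact absurd h h2
    · cases b <;> simp
    · cases b <;> simp
  · rw [Finset.card_filter, Finset.sum_insert (by simp), Finset.sum_insert (by simp),
      Finset.sum_insert (by simp), Finset.sum_singleton]
    simp only [hs, if_true, Bool.false_eq_true, if_false, mvA_rgt1, mvA_rgt2, hi.rgtes]
    change _ + ((if Vx.apex (s.es j) = v then 1 else 0) + (_ +
      ((if s.vs j = v then 1 else 0) + _))) ≤ _
    split_ifs <;> omega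

theorem St.Inv.mst_zero (hi : Inv s) {v : Vx} (hv : ¬ s.isV v) : (s.mst v).card = 0 := by
  rw [Finset.card_eq_zero, Finset.eq_empty_iff_forall_notMem]
  intro x hx
  rw [hi.mem_mst] at hx
  exact hv (hx.2 ▸ hi.hsV hx.1)

theorem St.Loc.credit (l : Loc s s' p q q') (d L : ℕ) (hd : s'.n ≤ s.n + d) (hL : q + 1 = p + L)
    (κ : Vx → ℕ) (x : Vx) (N k : ℕ)
    (h1 : ∀ v, s.isV v → ¬ s.expo v → (s.mst v).card ≤ κ v)
    (h2 : ∀ v, s.expo v → v ≠ x → 2 * (s.mst v).card ≤ κ v + 6)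
    (h3 : 2 * (s.mst x).card + 2 ≤ κ x + N) :
    ∃ δ : Vx → ℕ, ∑' v, (δ v : ℝ≥0∞) ≤ (8 * d + 6 * L + k : ℕ) ∧
      (∀ v, s'.isV v → ¬ s'.expo v → v ≠ x → (s'.mst v).card ≤ κ v + δ v) ∧
      (∀ v, s'.expo v → v ≠ x → 2 * (s'.mst v).card ≤ κ v + δ v + 6) ∧
      (s.vs q ≠ x → 2 * (s'.mst (s.vs q)).card ≤ κ (s.vs q) + δ (s.vs q)) ∧
      2 * (s'.mst x).card + 2 ≤ κ x + δ x + (N - k) := by
  obtain ⟨δ, a1, a2⟩ := l.ext.credit l.inv l.inv' d hd
  have := l.pq
  have := l.pq'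
  have seg : ∀ i, p ≤ i → i ≤ q →
      1 ≤ ((Finset.Icc p q).filter fun i' => s.vs i' = s.vs i).card := fun i b1 b2 =>
    Finset.card_pos.2 ⟨i, Finset.mem_filter.2 ⟨Finset.mem_Icc.2 ⟨b1, b2⟩, rfl⟩⟩
  refine ⟨fun v => 2 * δ v + 6 * ((Finset.Icc p q).filter fun i => s.vs i = v).card +
    if v = x then k else 0, ?_, ?_, ?_, ?_, ?_⟩
  · push_cast
    rw [ENNReal.tsum_add, ENNReal.tsum_add, ENNReal.tsum_mul_left, ENNReal.tsum_mul_left,
      tsum_fiber, tsum_ite_eq, Int.card_Icc, show (q + 1 - p).toNat = L by omega]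
    calc _ ≤ 2 * (4 * (d : ℝ≥0∞)) + 6 * L + k := by gcongr
      _ = _ := by ring
  · intro v b1 b2 b3
    have c1 := a2 v
    by_cases c : s.isV v
    · by_cases c' : s.expo v
      · have c2 := h2 v c' b3
        obtain ⟨i, rfl⟩ := c'
        by_cases c3 : i < p
        · exact absurd ⟨i, l.vlo c3.le⟩ b2
        by_cases c4 : q < i
        · exact absurd ⟨i - q + q', (l.vhi (by omega)).trans (by congr 1; ring)⟩ b2
        have := seg i (by omega) (by omega)
        simp only; omega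
      · have := h1 v c c'; simp only; omega
    · have := l.inv.mst_zero c; simp only; omega
  · intro v b1 b3
    have c1 := a2 v
    by_cases c : s.isV v
    · have := h2 v (l.expo c b1) b3; simp only; omega
    · have := l.inv.mst_zero c; simp only; omega
  · intro b
    have := a2 (s.vs q)
    have := h2 _ ⟨q, rfl⟩ b
    have := seg q (by omega) le_rfl
    simp only; omega
  · have := a2 x
    simp only [if_true]; omega

structure CI (s : St) (κ : Vx → ℕ) : Prop where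
  int : ∀ v, s.isV v → ¬ s.expo v → (s.mst v).card ≤ κ v
  ext : ∀ v, s.expo v → 2 * (s.mst v).card ≤ κ v + 6

theorem ci_init : CI St.init fun _ => 0 := by
  constructor
  · intro v h1 h2
    cases v with
    | orig i => exact absurd ⟨i, rfl⟩ h2
    | apex e => simp [isV, St.init] at h1
  · rintro v ⟨i, rfl⟩
    have : St.init.mst (St.init.vs i) ⊆ {(.orig i, true), (.orig (i - 1), false)} := by
      rintro ⟨e, b⟩ hx
      rw [inv_init.mem_mst] at hx
      cases e with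
      | orig i' =>
        cases b with
        | true => have := vorig_inj hx.2; simp [this]
        | false => have := vorig_inj hx.2; simp; omega
      | s1 e => simp [isE, St.init] at hx
      | s2 e => simp [isE, St.init] at hx
    have h2 := (Finset.card_le_card this).trans Finset.card_le_two
    omega

theorem pi_init : PI St.init (fun _ => 0) 0 :=
  ⟨fun _ _ => rfl, fun _ _ => by simp, fun _ _ _ _ _ => by simp⟩

theorem PI.mono {D D' : ℕ} (h : PI s f D) (hD : D ≤ D') : PI s f D' :=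
  ⟨h.f0, fun x hx => by have := h.lip x hx; omega,
    fun a b c h1 h2 => by have := h.qc a b c h1 h2; omega⟩

theorem PI.seg (hi : Inv s) (h : PI s f 0) (j i : ℤ) :
    f (s.vs j) ≤ f (s.vs i) + (j - i).natAbs := by
  have h' := h.mono (Nat.zero_le (f (s.vs i)))
  by_cases c : i ≤ j
  · have := h'.up hi i le_rfl (j - i).natAbs
    rwa [show i + ((j - i).natAbs : ℤ) = j by omega] at this
  · have := h'.down hi i le_rfl (j - i).natAbs
    rwa [show i - ((j - i).natAbs : ℤ) = j by omega] at this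

open Classical in
noncomputable def nl (s s' : St) (f : Vx → ℕ) (l : ℕ) (v : Vx) : ℕ :=
  if s.isV v then min (f v) l else if s'.isV v then l else 0

theorem nl_le (l : ℕ) (v : Vx) : nl s s' f l v ≤ l := by
  unfold nl; split_ifs <;> omega

theorem nl_old {l : ℕ} {v : Vx} (h : s.isV v) : nl s s' f l v = min (f v) l := if_pos h

theorem nl_new {l : ℕ} {v : Vx} (h : ¬ s.isV v) (h' : s'.isV v) : nl s s' f l v = l := by
  rw [nl, if_neg h, if_pos h']

theorem PI.round (lo : Loc s s' p q q') (h : PI s f 0) (l : ℕ) (j : ℤ) (j1 : p ≤ j) (j2 : j ≤ q)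
    (h1 : l ≤ f (s.vs j)) (h2 : ∀ i, p ≤ i → i ≤ q → l ≤ f (s.vs i) + 1) :
    PI s' (nl s s' f l) 0 := by
  have hi := lo.inv
  refine ⟨fun v hv => ?_, fun x hx => ?_, fun i i' i'' a1 a2 => ?_⟩
  · rw [nl, if_neg fun k => hv (lo.ext.isV k), if_neg hv]
  · by_cases o : s.isE x.1
    · rw [lo.ext.hs o, lo.ext.ht o, nl_old (hi.hsV o), nl_old (hi.htV o)]
      have := h.lip x o
      omega
    · have := nl_le (s := s) (s' := s') (f := f) l (s'.ht x)
      rcases (lo.new.ends hx o).1 with ⟨i, ⟨b1, b2⟩, e⟩ | k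
      · rw [← e, nl_old (hi.vsV i)]
        have := h2 i b1 b2
        omega
      · rw [nl_new k (lo.inv'.hsV hx)]; omega
  · have b1 := nl_le (s := s) (s' := s') (f := f) l (s'.vs i)
    by_cases c : s.isV (s'.vs i')
    · rcases lo.pos c with ⟨b2, e⟩ | ⟨b2, e⟩
      · rw [e, lo.vlo (by omega : i ≤ p), nl_old (hi.vsV _), nl_old (hi.vsV _)]
        rcases (b2.trans j1).lt_or_eq with b3 | rfl
        · have := h.qc i i' j a1 b3; omega
        · omega
      · rw [e, lo.vhi (by omega : q' ≤ i''), nl_old (hi.vsV _), nl_old (hi.vsV _)]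
        rcases (show j ≤ i' + q - q' by omega).lt_or_eq with b3 | b3
        · have := h.qc j (i' + q - q') (i'' + q - q') b3 (by omega); omega
        · rw [← b3]; omega
    · rw [nl_new c (lo.inv'.vsV _)]; omega

theorem PI.raise (hi : Inv s) (h : PI s f 0) (l : ℕ) (hl : ∀ v, f v ≤ l) (i : ℤ)
    (h1 : f (s.vs i) = l) (h2 : ∀ x : Eid × Bool, s.isE x.1 → s.hs x = s.vs i → l ≤ f (s.ht x)) :
    PI s (Function.update f (s.vs i) (l + 1)) 0 := by
  refine ⟨fun v hv => ?_, fun x hx => ?_, fun a b c a1 a2 => ?_⟩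
  · rw [Function.update_of_ne (by rintro rfl; exact hv (hi.vsV i)), h.f0 v hv]
  · have b1 := h.lip x hx
    have b2 := h2 (x.1, !x.2) hx
    rw [(hs_not x).1, (hs_not x).2] at b2
    have b3 := hl (s.ht x)
    simp only [Function.update_apply]
    split_ifs with c1 c2 c3
    · omega
    · have := b2 c1; omega
    · omega
    · omega
  · have b1 := h.qc a b c a1 a2
    have b2 := hl (s.vs a)
    have b3 := hl (s.vs c)
    simp only [Function.update_apply, hi.vinj.eq_iff]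
    split_ifs with c1 c2 c3 <;> subst_vars <;> omega

theorem good_card (hi : Inv s) (x : Vx) (p : ℤ) (N : ℕ)
    (ch : ∀ k ≤ N - 1, ∃ e, s.isE e ∧ e.lft = x ∧ s.rgt e = s.vs (p + k))
    (GH : Finset (Eid × Bool))
    (hG : ∀ h ∈ s.mst x, ∀ k : ℕ, 0 < k → k + 1 < N → s.ht h = s.vs (p + k) → h ∈ GH) :
    N - 2 ≤ GH.card := by
  have e : ((Finset.range (N - 2)).image fun k : ℕ => s.vs (p + (k + 1 : ℕ))).card = N - 2 := by
    rw [Finset.card_image_of_injOn fun a _ b _ e => by have := hi.vinj e; omega]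
    simp
  rw [← e]
  refine Finset.card_le_card_of_surjOn s.ht fun v hv => ?_
  obtain ⟨k, hk, rfl⟩ := Finset.mem_image.1 hv
  rw [Finset.mem_range] at hk
  obtain ⟨e, b1, b2, b3⟩ := ch (k + 1) (by omega)
  exact ⟨(e, true), hG _ (hi.mem_mst.2 ⟨b1, b2⟩) (k + 1) (by omega) (by omega) b3, b3⟩

end Pool.Agent.MP_7a2e76_pr

end

-- part MP_7a2e76_pr.Round
section

/-! Peeling the right edge of an exposed vertex until it is swallowed. -/

namespace Pool.Agent.MP_7a2e76_pr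

open Set MeasureTheory Filter Topology
open scoped ENNReal
open St Fill

variable {α : ℝ} {μ : Measure HalfPlane} {s0 s s' : St} {κ δ : Vx → ℕ} {j : ℤ} {N K m : ℕ}

structure RI (s0 : St) (κ : Vx → ℕ) (j : ℤ) (s : St) (N K m : ℕ) (δ : Vx → ℕ) : Prop where
  loc : Loc s0 s j (j + K + 1) (j + N + 1)
  fan : ∀ k < N, ∃ e, s.isE e ∧ e.lft = s0.vs j ∧ s.rgt e = s.vs (j + 1 + k)
  pure : ∀ k : ℕ, k + 1 < N → ∀ h : Eid × Bool, s.isE h.1 → s.hs h = s.vs (j + 1 + k) →
    s.ht h = s0.vs j ∨ ¬ s0.isV (s.ht h)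
  tot : ∑' v, (δ v : ℝ≥0∞) ≤ (N + m : ℕ)
  c1 : ∀ v, s.isV v → ¬ s.expo v → (s.mst v).card ≤ κ v + δ v
  c2 : ∀ v, s.expo v → v ≠ s0.vs j → 2 * (s.mst v).card ≤ κ v + δ v + 6
  c3 : 2 * (s.mst (s.vs (j + 1))).card ≤ κ (s.vs (j + 1)) + δ (s.vs (j + 1)) + 4
  c4 : 2 * (s.mst (s0.vs j)).card + 2 ≤ κ (s0.vs j) + δ (s0.vs j) + N

structure RE (s0 : St) (κ : Vx → ℕ) (j : ℤ) (s : St) (N K J m : ℕ) (δ : Vx → ℕ) : Prop where
  loc : Loc s0 s (j - J - 1) (j + K + 1) (j - J + N)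
  fan : ∀ k ≤ N - 1, ∃ e, s.isE e ∧ e.lft = s0.vs j ∧ s.rgt e = s.vs (j - J + k)
  pure : ∀ k : ℕ, 0 < k → k + 1 < N → ∀ h : Eid × Bool, s.isE h.1 →
    s.hs h = s.vs (j - J + k) → s.ht h = s0.vs j ∨ ¬ s0.isV (s.ht h)
  tot : ∑' v, (δ v : ℝ≥0∞) ≤ (N + m : ℕ)
  int : ¬ s.expo (s0.vs j)
  c1 : ∀ v, s.isV v → ¬ s.expo v → v ≠ s0.vs j → (s.mst v).card ≤ κ v + δ v
  c2 : ∀ v, s.expo v → v ≠ s0.vs j → 2 * (s.mst v).card ≤ κ v + δ v + 6
  c4 : 2 * (s.mst (s0.vs j)).card + 2 ≤ κ (s0.vs j) + δ (s0.vs j) + N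

theorem ri_init (hi : Inv s0) (ci : CI s0 κ) (j : ℤ) : RI s0 κ j s0 0 0 10
    fun v => (if v = s0.vs j then 8 else 0) + if v = s0.vs (j + 1) then 2 else 0 := by
  refine ⟨by simpa using loc_refl hi j, fun k hk => by omega, fun k hk => by omega, ?_,
    fun v h1 h2 => ?_, fun v h1 _ => ?_, ?_, ?_⟩
  · push_cast
    rw [ENNReal.tsum_add, tsum_ite_eq, tsum_ite_eq]; norm_num
  · have := ci.int v h1 h2; omega
  · have := ci.ext v h1; omega
  · have := ci.ext _ ⟨j + 1, rfl⟩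
    simp only [if_true]; omega
  · have := ci.ext _ ⟨j, rfl⟩
    simp only [if_true]; omega

theorem RI.newedge (r : RI s0 κ j s N K m δ) {Q Q' : ℤ} (l : Loc s s' j Q Q') (hQ : Q ≤ j + N)
    {h : Eid × Bool} (h1 : s'.isE h.1) (h2 : ¬ s.isE h.1) :
    s'.ht h = s0.vs j ∨ ¬ s0.isV (s'.ht h) := by
  rcases (l.new.ends h1 h2).2 with ⟨i, ⟨a, b⟩, e⟩ | k
  · rw [← e]
    rcases a.lt_or_eq with a | rfl
    · exact Or.inr (r.loc.mid i a (by omega))
    · exact Or.inl r.loc.vp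
  · exact Or.inr fun k' => k (r.loc.ext.isV k')

theorem RI.new (r : RI s0 κ j s N K m δ) (hr : Reach s) :
    RI s0 κ j (s.stp j .new) (N + 1) K m fun v => δ v + if v = s0.vs j then 1 else 0 := by
  have l := loc_new hr j
  have hi := hr.inv
  have e0 : (s.stp j .new).vs (j + 1) = .apex (s.es j) := by
    change (s.mvA j).vs _ = _
    rw [mvA_vs, if_neg (by omega), if_pos rfl]
  have e1 : ∀ k : ℕ, (s.stp j .new).vs (j + 1 + (k + 1 : ℕ)) = s.vs (j + 1 + k) := by
    intro k; rw [l.vhi (by omega)]; congr 1; push_cast; ring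
  have hx := r.loc.vp
  have n1 : s.vs j ≠ s.vs (j + 1) := fun k => by have := hi.vinj k; omega
  have n2 : ∀ i, s.vs i ≠ .apex (s.es j) := fun i k => hi.nV j (k ▸ hi.vsV i)
  have z := hi.mst_zero (hi.nV j)
  have dg := mst_new hi j
  have ex : ∀ v, s.expo v → (s.stp j .new).expo v := by
    rintro v ⟨i, rfl⟩
    by_cases c : i ≤ j
    · exact ⟨i, l.vlo c⟩
    · exact ⟨i + 1, (l.vhi (by omega)).trans (by congr 1; ring)⟩
  refine ⟨r.loc.comp l le_rfl (by omega) (by omega) (by push_cast; omega), ?_, ?_, ?_, ?_, ?_,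
    ?_, ?_⟩
  · intro k hk
    rcases k with _ | k
    · exact ⟨.s2 (s.es j), (mvA_isE j _).2 (Or.inr (Or.inr rfl)), hx,
        (mvA_rgt2 j).trans (by simpa using e0.symm)⟩
    · obtain ⟨e, a1, a2, a3⟩ := r.fan k (by omega)
      exact ⟨e, l.ext.isE a1, a2, by rw [e1, l.ext.rgt e a1, a3]⟩
  · intro k hk h h1 h2
    by_cases o : s.isE h.1
    · rw [l.ext.hs o] at h2
      rw [l.ext.ht o]
      rcases k with _ | k
      · rw [Nat.cast_zero, add_zero, e0] at h2
        exact absurd (h2 ▸ hi.hsV o) (hi.nV j)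
      · exact r.pure k (by omega) h o (h2.trans (e1 k))
    · exact r.newedge l (by omega) h1 o
  · push_cast
    rw [ENNReal.tsum_add, tsum_ite_eq]
    refine (add_le_add r.tot le_rfl).trans (le_of_eq ?_)
    push_cast; ring
  · intro v h1 h2
    have a1 : s.vs j ≠ v := fun k => h2 (ex v ⟨_, k⟩)
    have a2 : s.vs (j + 1) ≠ v := fun k => h2 (ex v ⟨_, k⟩)
    have a3 : Vx.apex (s.es j) ≠ v := fun k => h2 ⟨_, e0.trans k⟩
    have a4 := r.c1 v (((mvA_isV j v).1 h1).resolve_right a3.symm) fun k => h2 (ex v k)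
    have := dg v
    rw [if_neg a1, if_neg a2, if_neg a3] at this
    change ((s.mvA j).mst v).card ≤ _
    omega
  · intro v h1 h2
    have := dg v
    change 2 * ((s.mvA j).mst v).card ≤ _
    rw [if_neg (show s.vs j ≠ v from fun k => h2 (k.symm.trans hx))] at this
    by_cases a3 : Vx.apex (s.es j) = v
    · subst a3
      rw [if_neg (n2 _), if_pos rfl] at this
      omega
    · rw [if_neg a3] at this
      by_cases a2 : s.vs (j + 1) = v
      · subst a2
        have := r.c3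
        simp only [if_true] at *
        omega
      · rw [if_neg a2] at this
        obtain ⟨i, hi'⟩ := h1
        have a4 : s.isV v := ((mvA_isV j v).1 (hi' ▸ l.inv'.vsV i)).resolve_right (Ne.symm a3)
        have := r.c2 v (l.expo a4 ⟨i, hi'⟩) h2
        omega
  · rw [e0]
    have := dg (.apex (s.es j))
    rw [if_neg (n2 _), if_neg (n2 _), if_pos rfl] at this
    change 2 * ((s.mvA j).mst _).card ≤ _
    omega
  · have := dg (s.vs j)
    have a := r.c4
    rw [if_pos rfl, if_neg n1.symm, if_neg (n2 j).symm, hx] at this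
    change 2 * ((s.mvA j).mst _).card + 2 ≤ _
    simp only [if_true]
    omega

def inc (a : Fill) : ℕ := 8 * a.sz + 8 * a.len + 20

theorem RI.right (r : RI s0 κ j s N K m δ) (hr : Reach s) {a : Fill} (ha : a.ok) :
    ∃ δ', RI s0 κ j (s.stp j (.right a)) (N - a.len) (K + (a.len - N)) (m + inc a) δ' := by
  have l := loc_right hr j ha
  have hi := hr.inv
  have hx := r.loc.vp
  obtain ⟨δ1, a1, a2, a3, a4, a5⟩ := l.credit (a.sz + 1) (a.len + 2) (n_right hr j ha).le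
    (by push_cast; ring) (fun v => κ v + δ v) (s0.vs j) N a.len r.c1 r.c2 r.c4
  have e1 : ∀ k : ℕ, (s.stp j (.right a)).vs (j + 1 + k) = s.vs (j + 1 + (k + a.len : ℕ)) := by
    intro k; rw [l.vhi (by omega)]; congr 1; push_cast; ring
  refine ⟨fun v => δ v + δ1 v, r.loc.comp l le_rfl (by omega) (by omega) (by omega), ?_, ?_, ?_,
    ?_, ?_, ?_, ?_⟩
  · intro k hk
    obtain ⟨e, b1, b2, b3⟩ := r.fan (k + a.len) (by omega)
    exact ⟨e, l.ext.isE b1, b2, by rw [e1, l.ext.rgt e b1, b3]⟩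
  · intro k hk h h1 h2
    by_cases o : s.isE h.1
    · rw [l.ext.hs o] at h2
      rw [l.ext.ht o]
      exact r.pure (k + a.len) (by omega) h o (h2.trans (e1 k))
    · exact r.newedge l (by omega) h1 o
  · simp only [Nat.cast_add (δ _)]
    rw [ENNReal.tsum_add]
    refine (add_le_add r.tot a1).trans ?_
    rw [← Nat.cast_add, Nat.cast_le, inc]
    omega
  · intro v h1 h2
    rw [← add_assoc]
    exact a2 v h1 h2 fun k => h2 ⟨j, l.vp.trans (hx.trans k.symm)⟩
  · intro v h1 h2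
    rw [← add_assoc]
    exact a3 v h1 h2
  · have e2 : (s.stp j (.right a)).vs (j + 1) = s.vs (j + a.len + 1) := by
      rw [l.vhi le_rfl]; congr 1; ring
    rw [e2]
    have := a4 fun k => by have := hi.vinj (k.trans hx.symm); omega
    omega
  · omega

theorem RI.left (r : RI s0 κ j s N K m δ) (hr : Reach s) {a : Fill} (ha : a.ok) :
    ∃ δ', RE s0 κ j (s.stp j (.left a)) N K (a.len - 1) (m + inc a) δ' := by
  have l := loc_left hr j ha
  have hi := hr.inv
  have hx := r.loc.vp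
  have hl := Fill.len_pos ha
  obtain ⟨δ1, a1, a2, a3, -, a5⟩ := l.credit (a.sz + 1) (a.len + 2) (n_left hr j ha).le
    (by push_cast; ring) (fun v => κ v + δ v) (s0.vs j) N 0 r.c1 r.c2 r.c4
  have e1 : ∀ k : ℕ, (s.stp j (.left a)).vs (j - (a.len - 1 : ℕ) + k) = s.vs (j + 1 + k) := by
    intro k; rw [l.vhi (by omega)]; congr 1; omega
  refine ⟨fun v => δ v + δ1 v, ?_, ?_, ?_, ?_, ?_, ?_, ?_, ?_⟩
  · rw [show j - (a.len - 1 : ℕ) - 1 = j - a.len by omega]
    exact r.loc.comp l (by omega) (by omega) (by omega) (by omega)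
  · intro k hk
    rw [e1]
    by_cases c : k < N
    · obtain ⟨e, b1, b2, b3⟩ := r.fan k c
      exact ⟨e, l.ext.isE b1, b2, by rw [l.ext.rgt e b1, b3]⟩
    · refine ⟨s.es j, l.ext.isE (hi.esE j), hx, ?_⟩
      rw [l.ext.rgt _ (hi.esE j), hi.rgtes, show k = 0 by omega]; simp
  · intro k h0 hk h h1 h2
    rw [e1] at h2
    have o := l.old_edge h1 (hi.vsV _) (hi.not_mem_seg (Or.inr (by omega))) (Or.inl h2)
    rw [l.ext.hs o] at h2
    rw [l.ext.ht o]
    exact r.pure k hk h o h2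
  · simp only [Nat.cast_add (δ _)]
    rw [ENNReal.tsum_add]
    refine (add_le_add r.tot a1).trans ?_
    rw [← Nat.cast_add, Nat.cast_le, inc]
    omega
  · rintro ⟨i, e⟩
    rw [← hx] at e
    rcases l.pos (e ▸ hi.vsV j) with ⟨b1, b2⟩ | ⟨b1, b2⟩ <;>
      have := hi.vinj (b2.symm.trans e) <;> omega
  · intro v h1 h2 h3
    rw [← add_assoc]
    exact a2 v h1 h2 h3
  · intro v h1 h2
    rw [← add_assoc]
    exact a3 v h1 h2
  · omega

theorem half_sub (N k : ℕ) : (2⁻¹ : ℝ≥0∞) ^ (N - k) ≤ 2 ^ k * 2⁻¹ ^ N := by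
  calc (2⁻¹ : ℝ≥0∞) ^ (N - k) = 2 ^ k * 2⁻¹ ^ (k + (N - k)) := by
        rw [pow_add, ← mul_assoc, half_pow, one_mul]
    _ ≤ _ := mul_le_mul_right (pow_le_pow_right_of_le_one' (by simp) (by omega)) _

theorem sub_half (N k : ℕ) : ((k - N : ℕ) : ℝ≥0∞) ≤ 2 ^ k * 2⁻¹ ^ N := by
  by_cases c : k ≤ N
  · simp [Nat.sub_eq_zero_of_le c]
  · obtain ⟨d, rfl⟩ := Nat.exists_eq_add_of_le (not_le.1 c).le
    rw [Nat.add_sub_cancel_left, pow_add, mul_right_comm, half_pow, one_mul]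
    exact_mod_cast (Nat.lt_two_pow_self (n := d)).le

theorem round (c : Ctx α μ) (g0 : Good α μ s0) (ci : CI s0 κ) (j : ℤ) (F : HalfPlane → ℝ≥0∞)
    (b0 Z Zc Zd B η cb : ℝ≥0∞)
    (hM : ∑' a, bw (pa α) (pb α) a * (2 ^ a.len * (1 + inc a) : ℕ) ≤ ph α * B)
    (hη : ∑' a, bw (pa α) (pb α) a * (a.len - 1 : ℕ) ≤ ph α * η)
    (hcb : 2⁻¹ * cb + ph α * B * (1 + cb + Zd) ≤ cb)
    (fin : ∀ s N K J m δ, Good α μ s → RE s0 κ j s N K J m δ →
      Bd α μ s F (b0 + J + K + (Z + m * Zc + (1 + m) * Zd * 2⁻¹ ^ N))) :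
    Bd α μ s0 F (b0 + (Z + η + (2 * B + 10) * Zc + 11 * cb)) := by
  set ca := Z + η + 2 * B * Zc with hca
  refine (Bd.loop c (X := St × ℕ × ℕ × ℕ × (Vx → ℕ)) (fun x => x.1) (fun _ => 0)
    (fun x => b0 + x.2.2.1 + x.2.2.2.1 * Zc + ca + (1 + x.2.2.2.1) * 2⁻¹ ^ x.2.1 * cb)
    (fun x => Good α μ x.1 ∧ RI s0 κ j x.1 x.2.1 x.2.2.1 x.2.2.2.1 x.2.2.2.2) (fun x hx => hx.1)
    ?_ (s0, 0, 0, 10, _) ⟨g0, ri_init g0.reach.inv ci j⟩).le (le_of_eq ?_)
  swap
  · simp only [hca]; push_cast; ring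
  rintro ⟨s, N, K, m, δ⟩ ⟨g, r⟩
  simp only at g r ⊢
  right
  have hr := g.reach
  set b1 := b0 + K + m * Zc with hb1
  set w : ℝ≥0∞ := (1 + m) * 2⁻¹ ^ N with hw
  have y1 : ∀ a : Fill, (inc a : ℝ≥0∞) ≤ (2 ^ a.len * (1 + inc a) : ℕ) := fun a => by
    have := Nat.lt_two_pow_self (n := a.len)
    exact Nat.cast_le.2 (by nlinarith)
  have y2 : ∀ a : Fill, (1 + (m + inc a : ℕ) : ℝ≥0∞) * 2 ^ a.len ≤
      (1 + m) * (2 ^ a.len * (1 + inc a) : ℕ) := fun a => by
    have : (1 + (m + inc a)) * 2 ^ a.len ≤ (1 + m) * (2 ^ a.len * (1 + inc a)) := by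
      rw [mul_left_comm, mul_comm]; exact Nat.mul_le_mul_left _ (by nlinarith)
    exact_mod_cast this
  refine ⟨j, Step.cas (b1 + ca + w * (2⁻¹ * cb))
    (fun a => b1 + ca + (2 ^ a.len * (1 + inc a) : ℕ) * (Zc + w * (1 + cb)))
    (fun a => b1 + Z + (a.len - 1 : ℕ) + (2 ^ a.len * (1 + inc a) : ℕ) * (Zc + w * Zd)),
    fun σ hσ => ?_, ?_⟩
  · cases σ with
    | new =>
      refine Or.inr ⟨(_, _, _, _, _), ⟨c.good_step g j hσ, r.new hr⟩, rfl, le_rfl, False.elim,
        le_of_eq ?_⟩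
      simp only [Step.cas, hb1, hw]; ring
    | right a =>
      obtain ⟨δ', r'⟩ := r.right hr hσ
      refine Or.inr ⟨(_, _, _, _, δ'), ⟨c.good_step g j hσ, r'⟩, rfl, le_rfl, False.elim, ?_⟩
      simp only [Step.cas]
      have y3 : (2 : ℝ≥0∞) ^ a.len ≤ (1 + m) * (2 ^ a.len * (1 + inc a) : ℕ) :=
        le_trans (le_mul_of_one_le_left' le_self_add) (y2 a)
      calc _ = b1 + ca + (a.len - N : ℕ) + inc a * Zc +
            (1 + (m + inc a : ℕ)) * 2⁻¹ ^ (N - a.len) * cb := by rw [hb1]; push_cast; ring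
        _ ≤ b1 + ca + 2 ^ a.len * 2⁻¹ ^ N + inc a * Zc +
            (1 + (m + inc a : ℕ)) * (2 ^ a.len * 2⁻¹ ^ N) * cb := by
            gcongr
            exacts [sub_half _ _, half_sub _ _]
        _ ≤ b1 + ca + (1 + m) * (2 ^ a.len * (1 + inc a) : ℕ) * 2⁻¹ ^ N +
            (2 ^ a.len * (1 + inc a) : ℕ) * Zc +
            (1 + m) * (2 ^ a.len * (1 + inc a) : ℕ) * 2⁻¹ ^ N * cb := by
            rw [← mul_assoc _ (2 ^ a.len)]
            have y4 := y1 a
            have y5 := y2 a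
            gcongr _ + ?_ * _ + ?_ * _ + ?_ * _ * _
        _ = _ := by rw [hw]; ring
    | left a =>
      obtain ⟨δ', r'⟩ := r.left hr hσ
      refine Or.inl ((fin _ _ _ _ _ δ' (c.good_step g j hσ) r').le ?_)
      simp only [Step.cas]
      have y3 : (1 + (m + inc a : ℕ) : ℝ≥0∞) ≤ (1 + m) * (2 ^ a.len * (1 + inc a) : ℕ) :=
        le_trans (le_mul_of_one_le_right' (one_le_pow₀ one_le_two)) (y2 a)
      calc _ = b1 + Z + (a.len - 1 : ℕ) + inc a * Zc +
            (1 + (m + inc a : ℕ)) * (2⁻¹ ^ N * Zd) := by rw [hb1]; push_cast; ring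
        _ ≤ b1 + Z + (a.len - 1 : ℕ) + (2 ^ a.len * (1 + inc a) : ℕ) * Zc +
            (1 + m) * (2 ^ a.len * (1 + inc a) : ℕ) * (2⁻¹ ^ N * Zd) := by
            have y4 := y1 a
            gcongr _ + ?_ * _ + ?_ * _
        _ = _ := by rw [hw]; ring
  · rw [tsum_cas]
    simp only [mul_add (bw _ _ _), ← mul_assoc (bw _ _ _), ENNReal.tsum_add,
      ENNReal.tsum_mul_right, c.tutte.1]
    have hpa : pa α ≤ 1 := c.sum_one ▸ (le_self_add.trans le_self_add)
    change pa α * _ + (ph α * b1 + ph α * ca + _) + (ph α * b1 + ph α * Z + _ + _) ≤ _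
    calc _ ≤ pa α * (b1 + ca) + 1 * (w * (2⁻¹ * cb)) +
          (ph α * b1 + ph α * ca + ph α * B * (Zc + w * (1 + cb))) +
          (ph α * b1 + ph α * Z + ph α * η + ph α * B * (Zc + w * Zd)) := by
          rw [mul_add (pa α)]; gcongr
      _ = (pa α + ph α + ph α) * (b1 + ca) + w * (2⁻¹ * cb + ph α * B * (1 + cb + Zd)) := by
          rw [hca]; ring
      _ ≤ _ := by rw [c.sum_one, one_mul]; gcongr

end Pool.Agent.MP_7a2e76_pr

end
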