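import Pool.Agent.MP_7a2e76_pr.Mg.Round
import Pool.Agent.MP_7a2e76_pr.Graph

-- part MP_7a2e76_pr.Flow
section

/-! A tree-like flow explored depth first bounds the resistance from an exposed vertex. -/

namespace Pool.Agent.MP_7a2e76_pr

open Set MeasureTheory Filter Topology
open scoped ENNReal
open St Fill

variable {α : ℝ} {μ : Measure HalfPlane} {s s' s'' : St} {τ : NNReal}

def Pres (s s' : St) (a : ℤ) : Prop := ∃ p : ℤ, ∀ t : ℕ, s'.vs (p + t) = s.vs (a + t)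

theorem Pres.refl (s : St) (a : ℤ) : Pres s s a := ⟨a, fun _ => rfl⟩

theorem Pres.mono {a a' : ℤ} (h : Pres s s' a) (ha : a ≤ a') : Pres s s' a' := by
  obtain ⟨p, hp⟩ := h
  refine ⟨p + (a' - a).toNat, fun t => ?_⟩
  rw [add_assoc, ← Nat.cast_add, hp]
  congr 1; push_cast; omega

theorem Pres.trans' {a p : ℤ} (hp : ∀ t : ℕ, s'.vs (p + t) = s.vs (a + t)) (d : ℕ)
    (h : Pres s' s'' (p + d)) : Pres s s'' (a + d) := by
  obtain ⟨p', hp'⟩ := h
  refine ⟨p', fun t => ?_⟩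
  rw [hp', add_assoc, ← Nat.cast_add, hp]
  congr 1; push_cast; ring

theorem St.Loc.pres {p q q' : ℤ} (l : Loc s s' p q q') : Pres s s' q :=
  ⟨q', fun t => (l.vhi (by omega)).trans (by congr 1; ring)⟩

def NewS (s s' : St) (ES : Finset Eid) (VS : Finset Vx) : Prop :=
  (∀ e ∈ ES, s'.isE e ∧ ¬ s.isE e) ∧ (∀ w ∈ VS, s'.isV w ∧ ¬ s.isV w)

theorem mEn_ext (e : s.Ext s') {ES : Finset Eid} (h : ∀ x ∈ ES, s.isE x) (VS : Finset Vx)
    (φ : Vx → ℝ) : s'.mEn τ ES VS φ = s.mEn τ ES VS φ := by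
  simp only [St.mEn]
  congr 1
  exact Finset.sum_congr rfl fun x hx => by rw [e.rgt x (h x hx)]

theorem mEn_union {ES ES' : Finset Eid} {VS VS' : Finset Vx} (h1 : Disjoint ES ES')
    (h2 : Disjoint VS VS') (φ : Vx → ℝ) :
    s.mEn τ (ES ∪ ES') (VS ∪ VS') φ = s.mEn τ ES VS φ + s.mEn τ ES' VS' φ := by
  simp only [St.mEn, Finset.sum_union h1, Finset.sum_union h2]; ring

theorem mEn_smul (ES : Finset Eid) (VS : Finset Vx) (c : ℝ) (φ : Vx → ℝ) :
    s.mEn τ ES VS (fun v => c * φ v) = c ^ 2 * s.mEn τ ES VS φ := by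
  simp only [St.mEn, ← mul_sub, mul_pow, ← Finset.mul_sum]; ring

def Res (τ : NNReal) (s s' : St) (v : Vx) (R : ℝ) : Prop :=
  ∃ ES VS, NewS s s' ES VS ∧ ∀ φ : Vx → ℝ, 2 * φ v ≤ R + s'.mEn τ ES VS φ + τ * φ v ^ 2

def EX (α : ℝ) (μ : Measure HalfPlane) (τ : NNReal) (γ u : ℝ≥0∞) (R : ℝ) : Prop :=
  ∀ (s : St) (j : ℤ) (F : HalfPlane → ℝ≥0∞) (b0 b : ℝ≥0∞), Good α μ s →
    (∀ (s' : St) (c : ℕ), Good α μ s' → s.Ext s' → Pres s s' (j + 1 + c) →
      (c = 0 → Res τ s s' (s.vs j) R) → Bd α μ s' F (b0 + b * γ ^ c)) →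
    Bd α μ s F (b0 + b * (1 + u))

variable {γ u : ℝ≥0∞} {R : ℝ}

theorem ex_zero (hτ : 0 < τ) : EX α μ τ γ u (τ : ℝ)⁻¹ := by
  intro s j F b0 b g h
  refine (h s 0 g (Ext.refl s) (Pres.refl s _) fun _ => ⟨∅, ∅, ⟨by simp, by simp⟩, fun φ => ?_⟩).le
    (by rw [pow_zero]; gcongr; exact le_self_add)
  have hτ' : (0 : ℝ) < τ := hτ
  simp only [St.mEn, Finset.sum_empty, mul_zero, add_zero]
  have : (τ : ℝ)⁻¹ + τ * φ (s.vs j) ^ 2 - 2 * φ (s.vs j) = (τ * φ (s.vs j) - 1) ^ 2 / τ := by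
    field_simp; ring
  have h2 : 0 ≤ (τ * φ (s.vs j) - 1) ^ 2 / (τ : ℝ) := by positivity
  linarith

theorem EX.mono (h : EX α μ τ γ u R) {R' : ℝ} (hR : R ≤ R') : EX α μ τ γ u R' := by
  intro s j F b0 b g k
  refine h s j F b0 b g fun s' c g' e p r => k s' c g' e p fun hc => ?_
  obtain ⟨ES, VS, a, b⟩ := r hc
  exact ⟨ES, VS, a, fun φ => by have := b φ; linarith⟩

/-- progress of the exploration of the children sitting at positions `p, p+1, …` of `s1` -/
def KP (τ : NNReal) (R : ℝ) (s1 s : St) (p : ℤ) (n0 i C : ℕ) : Prop :=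
  s1.Ext s ∧ Pres s1 s (p + i) ∧ i ≤ n0 + C ∧ ∃ (Sx : Finset ℕ) (ES : Finset Eid) (VS : Finset Vx),
    (∀ k ∈ Sx, k < i ∧ k < n0) ∧ i ≤ Sx.card + 2 * C ∧ NewS s1 s ES VS ∧
    ∀ φ : Vx → ℝ, ∑ k ∈ Sx, 2 * φ (s1.vs (p + k)) ≤
      Sx.card * R + s.mEn τ ES VS φ + τ * ∑ k ∈ Sx, φ (s1.vs (p + k)) ^ 2

theorem kids (h : EX α μ τ γ u R) (s1 : St) (p : ℤ) (n0 : ℕ) (F : HalfPlane → ℝ≥0∞)
    (b0 b : ℝ≥0∞) (fin : ∀ s i C, Good α μ s → KP τ R s1 s p n0 i C → n0 ≤ i →
      Bd α μ s F (b0 + b * γ ^ C)) (rem : ℕ) :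
    ∀ s i C, Good α μ s → KP τ R s1 s p n0 i C → n0 ≤ i + rem →
      Bd α μ s F (b0 + b * γ ^ C * (1 + u) ^ rem) := by
  classical
  induction rem with
  | zero => intro s i C g k hn; simpa using fin s i C g k hn
  | succ rem ih =>
    intro s i C g k hn
    by_cases h0 : n0 ≤ i
    · exact (fin s i C g k h0).le (add_le_add le_rfl
        (le_mul_of_one_le_right' (one_le_pow₀ le_self_add)))
    obtain ⟨k1, ⟨p', hp'⟩, k3, Sx, ES, VS, k4, k5, k6, k7⟩ := k
    rw [pow_succ, ← mul_assoc]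
    refine h s p' F b0 _ g fun s' c g' e pr r => ?_
    refine (ih s' (i + 1 + c) (C + c) g' ⟨k1.trans e, ?_, by omega, ?_⟩ (by omega)).le
      (le_of_eq (by rw [pow_add]; ring))
    · have := Pres.trans' hp' (1 + c) (by rwa [Nat.cast_add, ← add_assoc])
      rwa [add_assoc, ← Nat.cast_add, ← add_assoc] at this
    · have hE : ∀ x ∈ ES, s.isE x := fun x hx => (k6.1 x hx).1
      by_cases hc : c = 0
      · obtain ⟨ES', VS', a1, a2⟩ := r hc
        have hv : s.vs p' = s1.vs (p + i) := by simpa using hp' 0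
        have hi : i ∉ Sx := fun k => by have := (k4 i k).1; omega
        refine ⟨insert i Sx, ES ∪ ES', VS ∪ VS', ?_, ?_, ⟨?_, ?_⟩, fun φ => ?_⟩
        · intro k hk
          rcases Finset.mem_insert.1 hk with rfl | hk
          · omega
          · have := k4 k hk; omega
        · rw [Finset.card_insert_of_notMem hi]; omega
        · intro x hx
          rcases Finset.mem_union.1 hx with hx | hx
          · exact ⟨e.isE (hE x hx), (k6.1 x hx).2⟩
          · exact ⟨(a1.1 x hx).1, fun k => (a1.1 x hx).2 (k1.isE k)⟩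
        · intro x hx
          rcases Finset.mem_union.1 hx with hx | hx
          · exact ⟨e.isV (k6.2 x hx).1, (k6.2 x hx).2⟩
          · exact ⟨(a1.2 x hx).1, fun k => (a1.2 x hx).2 (k1.isV k)⟩
        · rw [mEn_union (Finset.disjoint_left.2 fun x h1 h2 => (a1.1 x h2).2 (hE x h1))
            (Finset.disjoint_left.2 fun x h1 h2 => (a1.2 x h2).2 (k6.2 x h1).1),
            mEn_ext e hE, Finset.sum_insert hi, Finset.sum_insert hi,
            Finset.card_insert_of_notMem hi]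
          have b1 := k7 φ
          have b2 := a2 φ
          rw [hv] at b2
          push_cast
          linarith
      · refine ⟨Sx, ES, VS, fun k hk => by have := k4 k hk; omega, by omega,
          ⟨fun x hx => ⟨e.isE (hE x hx), (k6.1 x hx).2⟩,
            fun x hx => ⟨e.isV (k6.2 x hx).1, (k6.2 x hx).2⟩⟩, fun φ => ?_⟩
        rw [mEn_ext e hE]; exact k7 φ

theorem kp_init (s1 : St) (p : ℤ) (n0 : ℕ) : KP τ R s1 s1 p n0 0 0 :=
  ⟨Ext.refl s1, Pres.refl _ _, by omega, ∅, ∅, ∅, by simp, by simp, ⟨by simp, by simp⟩,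
    fun φ => by simp [St.mEn]⟩

/-- combine the flows of the successful children -/
theorem combine {s1 : St} (hi : Inv s1) {p : ℤ} {n0 i C : ℕ} (k : KP τ R s1 s p n0 i C)
    (hn : n0 ≤ i) (x : Vx) (PE : Eid → Prop) (PV : Vx → Prop)
    (hE : ∀ e, ¬ s1.isE e → PE e) (hV : ∀ v, ¬ s1.isV v → PV v)
    (hch : ∀ k < n0, PV (s1.vs (p + k)) ∧
      ∃ e, s1.isE e ∧ PE e ∧ e.lft = x ∧ s1.rgt e = s1.vs (p + k))
    (M : ℝ) (hM0 : 0 < M) (hM : M + 2 * C ≤ n0) (hR : 0 ≤ R) :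
    ∃ ES VS, (∀ e ∈ ES, s.isE e ∧ PE e) ∧ (∀ v ∈ VS, s.isV v ∧ PV v) ∧
      ∀ φ : Vx → ℝ, 2 * φ x ≤ (1 + R) / M + s.mEn τ ES VS φ := by
  classical
  obtain ⟨k1, _, _, Sx, ES, VS, k4, k5, k6, k7⟩ := k
  have : ∀ k : ℕ, ∃ e, k < n0 → s1.isE e ∧ PE e ∧ e.lft = x ∧ s1.rgt e = s1.vs (p + k) := by
    intro k
    by_cases hk : k < n0
    · obtain ⟨e, he⟩ := (hch k hk).2; exact ⟨e, fun _ => he⟩
    · exact ⟨.orig 0, fun h => absurd h hk⟩
  choose ε hε using this
  have inj2 : InjOn (fun k : ℕ => s1.vs (p + k)) Sx := fun a _ b _ e => by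
    have := hi.vinj e; omega
  have inj1 : InjOn ε Sx := fun a ha b hb e => inj2 ha hb (by
    simp only
    rw [← (hε a (k4 a ha).2).2.2.2, ← (hε b (k4 b hb).2).2.2.2, e])
  have hm : M ≤ Sx.card := by
    have : (n0 : ℝ) ≤ Sx.card + 2 * C := by exact_mod_cast hn.trans k5
    linarith
  have hm0 : (0 : ℝ) < Sx.card := hM0.trans_le hm
  refine ⟨ES ∪ Sx.image ε, VS ∪ Sx.image fun k : ℕ => s1.vs (p + k), ?_, ?_, fun φ => ?_⟩
  · intro e he
    rcases Finset.mem_union.1 he with he | he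
    · exact ⟨(k6.1 e he).1, hE e (k6.1 e he).2⟩
    · obtain ⟨a, ha, rfl⟩ := Finset.mem_image.1 he
      exact ⟨k1.isE (hε a (k4 a ha).2).1, (hε a (k4 a ha).2).2.1⟩
  · intro e he
    rcases Finset.mem_union.1 he with he | he
    · exact ⟨(k6.2 e he).1, hV e (k6.2 e he).2⟩
    · obtain ⟨a, ha, rfl⟩ := Finset.mem_image.1 he
      exact ⟨k1.isV (hi.vsV _), (hch a (k4 a ha).2).1⟩
  · rw [mEn_union (Finset.disjoint_left.2 fun e h1 h2 => by
        obtain ⟨a, ha, rfl⟩ := Finset.mem_image.1 h2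
        exact (k6.1 _ h1).2 (hε a (k4 a ha).2).1)
      (Finset.disjoint_left.2 fun e h1 h2 => by
        obtain ⟨a, ha, rfl⟩ := Finset.mem_image.1 h2
        exact (k6.2 _ h1).2 (hi.vsV _))]
    have e1 : s.mEn τ (Sx.image ε) (Sx.image fun k : ℕ => s1.vs (p + k)) φ =
        ∑ k ∈ Sx, (φ x - φ (s1.vs (p + k))) ^ 2 + τ * ∑ k ∈ Sx, φ (s1.vs (p + k)) ^ 2 := by
      rw [St.mEn, Finset.sum_image inj1, Finset.sum_image inj2]
      congr 1
      refine Finset.sum_congr rfl fun a ha => ?_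
      obtain ⟨a1, _, a3, a4⟩ := hε a (k4 a ha).2
      rw [k1.rgt _ a1, a3, a4]
    rw [e1]
    set m : ℝ := (Sx.card : ℝ) with hmd
    have b1 := k7 fun v => m * φ v
    rw [mEn_smul] at b1
    simp only [mul_pow, ← Finset.mul_sum, mul_left_comm (2 : ℝ) m] at b1
    have b2 : ∑ k ∈ Sx, 2 * m * (φ x - φ (s1.vs (p + k))) ≤
        ∑ k ∈ Sx, (1 + m ^ 2 * (φ x - φ (s1.vs (p + k))) ^ 2) :=
      Finset.sum_le_sum fun k _ => by nlinarith [sq_nonneg (m * (φ x - φ (s1.vs (p + k))) - 1)]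
    simp only [Finset.sum_add_distrib, ← Finset.mul_sum, Finset.sum_sub_distrib,
      Finset.sum_const, nsmul_eq_mul, mul_one, ← hmd] at b2
    have b3 : (1 + R) / m ≤ (1 + R) / M := div_le_div_of_nonneg_left (by linarith) hM0 hm
    have b4 : 2 * φ x ≤ (1 + R) / m + (s.mEn τ ES VS φ +
        (∑ k ∈ Sx, (φ x - φ (s1.vs (p + k))) ^ 2 + τ * ∑ k ∈ Sx, φ (s1.vs (p + k)) ^ 2)) := by
      rw [← sub_le_iff_le_add, le_div_iff₀ hm0]
      refine le_of_mul_le_mul_left ?_ hm0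
      nlinarith
    linarith

theorem ex_succ (c : Ctx α μ) (h : EX α μ τ γ u R) (hR : 0 ≤ R) (K : ℕ) (hK : 1 ≤ K)
    (γi u0 : ℝ≥0∞) (hγ : γi * γ = 1)
    (h0 : ∑' A, bw (pa α) (pb α) A * γ ^ A.len + ph α * γ ≤ u0)
    (hu : γi * (1 + u) ^ (K + 2) + (K + 3 : ℕ) * u0 ≤ u) : EX α μ τ γ u ((1 + R) / K) := by
  intro s0 j F b0 b g0 cont
  have key : ∀ rem i : ℕ, i + rem = K + 3 → ∀ s, Good α μ s → s0.Ext s → s.vs j = s0.vs j →
      (∀ t : ℕ, s.vs (j + 1 + i + t) = s0.vs (j + 1 + t)) →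
      (∀ k < i, ¬ s0.isV (s.vs (j + 1 + k)) ∧
        ∃ e, s.isE e ∧ ¬ s0.isE e ∧ e.lft = s0.vs j ∧ s.rgt e = s.vs (j + 1 + k)) →
      Bd α μ s F (b0 + b * (1 + γi * (1 + u) ^ (K + 2) + rem * u0)) := by
    intro rem
    induction rem with
    | zero =>
      intro i hi s g e v1 v2 ch
      refine (kids h s (j + 1) (K + 2) F (b0 + b) (b * γi) ?_ (K + 2) s 0 0 g (kp_init _ _ _)
        (by omega)).le (le_of_eq (by simp; ring))
      intro s' i' C g' k hn
      have pr : Pres s0 s' (j + 1 + (C - 1 : ℕ)) :=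
        Pres.trans' v2 (C - 1) (k.2.1.mono (by have := k.2.2.1; omega))
      refine (cont s' (C - 1) g' (e.trans k.1) pr fun hc => ?_).le ?_
      · obtain ⟨ES, VS, a1, a2, a3⟩ := combine g.reach.inv k hn (s0.vs j) (fun e => ¬ s0.isE e)
          (fun v => ¬ s0.isV v) (fun x hx k => hx (e.isE k)) (fun x hx k => hx (e.isV k))
          (fun k hk => ch k (by omega)) K (by exact_mod_cast hK)
          (by have : K + 2 * C ≤ K + 2 := by omega
              exact_mod_cast this) hR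
        refine ⟨ES, VS, ⟨a1, a2⟩, fun φ => (a3 φ).trans ?_⟩
        have : (0 : ℝ) ≤ τ * φ (s0.vs j) ^ 2 := by positivity
        linarith
      · rw [add_assoc]
        refine add_le_add le_rfl ?_
        rcases C with _ | C
        · simp
        · rw [Nat.add_sub_cancel, pow_succ]
          refine le_trans (le_of_eq ?_) le_add_self
          calc b * γ ^ C = b * γ ^ C * (γi * γ) := by rw [hγ, mul_one]
            _ = _ := by ring
    | succ rem ih =>
      intro i hi s g e v1 v2 ch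
      have hr := g.reach
      refine (Bd.step c g j (Step.cas (b0 + b * (1 + γi * (1 + u) ^ (K + 2) + rem * u0))
        (fun A => b0 + b * γ ^ A.len) (fun _ => b0 + b * γ ^ 1)) ?_).le ?_
      · intro σ hσ
        cases σ with
        | new =>
          have l := loc_new hr j
          refine ih (i + 1) (by omega) _ (c.good_step g j hσ) (e.trans l.ext) (l.vp.trans v1)
            (fun t => ?_) (fun k hk => ?_)
          · rw [l.vhi (by omega), ← v2]; congr 1; push_cast; ring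
          · rcases k with _ | k
            · have e1 : (s.stp j .new).vs (j + 1 + (0 : ℕ)) = .apex (s.es j) := by
                change (s.mvA j).vs _ = _
                rw [mvA_vs, if_neg (by omega), if_pos (by omega)]
              rw [e1]
              exact ⟨fun k => hr.inv.nV j (e.isV k), .s2 (s.es j),
                (mvA_isE j _).2 (Or.inr (Or.inr rfl)), fun k => hr.inv.n2 j (e.isE k), v1,
                mvA_rgt2 j⟩
            · have e1 : (s.stp j .new).vs (j + 1 + (k + 1 : ℕ)) = s.vs (j + 1 + k) := by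
                rw [l.vhi (by omega)]; congr 1; push_cast; ring
              obtain ⟨a1, x, a2, a3, a4, a5⟩ := ch k (by omega)
              rw [e1]
              exact ⟨a1, x, l.ext.isE a2, a3, a4, (l.ext.rgt x a2).trans a5⟩
        | right A =>
          have l := loc_right hr j hσ
          have := Fill.len_pos hσ
          exact cont _ A.len (c.good_step g j hσ) (e.trans l.ext)
            (Pres.trans' v2 A.len (l.pres.mono (by omega))) fun k => by omega
        | left A =>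
          have l := loc_left hr j hσ
          exact cont _ 1 (c.good_step g j hσ) (e.trans l.ext)
            (Pres.trans' v2 1 (l.pres.mono (by omega))) fun k => by omega
      · rw [tsum_cas]
        simp only [mul_add (bw _ _ _), ENNReal.tsum_add, ENNReal.tsum_mul_right,
          mul_left_comm (bw _ _ _) b, ENNReal.tsum_mul_left, c.tutte.1]
        have hpa : pa α ≤ 1 := c.sum_one ▸ (le_self_add.trans le_self_add)
        change pa α * _ + (ph α * b0 + _) + (ph α * b0 + b * (ph α * _)) ≤ _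
        calc _ = (pa α + ph α + ph α) * b0 + pa α * (b * (1 + γi * (1 + u) ^ (K + 2) + rem * u0)) +
              b * (∑' A, bw (pa α) (pb α) A * γ ^ A.len + ph α * γ) := by ring
          _ ≤ 1 * b0 + 1 * (b * (1 + γi * (1 + u) ^ (K + 2) + rem * u0)) + b * u0 := by
              rw [c.sum_one]; gcongr
          _ = _ := by push_cast; ring
  refine (key (K + 3) 0 (by omega) s0 g0 (Ext.refl _) rfl (fun t => by simp)
    (fun k hk => by omega)).le ?_
  rw [add_assoc (1 : ℝ≥0∞)]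
  gcongr

theorem ex_final (c : Ctx α μ) (hτ : 0 < τ) (K : ℕ) (hK : 2 ≤ K)
    (γi u0 : ℝ≥0∞) (hγ : γi * γ = 1)
    (h0 : ∑' A, bw (pa α) (pb α) A * γ ^ A.len + ph α * γ ≤ u0)
    (hu : γi * (1 + u) ^ (K + 2) + (K + 3 : ℕ) * u0 ≤ u) : EX α μ τ γ u (3 / K) := by
  have hK' : (2 : ℝ) ≤ K := by exact_mod_cast hK
  have hτ' : (0 : ℝ) < τ := hτ
  have key : ∀ m : ℕ, EX α μ τ γ u (2 / K + (τ : ℝ)⁻¹ * 2⁻¹ ^ m) := by
    intro m
    induction m with
    | zero => exact (ex_zero hτ).mono (by simp; positivity)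
    | succ m ih =>
      refine (ex_succ c ih (by positivity) K (by omega) γi u0 hγ h0 hu).mono ?_
      rw [div_le_iff₀ (by linarith), pow_succ]
      have a1 : 2 / (K : ℝ) ≤ 1 := by rw [div_le_one (by linarith)]; exact hK'
      have a2 : 2 / (K : ℝ) * K = 2 := by field_simp
      have a3 : (0 : ℝ) ≤ (τ : ℝ)⁻¹ * 2⁻¹ ^ m := by positivity
      nlinarith
  have ht : Tendsto (fun m : ℕ => (τ : ℝ)⁻¹ * 2⁻¹ ^ m) atTop (𝓝 ((τ : ℝ)⁻¹ * 0)) :=
    (tendsto_pow_atTop_nhds_zero_of_lt_one (by norm_num) (by norm_num)).const_mul _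
  rw [mul_zero] at ht
  obtain ⟨m, hm⟩ := ((tendsto_order.1 ht).2 (1 / K) (by positivity)).exists
  refine (key m).mono ?_
  have : (3 : ℝ) / K = 2 / K + 1 / K := by ring
  linarith

end Pool.Agent.MP_7a2e76_pr

end

-- part MP_7a2e76_pr.Top
section

/-! Resistance from a vertex with many exposed children. -/

namespace Pool.Agent.MP_7a2e76_pr

open Set MeasureTheory Filter Topology
open scoped ENNReal
open St Fill

variable {α : ℝ} {μ : Measure HalfPlane} {s s' : St} {τ : NNReal} {H : HalfPlane}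
  {γ : ℝ≥0∞} {R : ℝ}

theorem Rl.resist_le (r : Rl s H) {ES : Finset Eid} {VS : Finset Vx} (hE : ∀ e ∈ ES, s.isE e)
    (hV : ∀ v ∈ VS, s.isV v) {x : Vx}
    (h : ∀ φ : Vx → ℝ, 2 * φ x ≤ R + s.mEn τ ES VS φ) :
    H.mg.resist τ (H.psi x) ≤ ENNReal.ofReal R := by
  refine H.mg.resist_le_iff.2 fun φ => ?_
  refine (ENNReal.ofReal_le_ofReal (h fun v => φ (H.psi v))).trans
    (ENNReal.ofReal_add_le.trans ?_)
  exact add_le_add le_rfl (r.energy τ ES VS hE hV φ)

theorem Res.resist_le {v : Vx} (h : Res τ s s' v R) (e : s.Ext s') (hv : s.isV v)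
    (r : Rl s' H) : H.mg.resist τ (H.psi v) ≤ ENNReal.ofReal R := by
  obtain ⟨ES, VS, a, b⟩ := h
  have hn : v ∉ VS := fun k => (a.2 v k).2 hv
  refine r.resist_le (ES := ES) (VS := insert v VS) (fun x hx => (a.1 x hx).1) ?_ fun φ => ?_
  · intro w hw
    rcases Finset.mem_insert.1 hw with rfl | hw
    exacts [e.isV hv, (a.2 w hw).1]
  · have := b φ
    simp only [St.mEn, Finset.sum_insert hn] at this ⊢
    linarith

theorem res_zero (hτ : 0 < τ) (s : St) (v : Vx) : Res τ s s v (τ : ℝ)⁻¹ := by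
  refine ⟨∅, ∅, ⟨by simp, by simp⟩, fun φ => ?_⟩
  have hτ' : (0 : ℝ) < τ := hτ
  simp only [St.mEn, Finset.sum_empty, mul_zero, add_zero]
  have : (τ : ℝ)⁻¹ + τ * φ v ^ 2 - 2 * φ v = (τ * φ v - 1) ^ 2 / τ := by
    field_simp; ring
  have h2 : 0 ≤ (τ * φ v - 1) ^ 2 / (τ : ℝ) := by positivity
  linarith

theorem Rl.resist_path (r : Rl s H) {ES : Finset Eid} (hE : ∀ e ∈ ES, s.isE e) {v w : Vx}
    (l : ℕ) (h : ∀ φ : Vx → ℝ, 2 * φ v ≤ 2 * φ w + (2 * l + 2⁻¹ * s.mEn τ ES ∅ φ)) :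
    H.mg.resist τ (H.psi v) ≤ 2 * l + 2 * H.mg.resist τ (H.psi w) := by
  refine H.mg.resist_le_iff.2 fun φ => ?_
  refine (ENNReal.ofReal_le_ofReal (h fun v => φ (H.psi v))).trans
    (ENNReal.ofReal_add_le.trans ?_)
  have h1 := H.mg.resist_half τ (H.psi w) φ
  have h2 := r.energy τ ES ∅ hE (by simp) φ
  have h3 : ENNReal.ofReal (2 * l + 2⁻¹ * s.mEn τ ES ∅ fun v => φ (H.psi v)) ≤
      2 * l + 2⁻¹ * H.mg.En τ φ := by
    refine ENNReal.ofReal_add_le.trans (add_le_add (le_of_eq ?_) ?_)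
    · rw [ENNReal.ofReal_mul zero_le_two]; simp
    · rw [ENNReal.ofReal_mul (by positivity), ENNReal.ofReal_inv_of_pos two_pos,
        ENNReal.ofReal_ofNat]
      gcongr
  calc _ ≤ (2 * H.mg.resist τ (H.psi w) + 2⁻¹ * H.mg.En τ φ) + (2 * l + 2⁻¹ * H.mg.En τ φ) :=
        add_le_add h1 h3
    _ = 2 * l + 2 * H.mg.resist τ (H.psi w) + (2⁻¹ + 2⁻¹) * H.mg.En τ φ := by ring
    _ = _ := by rw [ENNReal.inv_two_add_inv_two, one_mul]

theorem Rl.resist_edge (r : Rl s H) {e : Eid} (he : s.isE e) :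
    H.mg.resist τ (H.psi e.lft) ≤ 2 * (1 : ℕ) + 2 * H.mg.resist τ (H.psi (s.rgt e)) := by
  refine r.resist_path (ES := {e}) (by simpa using he) 1 fun φ => ?_
  simp only [St.mEn, Finset.sum_singleton, Finset.sum_empty, mul_zero, add_zero, Nat.cast_one]
  nlinarith [sq_nonneg (φ e.lft - φ (s.rgt e) - 2)]

theorem Rl.resist_bdry (r : Rl s H) (hi : Inv s) (a : ℤ) (l : ℕ) :
    H.mg.resist τ (H.psi (s.vs a)) ≤ 2 * l + 2 * H.mg.resist τ (H.psi (s.vs (a + l))) := by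
  refine r.resist_path (ES := (Finset.range l).image fun t : ℕ => s.es (a + t)) ?_ l fun φ => ?_
  · intro e he
    obtain ⟨t, _, rfl⟩ := Finset.mem_image.1 he
    exact hi.esE _
  · simp only [St.mEn, Finset.sum_empty, mul_zero, add_zero]
    rw [Finset.sum_image fun x _ y _ e => by have := hi.esinj e; omega]
    have e1 := Finset.sum_range_sub' (fun t : ℕ => φ (s.vs (a + t))) l
    have e2 : ∑ t ∈ Finset.range l, 2 * (φ (s.vs (a + t)) - φ (s.vs (a + (t + 1 : ℕ)))) ≤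
        ∑ t ∈ Finset.range l, (2 + 2⁻¹ *
          (φ (s.es (a + t)).lft - φ (s.rgt (s.es (a + t)))) ^ 2) := by
      refine Finset.sum_le_sum fun t _ => ?_
      rw [hi.rgtes, Nat.cast_succ, ← add_assoc]
      change _ ≤ 2 + 2⁻¹ * (φ (s.vs (a + t)) - _) ^ 2
      nlinarith [sq_nonneg (φ (s.vs (a + t)) - φ (s.vs (a + t + 1)) - 2)]
    rw [← Finset.mul_sum, e1, Finset.sum_add_distrib, ← Finset.mul_sum] at e2
    simp only [Finset.sum_const, Finset.card_range, nsmul_eq_mul, Nat.cast_zero, add_zero] at e2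
    linarith

theorem ex_bound (h : EX α μ τ γ 1 R) (hτ : 0 < τ) (hR : R ≤ 1) (γi : ℝ≥0∞) (hγ : γi * γ = 1)
    (h8 : 8 ≤ γ) (s : St) (j : ℤ) (g : Good α μ s) :
    Bd α μ s (fun H => H.mg.resist τ (H.psi (s.vs j))) 4 := by
  have key : ∀ m : ℕ, ∀ (s : St) (j : ℤ), Good α μ s →
      Bd α μ s (fun H => H.mg.resist τ (H.psi (s.vs j)))
        (4 + ENNReal.ofReal (τ : ℝ)⁻¹ * 2⁻¹ ^ m) := by
    intro m
    induction m with
    | zero =>
      intro s j g
      refine Bd.const g fun H r => ((res_zero hτ s _).resist_le (Ext.refl s)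
        (g.reach.inv.vsV j) r).trans ?_
      simp
    | succ m ih =>
      intro s j g
      set x := ENNReal.ofReal (τ : ℝ)⁻¹ * 2⁻¹ ^ (m + 1) with hx
      have ex : ENNReal.ofReal (τ : ℝ)⁻¹ * 2⁻¹ ^ m = 2 * x := by
        rw [hx, pow_succ, mul_left_comm, mul_left_comm 2,
          ENNReal.mul_inv_cancel (by simp) (by simp), mul_one]
      rw [ex] at ih
      refine (h s j _ 1 ((4 + 2 * (4 + 2 * x)) * γi) g fun s' c g' e pr r => ?_).le ?_
      · rcases c with _ | c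
        · refine Bd.const g' fun H k => ((r rfl).resist_le e (g.reach.inv.vsV j) k).trans ?_
          exact le_trans (by simpa using hR) le_self_add
        · obtain ⟨p, hp⟩ := pr
          have e1 : s'.vs p = s.vs (j + (c + 2 : ℕ)) := by
            have := hp 0
            simp only [Nat.cast_zero, add_zero] at this
            rw [this]; congr 1; push_cast; ring
          refine ((Bd.const (F := fun _ => 2 * ((c + 2 : ℕ) : ℝ≥0∞)) g' fun _ _ => le_rfl).add
            ((ih s' p g').smul 2)).mono (fun H k => ?_) ?_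
          · rw [e1]; exact (k.mono e).resist_bdry g.reach.inv j _
          · have a1 : ((c + 2 : ℕ) : ℝ≥0∞) ≤ 2 * γ ^ c := by
              have : c + 2 ≤ 2 * 2 ^ c := by have := Nat.lt_two_pow_self (n := c); omega
              calc ((c + 2 : ℕ) : ℝ≥0∞) ≤ (2 * 2 ^ c : ℕ) := by exact_mod_cast this
                _ = 2 * 2 ^ c := by push_cast; rfl
                _ ≤ _ := by gcongr; exact le_trans (by norm_num) h8
            have a2 : 1 ≤ γ ^ c := one_le_pow₀ (le_trans (by norm_num) h8)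
            calc _ ≤ 2 * (2 * γ ^ c) + 2 * (4 + 2 * x) * γ ^ c :=
                  add_le_add (by gcongr) (le_mul_of_one_le_right' a2)
              _ = (4 + 2 * (4 + 2 * x)) * γ ^ c * (γi * γ) := by rw [hγ]; ring
              _ ≤ _ := le_trans (le_of_eq (by ring)) le_add_self
      · calc _ = 1 + (3 + x) * (γi * 8) := by ring
          _ ≤ 1 + (3 + x) * (γi * γ) := by gcongr
          _ = _ := by rw [hγ]; ring
  refine Bd.lim (fun m => key m s j g) ?_
  have := (ENNReal.Tendsto.const_mul (a := ENNReal.ofReal (τ : ℝ)⁻¹)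
    (ENNReal.tendsto_pow_atTop_nhds_zero_of_lt_one (r := 2⁻¹) (by simp)) (Or.inr (by simp))
    ).const_add 4
  simpa using this

theorem top (h : EX α μ τ γ 1 R) (hτ : 0 < τ) (hR0 : 0 ≤ R) (hR : R ≤ 1) (γi : ℝ≥0∞)
    (hγ : γi * γ = 1) (Q : ℕ) (hQ : 1 ≤ Q) (hg : 2 * 64 ^ (Q + 1) ≤ γ) (g : Good α μ s) (x : Vx)
    (p : ℤ) (N m : ℕ)
    (ch : ∀ k ≤ N - 1, ∃ e, s.isE e ∧ e.lft = x ∧ s.rgt e = s.vs (p + k)) :
    Bd α μ s (fun H => (N + m) * H.mg.resist τ (H.psi x))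
      (ENNReal.ofReal ((1 + R) * (Q + 1) / Q) + m * ENNReal.ofReal ((1 + R) / Q) +
        (1 + m) * (18 * 8 ^ (Q + 1)) * 2⁻¹ ^ N) := by
  have h8 : 8 ≤ γ := by
    refine le_trans ?_ hg
    calc (8 : ℝ≥0∞) ≤ 2 * 64 ^ 1 := by norm_num
      _ ≤ _ := by gcongr <;> norm_num
  refine (kids h s p (N - 1) _ _
    ((N + m) * (18 * 8 ^ (Q + 1)) * (2⁻¹ ^ N * 2⁻¹ ^ N * 2⁻¹ ^ N)) ?_ (N - 1) s 0 0 g
    (kp_init _ _ _) (by omega)).le (add_le_add le_rfl ?_)
  · intro s' i C g' k hn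
    by_cases hc : (Q + 1) * (2 * C + 1) ≤ N
    · have hQ' : (1 : ℝ) ≤ Q := by exact_mod_cast hQ
      have hc' : ((Q : ℝ) + 1) * (2 * C + 1) ≤ N := by exact_mod_cast hc
      have hN1 : 1 ≤ N := by nlinarith
      have hN : (Q : ℝ) + 1 ≤ N := by nlinarith [show (0 : ℝ) ≤ C by positivity]
      have hM : (Q : ℝ) ≤ N * Q / (Q + 1) := by
        rw [le_div_iff₀ (by linarith)]; nlinarith
      obtain ⟨ES, VS, a1, a2, a3⟩ := combine g.reach.inv k hn x (fun _ => True) (fun _ => True)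
        (fun _ _ => trivial) (fun _ _ => trivial) (fun k hk => ⟨trivial, by
          obtain ⟨e, b1, b2, b3⟩ := ch k hk.le
          exact ⟨e, b1, trivial, b2, b3⟩⟩) (N * Q / (Q + 1)) (by linarith) (by
          rw [Nat.cast_sub hN1, ← le_sub_iff_add_le, div_le_iff₀ (by linarith)]
          push_cast; nlinarith) hR0
      refine Bd.const g' fun H r => le_trans ?_ le_self_add
      have b := r.resist_le (fun e he => (a1 e he).1) (fun e he => (a2 e he).1) a3
      rw [add_mul]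
      refine add_le_add ?_ (mul_le_mul_right (b.trans (ENNReal.ofReal_le_ofReal ?_)) _)
      · refine (mul_le_mul_right b _).trans (le_of_eq ?_)
        rw [← ENNReal.ofReal_natCast, ← ENNReal.ofReal_mul (by positivity)]
        congr 1
        have : (N : ℝ) ≠ 0 := by linarith
        field_simp
      · exact div_le_div_of_nonneg_left (by linarith) (by linarith) hM
    · obtain ⟨e, b1, b2, b3⟩ := ch (N - 1) le_rfl
      obtain ⟨k1, ⟨p', hp⟩, k3, -⟩ := k
      obtain ⟨l, rfl⟩ := Nat.exists_eq_add_of_le hn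
      have e1 : s'.vs p' = s.vs (p + (N - 1 : ℕ) + l) := by
        have := hp 0
        simp only [Nat.cast_zero, add_zero] at this
        rw [this]; congr 1; push_cast; ring
      refine (((Bd.const (F := fun _ => (2 : ℝ≥0∞) + 4 * l) g' fun _ _ => le_rfl).add
        ((ex_bound h hτ hR γi hγ h8 s' p' g').smul 4)).smul (N + m)).mono (fun H r => ?_) ?_
      · refine mul_le_mul_right ?_ _
        have c1 := (r.mono k1).resist_edge (τ := τ) b1
        have c2 := (r.mono k1).resist_bdry (τ := τ) g.reach.inv (p + (N - 1 : ℕ)) l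
        rw [b2, b3] at c1
        rw [e1]
        refine c1.trans ((add_le_add le_rfl (mul_le_mul_right c2 2)).trans (le_of_eq ?_))
        push_cast; ring
      · refine le_trans ?_ le_add_self
        rw [mul_assoc, mul_assoc]
        refine mul_le_mul_right ?_ _
        have a1 : (2 : ℝ≥0∞) + 4 * l + 4 * 4 ≤ 18 * 2 ^ C := by
          have := Nat.lt_two_pow_self (n := C)
          have : 2 + 4 * l + 4 * 4 ≤ 18 * 2 ^ C := by omega
          exact_mod_cast this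
        have a2 : (2 : ℝ≥0∞) ^ N * 2 ^ N * 2 ^ N ≤ 8 ^ (Q + 1) * (64 ^ (Q + 1)) ^ C := by
          rw [← mul_pow, ← mul_pow, show (64 : ℝ≥0∞) = 8 ^ 2 by norm_num, ← pow_mul, ← pow_mul,
            ← pow_add, show (2 * 2 * 2 : ℝ≥0∞) = 8 by norm_num]
          exact pow_le_pow_right₀ (by norm_num) (by nlinarith)
        calc _ ≤ (18 : ℝ≥0∞) * 2 ^ C *
              ((2 ^ N * 2⁻¹ ^ N) * (2 ^ N * 2⁻¹ ^ N) * (2 ^ N * 2⁻¹ ^ N)) := by
              simp only [half_pow, mul_one]; exact a1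
          _ = 18 * 2 ^ C * (2 ^ N * 2 ^ N * 2 ^ N) * (2⁻¹ ^ N * 2⁻¹ ^ N * 2⁻¹ ^ N) := by ring
          _ ≤ 18 * 2 ^ C * (8 ^ (Q + 1) * (64 ^ (Q + 1)) ^ C) *
              (2⁻¹ ^ N * 2⁻¹ ^ N * 2⁻¹ ^ N) := by gcongr
          _ = 18 * 8 ^ (Q + 1) * ((2⁻¹ ^ N * 2⁻¹ ^ N * 2⁻¹ ^ N) * (2 * 64 ^ (Q + 1)) ^ C) := by
              rw [mul_pow]; ring
          _ ≤ _ := by gcongr
  · have a1 : (N + m : ℝ≥0∞) ≤ (1 + m) * 2 ^ N := by
      have := Nat.lt_two_pow_self (n := N)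
      have : N + m ≤ (1 + m) * 2 ^ N := by nlinarith
      exact_mod_cast this
    have a2 : (1 + 1 : ℝ≥0∞) ^ (N - 1) ≤ 2 ^ N := by
      rw [one_add_one_eq_two]; exact pow_le_pow_right₀ (by norm_num) (by omega)
    calc _ ≤ (1 + m : ℝ≥0∞) * 2 ^ N * (18 * 8 ^ (Q + 1)) * (2⁻¹ ^ N * 2⁻¹ ^ N * 2⁻¹ ^ N) *
          γ ^ 0 * 2 ^ N := by gcongr
      _ = (1 + m) * (18 * 8 ^ (Q + 1)) * 2⁻¹ ^ N * ((2 ^ N * 2⁻¹ ^ N) * (2 ^ N * 2⁻¹ ^ N)) := by
          ring
      _ = _ := by simp only [half_pow, mul_one]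

end Pool.Agent.MP_7a2e76_pr

end

-- part MP_7a2e76_pr.Walk
section

/-! The walk gains almost one level per step when `α` is close to `1`. -/

namespace Pool.Agent.MP_7a2e76_pr

open Set MeasureTheory Filter Topology
open scoped ENNReal
open St Fill

variable {α : ℝ} {μ : Measure HalfPlane} {s : St} {κ δ : Vx → ℕ} {H : HalfPlane}

noncomputable def kH (κ : Vx → ℕ) (H : HalfPlane) (z : ℕ) : ℝ≥0∞ :=
  ∑' y, if H.psi y = z then (κ y : ℝ≥0∞) else 0

noncomputable def om (κ : Vx → ℕ) (H : HalfPlane) (z : ℕ) : ℝ≥0∞ :=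
  2 * (2 - kH κ H z * (H.mg.deg z : ℝ≥0∞)⁻¹)

theorem kH_ge (v : Vx) : (κ v : ℝ≥0∞) ≤ kH κ H (H.psi v) :=
  le_trans (le_of_eq (if_pos rfl).symm) (ENNReal.le_tsum v)

theorem kH_add (z : ℕ) : kH (fun v => κ v + δ v) H z = kH κ H z + kH δ H z := by
  simp only [kH]
  rw [← ENNReal.tsum_add]
  refine tsum_congr fun y => ?_
  split_ifs <;> simp

theorem kH_tot : ∑' z, kH δ H z = ∑' y, (δ y : ℝ≥0∞) := by
  simp only [kH]
  rw [ENNReal.tsum_comm]
  refine tsum_congr fun y => ?_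
  simp only [eq_comm (a := H.psi y), tsum_ite_eq]

theorem om_zero : om (fun _ => 0) H = fun _ => 4 := by
  funext z
  simp [om, kH]; norm_num

theorem om_le (z : ℕ) : om κ H z ≤ om (fun v => κ v + δ v) H z +
    2 * (kH δ H z * (H.mg.deg z : ℝ≥0∞)⁻¹) := by
  rw [om, om, ← mul_add, kH_add, add_mul]
  refine mul_le_mul_right ?_ 2
  rw [tsub_le_iff_right, add_assoc, add_comm (kH δ H z * _)]
  exact le_tsub_add

theorem om_bound {v : Vx} {G : ℕ} (h0 : H.mg.deg (H.psi v) ≠ 0)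
    (h : 2 * H.mg.deg (H.psi v) ≤ κ v + G) :
    om κ H (H.psi v) ≤ 2 * (G * (H.mg.deg (H.psi v) : ℝ≥0∞)⁻¹) := by
  refine mul_le_mul_right ?_ 2
  rw [tsub_le_iff_right, ← add_mul]
  calc (2 : ℝ≥0∞) = 2 * H.mg.deg (H.psi v) * (H.mg.deg (H.psi v) : ℝ≥0∞)⁻¹ := by
        rw [mul_assoc, ENNReal.mul_inv_cancel (by simpa using h0) (by simp), mul_one]
    _ ≤ _ := by
        refine mul_le_mul_left (le_trans ?_ (add_le_add le_rfl (kH_ge v))) _
        rw [add_comm]
        exact_mod_cast h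

theorem charge {x : ℕ} (hx : H.mg.deg x ≠ 0) (Φ : ℕ → ℝ≥0∞) (τ : NNReal) (k : ℕ) :
    H.mg.cst (om κ H) Φ k x ≤ H.mg.cst (om (fun v => κ v + δ v) H) Φ k x +
      2 * (1 + τ * k) * ((∑' y, (δ y : ℝ≥0∞)) * H.mg.resist τ x) := by
  refine (H.mg.cst_mono (om_le (δ := δ)) k x).trans ?_
  have e := H.mg.cst_add (om (fun v => κ v + δ v) H)
    (fun z => 2 * (kH δ H z * (H.mg.deg z : ℝ≥0∞)⁻¹)) Φ (fun _ => 0) k x
  simp only [add_zero] at e
  rw [e]
  refine add_le_add le_rfl ((H.mg.cst_green hx _ k).trans ?_)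
  have h1 : ∑' o, 2 * (kH δ H (H.mg.src o) * (H.mg.deg (H.mg.src o) : ℝ≥0∞)⁻¹) ≤
      2 * ∑' y, (δ y : ℝ≥0∞) := by
    rw [ENNReal.tsum_mul_left, H.mg.tsum_src fun z => kH δ H z * (H.mg.deg z : ℝ≥0∞)⁻¹,
      ← kH_tot (H := H)]
    refine mul_le_mul_right (ENNReal.tsum_le_tsum fun z => ?_) 2
    rw [mul_left_comm]
    exact mul_le_of_le_one_right' (ENNReal.mul_inv_le_one _)
  exact (mul_le_mul' h1 (H.mg.gr_le_resist hx τ k)).trans (le_of_eq (by ring))

theorem move (g : Good α μ s) {x : Vx} (hx : s.isV x) (hn : ¬ s.expo x)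
    (GH : Finset (Eid × Bool)) (hG : GH ⊆ s.mst x) (c : ℕ)
    (hκ : 2 * (s.mst x).card ≤ κ x + (GH.card + c * (s.mst x).card))
    (W : HalfPlane → ℕ → ℝ≥0∞) (b : ℝ≥0∞)
    (hb : ∀ h ∈ s.mst x, Bd α μ s (fun H => W H (H.psi (s.ht h))) (b + if h ∈ GH then 0 else 2)) :
    Bd α μ s (fun H => om κ H (H.psi x) + H.mg.avg (W H) (H.psi x)) (b + 2 + 2 * c) := by
  have hi := g.reach.inv
  have hd : (s.mst x).card ≠ 0 := by
    obtain ⟨h, hh⟩ := exists_oe s hx
    exact Finset.card_ne_zero.2 ⟨h, hi.mem_mst.2 hh⟩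
  refine ((Bd.const (F := fun H => om κ H (H.psi x)) (b := 2 * ((GH.card + c * (s.mst x).card : ℕ)
    * ((s.mst x).card : ℝ≥0∞)⁻¹)) g fun H r => ?_).add
    ((Bd.sum g (s.mst x) _ _ hb).smul ((s.mst x).card : ℝ≥0∞)⁻¹)).mono
    (fun H r => le_of_eq (by rw [r.avg_eq hi hx hn])) (le_of_eq ?_)
  · rw [← r.deg_eq hi hx hn] at hκ ⊢
    exact om_bound (r.deg_ne hx) hκ
  · have e1 : ∑ h ∈ s.mst x, (if h ∈ GH then (0 : ℝ≥0∞) else 2) + 2 * GH.card =
        2 * (s.mst x).card := by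
      have : ∑ h ∈ s.mst x, (if h ∈ GH then (2 : ℝ≥0∞) else 0) = 2 * GH.card := by
        rw [Finset.sum_ite_mem, Finset.inter_eq_right.2 hG, Finset.sum_const, nsmul_eq_mul,
          mul_comm]
      rw [← this, ← Finset.sum_add_distrib,
        Finset.sum_congr rfl (g := fun _ => 2) fun h _ => by split_ifs <;> simp,
        Finset.sum_const, nsmul_eq_mul, mul_comm]
    rw [Finset.sum_add_distrib, Finset.sum_const, nsmul_eq_mul]
    calc _ = ((s.mst x).card : ℝ≥0∞)⁻¹ * ((s.mst x).card * b +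
          (∑ h ∈ s.mst x, (if h ∈ GH then (0 : ℝ≥0∞) else 2) + 2 * GH.card) +
          2 * c * (s.mst x).card) := by push_cast; ring
      _ = ((s.mst x).card : ℝ≥0∞)⁻¹ * (s.mst x).card * (b + 2 + 2 * c) := by rw [e1]; ring
      _ = _ := by rw [ENNReal.inv_mul_cancel (by simpa using hd) (by simp), one_mul]

theorem PI.back {f : Vx → ℕ} (h : PI s f 0) {x : Eid × Bool} (hx : s.isE x.1) :
    f (s.hs x) ≤ f (s.ht x) + 1 := by
  have := h.lip (x.1, !x.2) hx
  rw [(hs_not x).1, (hs_not x).2] at this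
  omega

theorem walk_ind (c : Ctx α μ) (n : ℕ) (τ : NNReal) (Φ : HalfPlane → ℕ → ℝ≥0∞)
    (B0 ε Z Zc Zd B η cb : ℝ≥0∞)
    (base : ∀ s f x, Good α μ s → PI s f 0 → f (.orig 0) = 0 → s.isV x →
      Bd α μ s (fun H => Φ H (H.psi x)) ((n - f x : ℕ) + B0))
    (hM : ∑' a, bw (pa α) (pb α) a * (2 ^ a.len * (1 + inc a) : ℕ) ≤ ph α * B)
    (hη : ∑' a, bw (pa α) (pb α) a * (a.len - 1 : ℕ) ≤ ph α * η)
    (hcb : 2⁻¹ * cb + ph α * B * (1 + cb + Zd) ≤ cb)
    (htot : Z + η + (2 * B + 10) * Zc + 11 * cb ≤ 2 + ε)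
    (htop : ∀ (s : St) (x : Vx) (p : ℤ) (N m : ℕ), Good α μ s →
      (∀ k ≤ N - 1, ∃ e, s.isE e ∧ e.lft = x ∧ s.rgt e = s.vs (p + k)) →
      Bd α μ s (fun H => 2 * (1 + τ * n) * ((N + m) * H.mg.resist τ (H.psi x)))
        (Z + m * Zc + (1 + m) * Zd * 2⁻¹ ^ N)) (k : ℕ) :
    k ≤ n → ∀ s κ f x, Good α μ s → CI s κ → PI s f 0 → f (.orig 0) = 0 → s.isV x →
      Bd α μ s (fun H => H.mg.cst (om κ H) (Φ H) k (H.psi x))
        ((n - k - f x : ℕ) + B0 + k * (4 + ε)) := by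
  classical
  induction k with
  | zero => intro _ s κ f x g _ h h0 hx; simpa [MG.cst] using base s f x g h h0 hx
  | succ k ih =>
    intro hk s κ f x g ci h h0 hx
    replace ih := ih (by omega)
    have hi := g.reach.inv
    by_cases ex : s.expo x
    swap
    · have a := ci.int x hx ex
      refine (move (κ := κ) g hx ex ∅ (by simp) 1 (by omega)
        (fun H => H.mg.cst (om κ H) (Φ H) k)
        ((n - (k + 1) - f x : ℕ) + B0 + k * (4 + ε)) fun y hy => ?_).le ?_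
      · rw [hi.mem_mst] at hy
        refine (ih s κ f _ g ci h h0 (hi.htV hy.1)).le ?_
        have b := h.back hy.1
        rw [hy.2] at b
        have : ((n - k - f (s.ht y) : ℕ) : ℝ≥0∞) ≤ (n - (k + 1) - f x : ℕ) + 2 := by
          exact_mod_cast (by omega)
        rw [if_neg (by simp)]
        exact (add_le_add (add_le_add this le_rfl) le_rfl).trans (le_of_eq (by ring))
      · refine le_trans (le_self_add (b := ε)) (le_of_eq ?_)
        push_cast; ring
    obtain ⟨j, rfl⟩ := ex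
    refine (round c g ci j _ ((n - (k + 1) - f (s.vs j) : ℕ) + B0 + k * (4 + ε) + 2)
      Z Zc Zd B η cb hM hη hcb fun s' N K J m δ g' r => ?_).le
      ((add_le_add le_rfl htot).trans (le_of_eq (by push_cast; ring)))
    have hi' := g'.reach.inv
    have hx' := r.loc.ext.isV hx
    set l := f (s.vs j) - J - K with hl
    have h' : PI s' (nl s s' f l) 0 := h.round r.loc l j (by omega) (by omega) (by omega)
      fun i a b => by have := h.seg hi j i; omega
    have h0' : nl s s' f l (.orig 0) = 0 := by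
      rw [nl_old (show s.isV (.orig 0) from trivial), h0]; simp
    have fx : nl s s' f l (s.vs j) = l := by rw [nl_old hx]; omega
    let GH := (s'.mst (s.vs j)).filter fun y =>
      ∃ t : ℕ, 0 < t ∧ t + 1 < N ∧ s'.ht y = s'.vs (j - J + t)
    have hG : GH ⊆ s'.mst (s.vs j) := Finset.filter_subset _ _
    have a1 : N - 2 ≤ GH.card := good_card hi' _ _ N r.fan GH fun y hy t b1 b2 b3 =>
      Finset.mem_filter.2 ⟨hy, t, b1, b2, b3⟩
    have a2 := Finset.card_le_card hG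
    have a3 := r.c4
    have ci' : CI s' fun v => κ v + δ v := by
      refine ⟨fun v b1 b2 => ?_, fun v b1 => r.c2 v b1 fun e => r.int (e ▸ b1)⟩
      by_cases e : v = s.vs j
      · rw [e]; omega
      · exact r.c1 v b1 b2 e
    refine ((move (κ := fun v => κ v + δ v) g' hx' r.int GH hG 0 (by omega)
      (fun H => H.mg.cst (om (fun v => κ v + δ v) H) (Φ H) k)
      ((n - (k + 1) - f (s.vs j) : ℕ) + J + K + B0 + k * (4 + ε)) fun y hy => ?_).add
      (htop s' (s.vs j) _ N m g' r.fan)).mono (fun H rl => ?_) (le_of_eq (by push_cast; ring))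
    · have hy' := hi'.mem_mst.1 hy
      split_ifs with b
      · obtain ⟨t, b1, b2, b3⟩ := (Finset.mem_filter.1 b).2
        have nw : ¬ s.isV (s'.vs (j - J + t)) := r.loc.mid _ (by omega) (by omega)
        have h'' := h'.raise hi' l (nl_le l) (j - J + t) (nl_new nw (hi'.vsV _)) fun z z1 z2 => by
          rcases r.pure t b1 b2 z z1 z2 with e | e
          · rw [e, fx]
          · rw [nl_new e (hi'.htV z1)]
        refine (ih s' _ _ _ g' ci' h'' ?_ (hi'.htV hy'.1)).le ?_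
        · rw [Function.update_of_ne (fun e => nw (by rw [← e]; trivial)), h0']
        · rw [b3, Function.update_self, add_zero]
          gcongr
          exact_mod_cast (by omega)
      · refine (ih s' _ _ _ g' ci' h' h0' (hi'.htV hy'.1)).le ?_
        have b4 := h'.back hy'.1
        rw [hy'.2, fx] at b4
        have : ((n - k - nl s s' f l (s'.ht y) : ℕ) : ℝ≥0∞) ≤
            (n - (k + 1) - f (s.vs j) : ℕ) + J + K + 2 := by
          exact_mod_cast (by omega)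
        exact (add_le_add (add_le_add this le_rfl) le_rfl).trans (le_of_eq (by ring))
    · refine (charge (δ := δ) (rl.deg_ne hx') _ τ (k + 1)).trans (add_le_add le_rfl ?_)
      have := r.tot
      push_cast at this
      gcongr

theorem Ctx.moment (c : Ctx α μ) (y : ℝ≥0∞) (h8 : 8 ≤ y) (hy : y ≠ ∞) (hp : 16 * ph α * y ≤ 1) :
    ∑' a, bw (pa α) (pb α) a * (y ^ a.len * 2 ^ a.sz) ≤ 2 * ph α * y := by
  have e := ENNReal.mul_inv_cancel (a := y) (by rintro rfl; simp at h8) hy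
  refine exp_bound y y⁻¹ 2 _ e ?_
  have hpa : pa α ≤ 1 := c.sum_one ▸ (le_self_add.trans le_self_add)
  have hpb : pb α ≤ ph α := ENNReal.ofReal_le_ofReal (by nlinarith [c.h1, c.h2])
  have a1 : 4 * y⁻¹ ≤ 2⁻¹ := by
    rw [ENNReal.le_inv_iff_mul_le, ← e]
    calc _ = 8 * y⁻¹ := by ring
      _ ≤ _ := by gcongr
  have a2 : 8 * (ph α * y) ≤ 2⁻¹ := by
    rw [ENNReal.le_inv_iff_mul_le]
    exact le_trans (le_of_eq (by ring)) hp
  calc _ ≤ ph α * y + 1 * 2 * y⁻¹ * (2 * ph α * y) + 2 * (2 * ph α * y * (2 * ph α * y)) := by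
        gcongr
    _ = ph α * y + (4 * y⁻¹ + 8 * (ph α * y)) * (ph α * y) := by ring
    _ ≤ ph α * y + (2⁻¹ + 2⁻¹) * (ph α * y) := by gcongr
    _ = _ := by rw [ENNReal.inv_two_add_inv_two]; ring

theorem iter_mul (c : ℝ≥0∞) (Φ : ℕ → ℝ≥0∞) (k : ℕ) :
    H.mg.avg^[k] (fun w => c * Φ w) = fun u => c * H.mg.avg^[k] Φ u := by
  induction k with
  | zero => rfl
  | succ k ih =>
    funext u
    rw [Function.iterate_succ_apply', Function.iterate_succ_apply', ih, MG.avg_mul]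

end Pool.Agent.MP_7a2e76_pr

end

-- part MP_7a2e76_pr.Lower
section

/-! Choice of the constants: the walk is fast when `α` is close to `1`. -/

namespace Pool.Agent.MP_7a2e76_pr

open Set MeasureTheory Filter Topology
open scoped ENNReal
open St Fill

variable {α : ℝ} {μ : Measure HalfPlane}

theorem top_const (c : Ctx α μ) (Q n : ℕ) (hQ : 3 ≤ Q) (hn : 1 ≤ n)
    (h1 : 16 * ph α * (2 * 64 ^ (Q + 1)) ≤ 1)
    (h2 : 6 * (Q + 3 : ℕ) * (2 * 64 ^ (Q + 1)) * ph α ≤ 1) :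
    ∃ τ : NNReal, ∀ (s : St) (x : Vx) (p : ℤ) (N m : ℕ), Good α μ s →
      (∀ k ≤ N - 1, ∃ e, s.isE e ∧ e.lft = x ∧ s.rgt e = s.vs (p + k)) →
      Bd α μ s (fun H => 2 * (1 + τ * n) * ((N + m) * H.mg.resist τ (H.psi x)))
        (2 + 30 * (Q : ℝ≥0∞)⁻¹ + m * (8 * (Q : ℝ≥0∞)⁻¹) +
          (1 + m) * (4 * (18 * 8 ^ (Q + 1))) * 2⁻¹ ^ N) := by
  set γ : ℝ≥0∞ := 2 * 64 ^ (Q + 1) with hγ
  have hQ' : (3 : ℝ) ≤ Q := by exact_mod_cast hQ
  have g0 : γ ≠ 0 := by simp [hγ]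
  have g1 : γ ≠ ∞ := by rw [hγ]; finiteness
  have gi := ENNReal.inv_mul_cancel g0 g1
  have g2 : (2 : ℝ≥0∞) ^ (Q + 2) * 2 ≤ γ := by
    rw [hγ, mul_comm, show (64 : ℝ≥0∞) = 2 ^ 6 by norm_num, ← pow_mul]
    exact mul_le_mul_right (pow_le_pow_right₀ one_le_two (by omega)) _
  have g8 : 8 ≤ γ := by
    refine le_trans ?_ g2
    rw [← pow_succ, show (8 : ℝ≥0∞) = 2 ^ 3 by norm_num]
    exact pow_le_pow_right₀ one_le_two (by omega)
  refine ⟨((Q * n : ℕ) : NNReal)⁻¹, fun s x p N m g ch => ?_⟩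
  have hτ : 0 < ((Q * n : ℕ) : NNReal)⁻¹ := by
    rw [inv_pos, Nat.cast_pos]; exact Nat.mul_pos (by omega) hn
  have ex := ex_final c hτ Q (by omega) γ⁻¹ (3 * ph α * γ) (u := 1) gi (by
    refine le_trans (add_le_add (le_trans (ENNReal.tsum_le_tsum fun a => mul_le_mul_right
      (le_mul_of_one_le_right' (one_le_pow₀ one_le_two)) _) (c.moment γ g8 g1 h1)) le_rfl)
      (le_of_eq (by ring))) (by
    rw [← ENNReal.inv_two_add_inv_two]
    refine add_le_add ?_ ?_ <;> rw [ENNReal.le_inv_iff_mul_le]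
    · rw [← gi, ENNReal.inv_two_add_inv_two, one_add_one_eq_two, mul_assoc]
      exact mul_le_mul_right g2 _
    · exact le_trans (le_of_eq (by ring)) h2)
  refine ((top ex hτ (by positivity) (by rw [div_le_one (by linarith)]; exact hQ') γ⁻¹ gi Q
    (by omega) le_rfl g x p N m ch).smul _).le ?_
  have e1 : ((((Q * n : ℕ) : NNReal)⁻¹ : NNReal) : ℝ≥0∞) * n = (Q : ℝ≥0∞)⁻¹ := by
    rw [ENNReal.coe_inv (inv_pos.1 hτ).ne', ENNReal.coe_natCast, Nat.cast_mul,
      ENNReal.mul_inv (by simp) (by simp), mul_assoc,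
      ENNReal.inv_mul_cancel (by simp; omega) (by simp), mul_one]
  have e2 : (Q : ℝ≥0∞)⁻¹ = ENNReal.ofReal (Q : ℝ)⁻¹ := by
    rw [ENNReal.ofReal_inv_of_pos (by linarith), ENNReal.ofReal_natCast]
  have e3 : (Q : ℝ≥0∞)⁻¹ ≤ 1 := ENNReal.inv_le_one.2 (by exact_mod_cast (by omega))
  have a1 : ENNReal.ofReal ((1 + 3 / Q) * (Q + 1) / Q) ≤ 1 + 7 * (Q : ℝ≥0∞)⁻¹ := by
    rw [e2, ← ENNReal.ofReal_ofNat 7, ← ENNReal.ofReal_mul (by norm_num), ← ENNReal.ofReal_one,
      ← ENNReal.ofReal_add zero_le_one (by positivity)]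
    refine ENNReal.ofReal_le_ofReal ?_
    field_simp
    nlinarith
  have a2 : ENNReal.ofReal ((1 + 3 / Q) / Q) ≤ 2 * (Q : ℝ≥0∞)⁻¹ := by
    rw [e2, ← ENNReal.ofReal_ofNat 2, ← ENNReal.ofReal_mul (by norm_num)]
    refine ENNReal.ofReal_le_ofReal ?_
    field_simp
    nlinarith
  rw [e1]
  generalize (Q : ℝ≥0∞)⁻¹ = E at a1 a2 e3 ⊢
  calc _ ≤ 2 * (1 + E) * (1 + 7 * E + m * (2 * E) + (1 + m) * (18 * 8 ^ (Q + 1)) * 2⁻¹ ^ N) := by
        gcongr
    _ = 2 + 16 * E + 14 * E * E + 2 * (1 + E) *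
          (m * (2 * E) + (1 + m) * (18 * 8 ^ (Q + 1)) * 2⁻¹ ^ N) := by ring
    _ ≤ 2 + 16 * E + 14 * E * 1 + 2 * (1 + 1) *
          (m * (2 * E) + (1 + m) * (18 * 8 ^ (Q + 1)) * 2⁻¹ ^ N) := by gcongr
    _ = _ := by ring

open Classical in
theorem lower_core (c : Ctx α μ) (Q q m : ℕ) (hQ : 3 ≤ Q) (hm : 1 ≤ m)
    (h1 : 16 * ph α * (2 * 64 ^ (Q + 1)) ≤ 1)
    (h2 : 6 * (Q + 3 : ℕ) * (2 * 64 ^ (Q + 1)) * ph α ≤ 1) (h3 : 1344 * ph α ≤ 1) :
    ∫⁻ H, H.mg.avg^[(q + 1) * m] (fun y => if H.Near (q * m) y then 1 else 0) H.root ∂μ ≤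
      (q + 1) * (5486 * (Q : ℝ≥0∞)⁻¹ +
        (2560 + 14784 * (1 + 4 * (18 * 8 ^ (Q + 1)))) * ph α) := by
  have := c.prob
  set n := (q + 1) * m with hn
  set p := ph α with hp
  have hpf : p ≠ ∞ := ENNReal.ofReal_ne_top
  have hpa : pa α ≤ 1 := c.sum_one ▸ (le_self_add.trans le_self_add)
  have h4 : 128 * p ≤ 1 := le_trans (by gcongr; norm_num) h3
  have m8 := c.moment 8 le_rfl (by simp) (le_trans (le_of_eq (by ring)) h4)
  have l1 : ∑' a, bw (pa α) (pb α) a * 8 ^ a.len ≤ 16 * p :=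
    le_trans (ENNReal.tsum_le_tsum fun a => mul_le_mul_right
      (le_mul_of_one_le_right' (one_le_pow₀ one_le_two)) _) (m8.trans (le_of_eq (by ring)))
  have l2 : ∑' a, (if 2 ≤ a.len then bw (pa α) (pb α) a * 8 ^ a.len else 0) ≤ p * (512 * p) :=
    (two_bound hpa 8 _ (by norm_num) (by finiteness) l1).trans (le_of_eq (by ring))
  have l3 : 2⁻¹ * (512 * p) + 16 * p + 2 * (16 * p) * (512 * p) ≤ 512 * p := by
    calc _ = (2⁻¹ * 2) * (256 * p) + 16 * p + 128 * p * (128 * p) := by ring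
      _ ≤ 1 * (256 * p) + 16 * p + 128 * p * 1 := by
          rw [ENNReal.inv_mul_cancel (by simp) (by simp)]; gcongr
      _ ≤ _ := le_trans (le_self_add (b := 112 * p)) (le_of_eq (by ring))
  have hm0 : (m : ℝ≥0∞) ≠ 0 := by simp; omega
  have mi := ENNReal.mul_inv_cancel hm0 (by simp)
  obtain ⟨τ, htop⟩ := top_const c Q n hQ (Nat.mul_pos (by omega) hm) h1 h2
  set C : ℝ≥0∞ := 4 * (18 * 8 ^ (Q + 1)) with hC
  set E := (Q : ℝ≥0∞)⁻¹ with hE
  have key := walk_ind c n τ (fun H y => m * if H.Near (q * m) y then 1 else 0)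
    (4 * (512 * p) * (q * m : ℕ)) (5486 * E + 512 * p + 11 * (1344 * p * (1 + C)))
    (2 + 30 * E) (8 * E) C 336 (512 * p) (1344 * p * (1 + C)) (fun s f x g h h0 hx => by
      refine ((layer c _ _ (m : ℝ≥0∞)⁻¹ l1 l2 l3 n (q * m) ?_ x g h h0 hx).smul m).le
        (le_of_eq ?_)
      · rw [show n - q * m = m by rw [hn, add_mul]; omega, mul_comm, mi]
      · rw [← mul_assoc, mi, one_mul]) ?_ ?_ ?_ (le_of_eq (by ring)) htop n le_rfl St.init _ _
    (.orig 0) c.good_init ci_init pi_init rfl trivial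
  · have k2 := key.init
    have e : ∀ H : HalfPlane, H.mg.cst (om (fun _ => 0) H)
        (fun y => m * if H.Near (q * m) y then 1 else 0) n (H.psi (.orig 0)) =
        m * H.mg.avg^[n] (fun y => if H.Near (q * m) y then 1 else 0) H.root + n * 4 := by
      intro H
      rw [om_zero, show H.psi (.orig 0) = H.root from rfl, H.mg.cst_const _ _ _ _ H.deg_root,
        iter_mul]
    simp only [e] at k2
    rw [lintegral_add_right _ measurable_const, lintegral_const, measure_univ, mul_one,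
      lintegral_const_mul' _ _ (by simp), Nat.sub_self, Nat.zero_sub, Nat.cast_zero, zero_add,
      mul_add (n : ℝ≥0∞), add_comm (n * 4 : ℝ≥0∞), ← add_assoc,
      ENNReal.add_le_add_iff_right (by finiteness)] at k2
    rw [← ENNReal.mul_le_mul_iff_right hm0 (by simp)]
    refine k2.trans (le_trans (le_self_add (b := m * (2048 * p))) (le_of_eq ?_))
    rw [hn]; push_cast; ring
  · refine le_trans ?_ ((mul_le_mul_right m8 21).trans (le_of_eq (by ring)))
    rw [← ENNReal.tsum_mul_left]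
    refine ENNReal.tsum_le_tsum fun a => ?_
    rw [mul_left_comm]
    refine mul_le_mul_right ?_ _
    have b1 := Nat.lt_two_pow_self (n := a.len)
    have b2 := Nat.lt_two_pow_self (n := a.sz)
    have b3 : 2 ^ a.len * 2 ^ a.len ≤ 8 ^ a.len := by
      rw [← mul_pow]; exact Nat.pow_le_pow_left (by norm_num) _
    have b4 : 1 + inc a ≤ 21 * (2 ^ a.len * 2 ^ a.sz) := by
      have := Nat.mul_le_mul b1 b2
      rw [inc]; nlinarith
    have : 2 ^ a.len * (1 + inc a) ≤ 21 * (8 ^ a.len * 2 ^ a.sz) :=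
      calc _ ≤ 2 ^ a.len * (21 * (2 ^ a.len * 2 ^ a.sz)) := Nat.mul_le_mul_left _ b4
        _ = 21 * (2 ^ a.len * 2 ^ a.len * 2 ^ a.sz) := by ring
        _ ≤ _ := by gcongr
    exact_mod_cast this
  · refine le_trans (ENNReal.tsum_le_tsum fun a => ?_) l2
    split_ifs with k
    · refine mul_le_mul_right ?_ _
      have := Nat.lt_pow_self (n := a.len) (a := 8) (by norm_num)
      exact_mod_cast (by omega)
    · rw [show a.len - 1 = 0 by omega]; simp
  · calc _ = (2⁻¹ * 2) * (672 * p * (1 + C)) + 336 * p * (1 + C) +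
          336 * p * (1 + C) * (1344 * p) := by ring
      _ ≤ 1 * (672 * p * (1 + C)) + 336 * p * (1 + C) + 336 * p * (1 + C) * 1 := by
          rw [ENNReal.inv_mul_cancel (by simp) (by simp)]; gcongr
      _ = _ := by ring

theorem small (W : ℝ≥0∞) (hW : W ≠ ∞) : ∀ᶠ α in 𝓝 (1 : ℝ), W * ph α ≤ 1 := by
  have h : Tendsto ph (𝓝 1) (𝓝 (ph 1)) :=
    (ENNReal.continuous_ofReal.comp (by fun_prop : Continuous fun α : ℝ => (1 - α) / 2)).tendsto 1
  have h2 := ENNReal.Tendsto.const_mul h (Or.inr hW)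
  rw [show ph 1 = 0 by simp [ph], mul_zero] at h2
  exact ((tendsto_order.1 h2).2 1 one_pos).mono fun _ => le_of_lt

theorem walk_near {P : Measure (HalfPlane × (ℕ → ℕ))} (hW : IsWalk P) (n : ℕ) :
    P {z | ¬ z.1.Near n (z.2 n)} ≤ 0 := by
  classical
  have k2 := walk_bound hW n (fun H y => ¬ H.Near (0 + n) y) fun y => (meas_near _ y).compl
  replace k2 := k2.trans (le_of_eq (lintegral_congr (g := fun _ => 0) fun H => by
    refine Eq.trans ?_ (H.iter_far n 0 _ rfl)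
    refine congrArg (fun Φ => H.mg.avg^[n] Φ H.root) (funext fun y => ?_)
    congr))
  simpa using k2

theorem lower (q : ℕ) : ∀ᶠ α in 𝓝 (1 : ℝ), ∀ P : Measure (HalfPlane × (ℕ → ℕ)),
    Ctx α P.fst → IsWalk P → ∀ m, 1 ≤ m →
      P {z | z.1.graph.dist z.1.root (z.2 ((q + 1) * m)) ≤ q * m} ≤ 2⁻¹ := by
  classical
  obtain ⟨Q, hQ⟩ : ∃ Q, Q = 4 * 5486 * (q + 1) := ⟨_, rfl⟩
  filter_upwards [small (16 * (2 * 64 ^ (Q + 1))) (by finiteness),
    small (6 * (Q + 3 : ℕ) * (2 * 64 ^ (Q + 1))) (by finiteness), small 1344 (by finiteness),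
    small (4 * (q + 1) * (2560 + 14784 * (1 + 4 * (18 * 8 ^ (Q + 1))))) (by finiteness)]
    with α h1 h2 h3 h4 P c hW m hm
  have k1 := (walk_bound hW ((q + 1) * m) (fun H y => H.Near (q * m) y)
    fun y => meas_near _ y).trans (lower_core c Q q m (by omega) hm
      (le_trans (le_of_eq (by ring)) h1) h2 h3)
  have k2 := walk_near hW ((q + 1) * m)
  refine le_trans (measure_mono (t := {z | z.1.Near (q * m) (z.2 ((q + 1) * m))} ∪
    {z | ¬ z.1.Near ((q + 1) * m) (z.2 ((q + 1) * m))}) fun z hz => ?_)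
    ((measure_union_le _ _).trans ((add_le_add k1 k2).trans ?_))
  · by_cases e : z.1.Near ((q + 1) * m) (z.2 ((q + 1) * m))
    · exact Or.inl ((z.1.near_iff _ _).2 ⟨((z.1.near_iff _ _).1 e).1, hz⟩)
    · exact Or.inr e
  · have e : (Q : ℝ≥0∞) * (Q : ℝ≥0∞)⁻¹ = 1 :=
      ENNReal.mul_inv_cancel (by simp [hQ]) (by simp)
    rw [add_zero, ENNReal.le_inv_iff_mul_le, ← ENNReal.mul_le_mul_iff_right (a := 2) (by simp)
      (by simp)]
    calc _ = (4 * 5486 * (q + 1) : ℕ) * (Q : ℝ≥0∞)⁻¹ +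
          4 * (q + 1) * (2560 + 14784 * (1 + 4 * (18 * 8 ^ (Q + 1)))) * ph α := by
          push_cast; ring
      _ ≤ 1 + 1 := add_le_add (hQ ▸ e.le) h4
      _ = _ := by norm_num

end Pool.Agent.MP_7a2e76_pr

end

-- part MP_7a2e76_pr.Davies
section

/-! An exponential-weight (Davies / Varopoulos-Carne type) displacement bound. -/

namespace Pool.Agent.MP_7a2e76_pr

open Set
open scoped ENNReal

theorem two_le_add_inv (A : ℝ≥0∞) : 2 ≤ A + A⁻¹ := by
  by_cases h0 : A = 0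
  · simp [h0]
  by_cases h1 : A = ∞
  · simp [h1]
  lift A to NNReal using h1
  have h0' : A ≠ 0 := by simpa using h0
  rw [← ENNReal.coe_inv h0']
  norm_cast
  rw [← NNReal.coe_le_coe]
  push_cast
  have hA : (0 : ℝ) < A := by positivity
  rw [← sub_nonneg]
  have : (A : ℝ) + (A : ℝ)⁻¹ - 2 = ((A : ℝ) - 1) ^ 2 / A := by field_simp; ring
  rw [this]; positivity

theorem pow_cosh (A : ℝ≥0∞) (h0 : A ≠ 0) (h1 : A ≠ ∞) (i j : ℕ) (h : i ≤ j + 1) (h' : j ≤ i + 1) :
    A ^ i * A ^ i + A ^ j * A ^ j ≤ (A + A⁻¹) * (A ^ i * A ^ j) := by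
  have hi : A⁻¹ * A = 1 := ENNReal.inv_mul_cancel h0 h1
  rcases lt_trichotomy i j with k | rfl | k
  · obtain rfl : j = i + 1 := by omega
    refine le_of_eq ?_
    calc _ = A ^ i * A ^ i * (A⁻¹ * A) + A ^ (i + 1) * A ^ (i + 1) := by rw [hi, mul_one]
      _ = _ := by ring
  · rw [← two_mul]; exact mul_le_mul_left (two_le_add_inv A) _
  · obtain rfl : i = j + 1 := by omega
    refine le_of_eq ?_
    calc _ = A ^ (j + 1) * A ^ (j + 1) + A ^ j * A ^ j * (A⁻¹ * A) := by rw [hi, mul_one]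
      _ = _ := by ring

namespace MG

variable {E V : Type} (G : MG E V)

theorem iter_dl_zero (ρ : V) (d : V → ℕ) (hd0 : d ρ = 0)
    (hd : ∀ e, d (G.tgt e) ≤ d (G.src e) + 1) (k : ℕ) :
    ∀ y, k < d y → G.avg^[k] (G.dl ρ) y = 0 := by
  induction k with
  | zero =>
    intro y hy
    have : y ≠ ρ := by rintro rfl; omega
    simp [dl, this]
  | succ k ih =>
    intro y hy
    rw [Function.iterate_succ_apply']
    refine le_antisymm (G.avg_le y 0 fun e he => (ih _ ?_).le) (by simp)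
    have := hd (G.flip e)
    rw [tgt_flip, he] at this
    change d y ≤ d (G.tgt e) + 1 at this
    omega

open Classical in
theorem davies (ρ : V) (hρ : G.deg ρ ≠ 0) (d : V → ℕ) (hd0 : d ρ = 0)
    (hd : ∀ e, d (G.tgt e) ≤ d (G.src e) + 1) (A z θ : ℝ≥0∞) (hA1 : 1 ≤ A) (hA : A ≠ ∞)
    (hz0 : z ≠ 0) (hz1 : z ≤ 1) (hθ : θ ≠ 0) (hθ1 : θ ≠ ∞)
    (hz : z * (A + A⁻¹) + 2 * θ ≤ 2) (n r0 : ℕ) :
    G.avg^[n] (fun y => if r0 ≤ d y then 1 else 0) ρ ≤ 4⁻¹ + (θ * θ)⁻¹ * (z⁻¹ ^ n * z⁻¹ ^ n) *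
      ∑' e, if r0 ≤ d (G.src e) ∧ d (G.src e) ≤ n then
        A⁻¹ ^ d (G.src e) * A⁻¹ ^ d (G.src e) else 0 := by
  have hA0 : A ≠ 0 := by rintro rfl; simp at hA1
  have hzt : z ≠ ∞ := ne_top_of_le_ne_top ENNReal.one_ne_top hz1
  let h : ℕ → V → ℝ≥0∞ := fun k => G.avg^[k] (G.dl ρ)
  let S : V → ℝ≥0∞ := fun y => ∑ k ∈ Finset.range (n + 1), z ^ k * h k y
  let u : V → ℝ≥0∞ := fun y => A ^ d y * S y
  have hz' : ∀ k, z ^ k ≤ 1 := fun k => pow_le_one₀ (by simp) hz1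
  have h1 : ∀ y, S y ≤ G.dl ρ y + z * G.avg S y := by
    intro y
    simp only [S]
    rw [Finset.sum_range_succ', add_comm, avg_sum, Finset.mul_sum, Finset.sum_range_succ]
    refine add_le_add (by simp [h]) (le_trans (le_of_eq ?_) le_self_add)
    refine Finset.sum_congr rfl fun k _ => ?_
    simp only [h, Function.iterate_succ_apply', avg_mul]
    ring
  have hh1 : ∀ k y, h k y ≤ 1 := fun k => G.iter_le 1 (fun v => by
    simp only [dl]
    split_ifs
    · exact ENNReal.inv_le_one.2 (by exact_mod_cast Nat.one_le_iff_ne_zero.2 hρ)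
    · simp) k
  have hS1 : ∀ y, S y ≤ (n + 1 : ℕ) := by
    intro y
    refine le_trans (Finset.sum_le_sum fun k _ => mul_le_one' (hz' k) (hh1 k y)) ?_
    simp
  have hS2 : ∑' e, S (G.src e) ≤ (n + 1 : ℕ) := by
    simp only [S]
    rw [Summable.tsum_finsetSum fun _ _ => ENNReal.summable]
    refine le_trans (Finset.sum_le_sum (g := fun _ => 1) fun k _ => ?_) (by simp)
    rw [ENNReal.tsum_mul_left]
    refine mul_le_one' (hz' k) ?_
    have e := G.ip_iter k (fun _ => 1) (G.dl ρ)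
    rw [G.ip_comm _ (G.dl ρ)] at e
    simp only [ip, one_mul] at e
    exact e.le.trans ((G.ip_dl_le ρ _).trans (G.iter_le 1 (fun _ => le_rfl) k ρ))
  have hS0 : ∀ y, n < d y → S y = 0 := fun y hy =>
    Finset.sum_eq_zero fun k hk => by
      rw [show h k y = 0 from G.iter_dl_zero ρ d hd0 hd k y
        (by have := Finset.mem_range.1 hk; omega), mul_zero]
  have hu : ∀ y, u y ≤ A ^ n * S y := by
    intro y
    by_cases hy : n < d y
    · simp [u, hS0 y hy]
    · exact mul_le_mul_left (pow_le_pow_right₀ hA1 (by omega)) _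
  set N := ∑' e, u (G.src e) * u (G.src e) with hN
  have hNf : N ≠ ∞ := by
    refine ne_top_of_le_ne_top (b := (A ^ n * (n + 1 : ℕ) * A ^ n) * (n + 1 : ℕ))
      (by finiteness) (le_trans ?_ (mul_le_mul_right hS2 _))
    rw [← ENNReal.tsum_mul_left]
    refine ENNReal.tsum_le_tsum fun e => ?_
    calc _ ≤ (A ^ n * (n + 1 : ℕ)) * (A ^ n * S (G.src e)) :=
          mul_le_mul' ((hu _).trans (mul_le_mul_right (hS1 _) _)) (hu _)
      _ = _ := by ring
  have h2 : 2 * (2 * ∑' e, (A ^ d (G.src e) * u (G.src e)) * S (G.tgt e))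
      ≤ (A + A⁻¹) * (2 * N) := by
    have e1 : 2 * N = ∑' e, (u (G.src e) * u (G.src e) + u (G.tgt e) * u (G.tgt e)) := by
      rw [ENNReal.tsum_add, ← G.tsum_flip (fun a _ => u a * u a), two_mul]
    have e2 : 2 * ∑' e, (A ^ d (G.src e) * u (G.src e)) * S (G.tgt e) =
        ∑' e, ((A ^ d (G.src e) * u (G.src e)) * S (G.tgt e) +
          (A ^ d (G.tgt e) * u (G.tgt e)) * S (G.src e)) := by
      rw [ENNReal.tsum_add, ← G.tsum_flip (fun a b => (A ^ d a * u a) * S b), two_mul]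
    rw [e1, e2, ← ENNReal.tsum_mul_left, ← ENNReal.tsum_mul_left]
    refine ENNReal.tsum_le_tsum fun e => ?_
    have k1 := hd e
    have k2 := hd (G.flip e)
    rw [tgt_flip] at k2
    change d (G.src e) ≤ d (G.tgt e) + 1 at k2
    have k3 := pow_cosh A hA0 hA _ _ k2 k1
    calc _ = 2 * ((A ^ d (G.src e) * A ^ d (G.src e) + A ^ d (G.tgt e) * A ^ d (G.tgt e)) *
          (S (G.src e) * S (G.tgt e))) := by simp only [u]; ring
      _ ≤ 2 * (((A + A⁻¹) * (A ^ d (G.src e) * A ^ d (G.tgt e))) *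
          (S (G.src e) * S (G.tgt e))) := by gcongr
      _ = (A + A⁻¹) * (2 * (u (G.src e) * u (G.tgt e))) := by simp only [u]; ring
      _ ≤ _ := mul_le_mul_right (enn_amgm _ _) _
  have h3 : N ≤ u ρ + z * ∑' e, (A ^ d (G.src e) * u (G.src e)) * S (G.tgt e) := by
    rw [← G.tsum_avg (fun y => A ^ d y * u y) S, ← ENNReal.tsum_mul_left]
    have e := G.ip_dl hρ (fun y => A ^ d y * u y)
    rw [hd0, pow_zero, one_mul] at e
    rw [← e, ip, ← ENNReal.tsum_add]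
    refine ENNReal.tsum_le_tsum fun e => ?_
    calc _ = (A ^ d (G.src e) * u (G.src e)) * S (G.src e) := by simp only [u]; ring
      _ ≤ (A ^ d (G.src e) * u (G.src e)) * (G.dl ρ (G.src e) + z * G.avg S (G.src e)) :=
          mul_le_mul_right (h1 _) _
      _ = _ := by ring
  have h4 : θ * N ≤ u ρ := by
    have k1 : 4 * N ≤ 4 * u ρ + z * ((A + A⁻¹) * (2 * N)) := by
      calc 4 * N ≤ 4 * (u ρ + z * ∑' e, (A ^ d (G.src e) * u (G.src e)) * S (G.tgt e)) :=
            mul_le_mul_right h3 4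
        _ = 4 * u ρ + z * (2 * (2 * ∑' e, (A ^ d (G.src e) * u (G.src e)) * S (G.tgt e))) := by
            ring
        _ ≤ _ := by gcongr
    have k2 : z * ((A + A⁻¹) * (2 * N)) + 4 * (θ * N) ≤ 4 * N := by
      calc _ = (z * (A + A⁻¹) + 2 * θ) * (2 * N) := by ring
        _ ≤ 2 * (2 * N) := by gcongr
        _ = _ := by ring
    have k3 := k2.trans k1
    rw [add_comm (4 * u ρ), ENNReal.add_le_add_iff_left (by
      have : A⁻¹ ≠ ∞ := by simpa using hA0
      finiteness)] at k3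
    exact (ENNReal.mul_le_mul_iff_right (by simp) (by simp)).1 k3
  have h5 : u ρ * u ρ ≤ N := by
    obtain ⟨e, he⟩ := Finset.card_ne_zero.1 hρ
    rw [← G.mem_star.1 he]
    exact ENNReal.le_tsum (f := fun e => u (G.src e) * u (G.src e)) e
  have h6 : θ * θ * N ≤ 1 := by
    by_cases hN0 : N = 0
    · simp [hN0]
    · rw [← ENNReal.mul_le_mul_iff_right hN0 hNf, mul_one]
      calc N * (θ * θ * N) = (θ * N) * (θ * N) := by ring
        _ ≤ u ρ * u ρ := mul_le_mul' h4 h4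
        _ ≤ N := h5
  rw [← G.ip_dl hρ (G.avg^[n] _), ip_iter, ip]
  have hθi : (θ * θ)⁻¹ * (θ * θ) = 1 :=
    ENNReal.inv_mul_cancel (mul_ne_zero hθ hθ) (ENNReal.mul_ne_top hθ1 hθ1)
  have hθi' : θ⁻¹ * θ = 1 := ENNReal.inv_mul_cancel hθ hθ1
  calc _ ≤ ∑' e, (4⁻¹ * (θ * θ * (u (G.src e) * u (G.src e))) +
        (θ * θ)⁻¹ * (z⁻¹ ^ n * z⁻¹ ^ n) * if r0 ≤ d (G.src e) ∧ d (G.src e) ≤ n then
        A⁻¹ ^ d (G.src e) * A⁻¹ ^ d (G.src e) else 0) := by
        refine ENNReal.tsum_le_tsum fun e => ?_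
        generalize G.src e = y
        by_cases c1 : r0 ≤ d y
        swap
        · simp [c1]
        by_cases c2 : d y ≤ n
        swap
        · rw [G.iter_dl_zero ρ d hd0 hd n y (by omega)]; simp
        rw [if_pos c1, if_pos ⟨c1, c2⟩, mul_one]
        have k1 : z ^ n * h n y ≤ S y :=
          Finset.single_le_sum (f := fun k => z ^ k * h k y) (fun _ _ => by simp)
            (Finset.mem_range.2 (Nat.lt_succ_self n))
        have k2 : h n y ≤ (2⁻¹ * θ * u y) * (2 * (θ⁻¹ * z⁻¹ ^ n * A⁻¹ ^ d y)) := by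
          calc h n y = (2⁻¹ * 2) * (θ⁻¹ * θ) * (z⁻¹ * z) ^ n * (A⁻¹ * A) ^ d y * h n y := by
                rw [hθi', ENNReal.inv_mul_cancel hz0 hzt, ENNReal.inv_mul_cancel hA0 hA,
                  ENNReal.inv_mul_cancel (by simp) (by simp)]; simp
            _ = (2⁻¹ * θ * (A ^ d y * (z ^ n * h n y))) * (2 * (θ⁻¹ * z⁻¹ ^ n * A⁻¹ ^ d y)) := by
                rw [mul_pow, mul_pow]; ring
            _ ≤ _ := by simp only [u]; gcongr
        refine k2.trans ?_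
        rw [mul_left_comm]
        refine (enn_amgm _ _).trans (le_of_eq ?_)
        rw [ENNReal.mul_inv (Or.inl hθ) (Or.inl hθ1),
          show (4 : ℝ≥0∞)⁻¹ = 2⁻¹ * 2⁻¹ by
            rw [← ENNReal.mul_inv (by simp) (by simp)]; norm_num]
        ring
    _ ≤ _ := by
        rw [ENNReal.tsum_add, ENNReal.tsum_mul_left, ENNReal.tsum_mul_left,
          ENNReal.tsum_mul_left]
        refine add_le_add ?_ le_rfl
        exact mul_le_of_le_one_right' h6

end MG

end Pool.Agent.MP_7a2e76_pr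

end

-- part MP_7a2e76_pr.Upper
section

/-! The walk is slow when `α` is close to `2/3`. -/

namespace Pool.Agent.MP_7a2e76_pr

open Set MeasureTheory Filter Topology
open scoped ENNReal
open St

theorem pow_le_one_add (x : ℝ) (hx : 0 ≤ x) (n : ℕ) (h : n * x ≤ 1 / 2) :
    (1 + x) ^ n ≤ 1 + 2 * n * x := by
  induction n with
  | zero => simp
  | succ n ih =>
    push_cast at h ⊢
    have h1 := ih (by nlinarith)
    have h2 : (n : ℝ) * x ≤ 1 / 2 := by nlinarith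
    rw [pow_succ]
    nlinarith [mul_le_mul_of_nonneg_right h1 (by linarith : 0 ≤ 1 + x)]

theorem eventually_half {Ω : Type} [MeasurableSpace Ω] (P : Measure Ω) [IsProbabilityMeasure P]
    (E : ℕ → Set Ω) (h : ∀ᵐ z ∂P, ∀ᶠ n in atTop, z ∈ E n) : ∀ᶠ n in atTop, 2⁻¹ < P (E n) := by
  let F : ℕ → Set Ω := fun N => {z | ∀ n, N ≤ n → z ∈ E n}
  have hF : Monotone F := fun N N' k z hz n hn => hz n (k.trans hn)
  have h1 : 1 ≤ P (⋃ N, F N) := by
    have h2 : P (⋃ N, F N)ᶜ = 0 := by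
      refine measure_mono_null ?_ h
      intro z hz k
      obtain ⟨N, hN⟩ := eventually_atTop.1 k
      exact hz (mem_iUnion.2 ⟨N, hN⟩)
    have := measure_union_le (μ := P) (⋃ N, F N) (⋃ N, F N)ᶜ
    rwa [union_compl_self, measure_univ, h2, add_zero] at this
  have h3 := (tendsto_order.1 (tendsto_measure_iUnion_atTop (μ := P) hF)).1 2⁻¹
    (lt_of_lt_of_le (by simp) h1)
  filter_upwards [h3] with n hn
  exact hn.trans_le (measure_mono fun z hz => hz n le_rfl)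

open Classical in
theorem far_bound (H : HalfPlane) (A z θ : ℝ≥0∞) (hA1 : 1 ≤ A) (hA : A ≠ ∞)
    (hz0 : z ≠ 0) (hz1 : z ≤ 1) (hθ : θ ≠ 0) (hθ1 : θ ≠ ∞)
    (hz : z * (A + A⁻¹) + 2 * θ ≤ 2) (n m : ℕ) :
    H.mg.avg^[n] (fun y => if ¬ H.Near m y then 1 else 0) H.root ≤
      4⁻¹ + (θ * θ)⁻¹ * (z⁻¹ ^ n * z⁻¹ ^ n) *
        ∑ r ∈ Finset.Icc (m + 1) n, A⁻¹ ^ r * A⁻¹ ^ r * vol r H := by
  refine le_trans (H.mg.iter_mono {y | H.graph.Reachable H.root y}
    (fun e he => he.trans (H.adj_oe e).reachable)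
    (Ψ := fun y => if m + 1 ≤ H.graph.dist H.root y then 1 else 0) ?_ n _
    (SimpleGraph.Reachable.refl _)) ?_
  · intro y hy
    by_cases h1 : H.Near m y
    · simp [h1]
    · rw [if_pos h1, if_pos]
      by_contra h2
      exact h1 ((H.near_iff m y).2 ⟨hy, by omega⟩)
  refine (H.mg.davies H.root H.deg_root (H.graph.dist H.root) (by simp) H.dist_tgt A z θ hA1 hA
    hz0 hz1 hθ hθ1 hz n (m + 1)).trans ?_
  gcongr
  simp only [vol, ← ENNReal.tsum_mul_left]
  rw [← Summable.tsum_finsetSum fun _ _ => ENNReal.summable]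
  refine ENNReal.tsum_le_tsum fun o => ?_
  split_ifs with h1
  · refine le_trans ?_ (Finset.single_le_sum (f := fun r => A⁻¹ ^ r * A⁻¹ ^ r *
      if H.Near r (H.mg.src o) then 1 else 0) (fun _ _ => by simp) (Finset.mem_Icc.2 h1))
    rw [if_pos ((H.near_iff _ _).2 ⟨SimpleGraph.Reachable.of_dist_ne_zero (by omega), le_rfl⟩),
      mul_one]
  · simp

theorem upper (q : ℕ) (hq : 1 ≤ q) : ∃ α0 : ℝ, 2 / 3 < α0 ∧ ∀ α < α0,
    ∀ P : Measure (HalfPlane × (ℕ → ℕ)), Ctx α P.fst → IsWalk P →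
      ∀ᶠ m in atTop, P {z | m < z.1.graph.dist z.1.root (z.2 (q * m))} ≤ 2⁻¹ := by
  classical
  have hq' : (1 : ℝ) ≤ q := by exact_mod_cast hq
  set t : ℝ := 1 / (8 * q) with ht
  have ht0 : 0 < t := by positivity
  have ht1 : t ≤ 1 / 8 := by
    rw [ht]; exact one_div_le_one_div_of_le (by norm_num) (by linarith)
  have hqt : q * t = 1 / 8 := by rw [ht]; field_simp
  refine ⟨2 / 3 + t ^ 2 / 300, by have := sq_pos_of_pos ht0; linarith, fun α hα P c hW => ?_⟩
  have h1 := c.h1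
  have hα2 : α < 3 / 4 := by nlinarith
  obtain ⟨C, hC, hvol⟩ := growth c (ENNReal.ofReal t) ENNReal.ofReal_ne_top (by
    rw [ph, ← ENNReal.ofReal_mul (by linarith),
      ENNReal.ofReal_lt_ofReal_iff (by apply mul_pos <;> linarith),
      Real.sqrt_lt' (by apply mul_pos <;> linarith)]
    have : t / 8 ≤ (1 - α) / 2 * t := by nlinarith
    have := pow_le_pow_left₀ (by positivity) this 2
    nlinarith)
  set A : ℝ≥0∞ := ENNReal.ofReal (1 + t) with hA
  set z : ℝ≥0∞ := ENNReal.ofReal (1 + t ^ 2)⁻¹ with hz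
  set θ : ℝ≥0∞ := ENNReal.ofReal (t ^ 2 / (2 * (1 + t ^ 2))) with hθ
  have hA1 : 1 < A := by rw [hA, ENNReal.one_lt_ofReal]; linarith
  have hAi : A⁻¹ = ENNReal.ofReal (1 + t)⁻¹ := (ENNReal.ofReal_inv_of_pos (by linarith)).symm
  have hzi : z⁻¹ = ENNReal.ofReal (1 + t ^ 2) := by
    rw [hz, ENNReal.ofReal_inv_of_pos (by positivity), inv_inv]
  have hθ0 : θ ≠ 0 := by simp only [hθ, ne_eq, ENNReal.ofReal_eq_zero, not_le]; positivity
  have hg : 1 + ENNReal.ofReal t = A := by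
    rw [hA, ENNReal.ofReal_add zero_le_one ht0.le, ENNReal.ofReal_one]
  have hAA : A⁻¹ * A = 1 := ENNReal.inv_mul_cancel (by positivity) ENNReal.ofReal_ne_top
  have hzz : z * (A + A⁻¹) + 2 * θ ≤ 2 := by
    rw [hAi, hA, hz, hθ, ← ENNReal.ofReal_add (by linarith) (by positivity),
      ← ENNReal.ofReal_mul (by positivity), ← ENNReal.ofReal_ofNat 2,
      ← ENNReal.ofReal_mul (by positivity), ← ENNReal.ofReal_add (by positivity) (by positivity)]
    refine ENNReal.ofReal_le_ofReal ?_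
    have : (1 + t)⁻¹ ≤ 1 - t + t ^ 2 := by
      rw [inv_le_iff_one_le_mul₀ (by linarith)]; nlinarith [pow_pos ht0 3]
    have e : 2 * (t ^ 2 / (2 * (1 + t ^ 2))) = 2 - (1 + t ^ 2)⁻¹ * (2 + t ^ 2) := by
      field_simp; ring
    rw [e]
    have := mul_le_mul_of_nonneg_left (show 1 + t + (1 + t)⁻¹ ≤ 2 + t ^ 2 by linarith)
      (show 0 ≤ (1 + t ^ 2)⁻¹ by positivity)
    linarith
  have key : ∀ m, P {z | m < z.1.graph.dist z.1.root (z.2 (q * m))} ≤
      4⁻¹ + ((θ * θ)⁻¹ * C * (1 - A⁻¹)⁻¹) * (z⁻¹ ^ (2 * q) * A⁻¹) ^ m := by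
    intro m
    refine le_trans (measure_mono (t := {z | ¬ z.1.Near m (z.2 (q * m))}) fun z hz k => ?_) ?_
    · have := ((z.1.near_iff _ _).1 k).2
      exact absurd hz (not_lt.2 this)
    refine (walk_bound hW (q * m) (fun H y => ¬ H.Near m y)
      fun y => (meas_near m y).compl).trans ?_
    refine Bd.init (α := α) ?_
    refine ((Bd.const c.good_init (F := fun _ => 4⁻¹) fun _ _ => le_rfl).add
      ((Bd.sum c.good_init (Finset.Icc (m + 1) (q * m)) _ _ fun r _ =>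
        (hvol r).smul (A⁻¹ ^ r * A⁻¹ ^ r)).smul
        ((θ * θ)⁻¹ * (z⁻¹ ^ (q * m) * z⁻¹ ^ (q * m))))).mono (fun H _ => ?_) ?_
    · refine le_trans (le_of_eq ?_) (far_bound H A z θ hA1.le ENNReal.ofReal_ne_top
        (by simp only [hz, ne_eq, ENNReal.ofReal_eq_zero, not_le]; positivity)
        (by rw [hz, ENNReal.ofReal_le_one]; exact inv_le_one_of_one_le₀ (by nlinarith))
        hθ0 ENNReal.ofReal_ne_top hzz (q * m) m)
      refine congrArg (fun Φ => H.mg.avg^[q * m] Φ H.root) (funext fun y => ?_)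
      congr
    · refine add_le_add le_rfl ?_
      have e1 : ∑ r ∈ Finset.Icc (m + 1) (q * m), A⁻¹ ^ r * A⁻¹ ^ r * (C * (1 + ENNReal.ofReal t) ^ r)
          ≤ C * (A⁻¹ ^ m * (1 - A⁻¹)⁻¹) := by
        rw [← ENNReal.tsum_geometric, ← ENNReal.tsum_mul_left, ← ENNReal.tsum_mul_left]
        refine le_trans (le_of_eq ?_) (sum_le_tsum_inj (Finset.Icc (m + 1) (q * m))
          (fun r => r - m) ?_ _)
        · refine Finset.sum_congr rfl fun r hr => ?_
          have := (Finset.mem_Icc.1 hr).1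
          rw [hg, ← pow_add A⁻¹ m, show m + (r - m) = r by omega]
          calc _ = C * A⁻¹ ^ r * (A⁻¹ * A) ^ r := by rw [mul_pow]; ring
            _ = _ := by rw [hAA, one_pow, mul_one]
        · intro r hr r' hr' e
          have := (Finset.mem_Icc.1 hr).1
          have := (Finset.mem_Icc.1 hr').1
          simp only at e
          omega
      refine (mul_le_mul_right e1 _).trans (le_of_eq ?_)
      rw [mul_pow, ← pow_mul, ← pow_add, show q * m + q * m = 2 * q * m by ring]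
      ring
  have hρ : z⁻¹ ^ (2 * q) * A⁻¹ < 1 := by
    rw [hzi, hAi, ← ENNReal.ofReal_pow (by positivity), ← ENNReal.ofReal_mul (by positivity),
      ENNReal.ofReal_lt_one, mul_inv_lt_iff₀ (by linarith), one_mul]
    have := pow_le_one_add (t ^ 2) (by positivity) (2 * q) (by push_cast; nlinarith)
    push_cast at this
    nlinarith
  have hD : (θ * θ)⁻¹ * C * (1 - A⁻¹)⁻¹ ≠ ∞ := by
    refine ENNReal.mul_ne_top (ENNReal.mul_ne_top (ENNReal.inv_ne_top.2 (mul_ne_zero hθ0 hθ0)) hC)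
      (ENNReal.inv_ne_top.2 (tsub_pos_of_lt (ENNReal.inv_lt_one.2 hA1)).ne')
  have ht := ENNReal.Tendsto.const_mul (ENNReal.tendsto_pow_atTop_nhds_zero_of_lt_one hρ)
    (Or.inr hD)
  rw [mul_zero] at ht
  filter_upwards [(tendsto_order.1 ht).2 4⁻¹ (by simp)] with m hm
  refine (key m).trans ((add_le_add le_rfl hm.le).trans (le_of_eq ?_))
  rw [← two_mul, show (4 : ℝ≥0∞) = 2 * 2 by norm_num, ENNReal.mul_inv (by simp) (by simp),
    ← mul_assoc, ENNReal.mul_inv_cancel (by simp) (by simp), one_mul]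

end Pool.Agent.MP_7a2e76_pr

end
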